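import Mathlib
import Pool.Agent.Lib.MP_90b327_co.Interface
import Pool.Agent.Lib.MP_90b327_co.RB.RDefs

/-!
Definitions for Theorem NS (near-squares), MP_90b327_co. Text: /team-store/PHJ_NS.md
-/

set_option autoImplicit false

namespace Pool.Agent.Lib.MP_90b327_co.NS

open Finset MeasureTheory Pool.Agent.Lib.MP_90b327_co Pool.Agent.Lib.MP_90b327_co.RB

/-! ### families and the limit functional -/

/-- `γ ⊆ γ'`, `γ` has at least `M` elements, `γ'` has at most `w |γ|` elements more -/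
def Near (M : ℕ) (w : ℕ → ℕ) {α : Type} (γ γ' : Finset α) : Prop :=
  γ ⊆ γ' ∧ M ≤ γ.card ∧ γ'.card ≤ γ.card + w γ.card

/-- `S` contains `A` and `A ∪ γ × γ'` for a near pair `γ ⊆ γ'` -/
def GoodN (M : ℕ) (w : ℕ → ℕ) (N : ℕ) (S : Finset (Finset (Fin 2 → Fin N))) : Prop :=
  ∃ A ∈ S, ∃ γ γ' : Finset (Fin N), Near M w γ γ' ∧ Disjoint A (bx γ γ') ∧ A ∪ bx γ γ' ∈ S

/-- limiting pair correlations; same fields as `LimFun 2 δ` except the last one -/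
structure NLim (M : ℕ) (w : ℕ → ℕ) (δ : ℝ) where
  G : (K : ℕ) → Pat 2 K → Pat 2 K → ℝ
  symm : ∀ K X Y, G K X Y = G K Y X
  nonneg : ∀ K X Y, 0 ≤ G K X Y
  diag : ∀ K X, G K X X = δ
  ext : ∀ (K K' : ℕ) (ι : Fin K → Fin K'), Function.Injective ι → ∀ X Y : Pat 2 K',
    (∀ c : Fin 2 → Fin K', (¬ ∃ c' : Fin 2 → Fin K, c = ι ∘ c') → X c = Y c) →
      G K' X Y = G K (fun c => X (ι ∘ c)) (fun c => Y (ι ∘ c))
  psd : ∀ (K n : ℕ) (X : Fin n → Pat 2 K) (a : Fin n → ℝ) (a₀ : ℝ),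
    0 ≤ a₀ ^ 2 + 2 * a₀ * (∑ i, a i) * δ + ∑ i, ∑ j, a i * a j * G K (X i) (X j)
  bad : ∀ (K : ℕ) (X Y : Pat 2 K) (γ γ' : Finset (Fin K)), Near M w γ γ' →
    (∀ c : Fin 2 → Fin K, c 0 ∈ γ → c 1 ∈ γ' → X c = false) →
    (∀ c : Fin 2 → Fin K, c 0 ∈ γ → c 1 ∈ γ' → Y c = true) →
    (∀ c : Fin 2 → Fin K, ¬ (c 0 ∈ γ ∧ c 1 ∈ γ') → Y c = X c) → G K X Y = 0

/-- the limit kernel on finite patterns of `ℕ × ℕ`, rows and columns are the SAME vertices. A cell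
`(i, j)` is the cell of `[N]^2` with first coordinate `j` and second coordinate `i` (so the long side
`I` of the near-square `I ×ˢ J` comes first). -/
structure JKer (M : ℕ) (w : ℕ → ℕ) (D : ℝ) (g : Pt → Pt → ℝ) : Prop where
  symm : ∀ X Y, g X Y = g Y X
  diag : ∀ X, g X X = D
  psd : ∀ (ι : Type) [Fintype ι] (X : ι → Pt) (a : ι → ℝ),
    D ^ 2 * (∑ i, a i) ^ 2 ≤ ∑ i, ∑ j, a i * a j * g (X i) (X j)
  inv : ∀ σ : ℕ → ℕ, Function.Injective σ → ∀ X Y, g (rl σ σ X) (rl σ σ Y) = g X Y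
  rem : ∀ (X Y : Pt) (v : ℕ), (∀ c : ℕ × ℕ, (c.1 = v ∨ c.2 = v) → (c ∈ X ↔ c ∈ Y)) →
    g X Y = g (X.filter (fun c => c.1 ≠ v ∧ c.2 ≠ v)) (Y.filter (fun c => c.1 ≠ v ∧ c.2 ≠ v))
  bad : ∀ (X : Pt) (I J : Finset ℕ), Near M w J I → Disjoint X (I ×ˢ J) → g X (X ∪ I ×ˢ J) = 0

/-- the bipartite kernel: rows are the even vertices, columns are the odd vertices -/
def bk (g : Pt → Pt → ℝ) (X Y : Pt) : ℝ :=
  g (rl (fun i => 2 * i) (fun j => 2 * j + 1) X) (rl (fun i => 2 * i) (fun j => 2 * j + 1) Y)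

/-- value of the kernel at the difference `(al ∪ gg ∪ H) ×ˢ gg` over the base
`(al ∪ gg ∪ H) ×ˢ al` -/
def qv (g : Pt → Pt → ℝ) (al gg H : Finset ℕ) : ℝ :=
  g ((al ∪ gg ∪ H) ×ˢ al) ((al ∪ gg ∪ H) ×ˢ (al ∪ gg))

/-! ### the two one-sided spaces -/

/-- one-sided data of an exchangeable difference-only kernel. `W p q a b`: value at the product of a
row vector with `p` pluses, `q` minuses and a column vector with `a` pluses, `b` minuses. `r.z x y`: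
`x`, `y` sets of columns; `c.z x y`: `x`, `y` sets of rows. -/
structure Dat where
  W : ℕ → ℕ → ℕ → ℕ → ℂ
  r : Sp
  c : Sp
  mom : ∀ x y : Finset ℕ, Disjoint x y → ∀ p q : ℕ,
    ∫ ω, r.z x y ω ^ p * r.z y x ω ^ q ∂r.P = W p q y.card x.card
  mom' : ∀ x y : Finset ℕ, Disjoint x y → ∀ a b : ℕ,
    ∫ ω, c.z x y ω ^ a * c.z y x ω ^ b ∂c.P = W y.card x.card a b
  exch : ∀ u v : Fin 3 → Finset ℕ, (∀ k l, k ≠ l → Disjoint (u k) (u l)) →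
    (∀ k l, k ≠ l → Disjoint (v k) (v l)) → (∀ k, (u k).card = (v k).card) → ∀ p q : Fin 3 → ℕ,
    ∫ ω, ∏ k, (r.z ∅ (u k) ω ^ p k * r.z (u k) ∅ ω ^ q k) ∂r.P =
      ∫ ω, ∏ k, (r.z ∅ (v k) ω ^ p k * r.z (v k) ∅ ω ^ q k) ∂r.P

/-- `T` comes from the kernel `g` -/
def Link (g : Pt → Pt → ℝ) (D : ℝ) (T : Dat) : Prop :=
  ∀ e f y : Finset ℕ, Disjoint e f →
    ((bk g (e ×ˢ y) (f ×ˢ y) / D : ℝ) : ℂ) = T.W f.card e.card y.card 0

/-! ### averages -/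

/-- `(z + z^2 + ... + z^k) / k` -/
noncomputable def Av (k : ℕ) (z : ℂ) : ℂ := (∑ b ∈ range k, z ^ (b + 1)) / k

/-- `|Av k z|^2` outside `z = 1` -/
noncomputable def Tk (k : ℕ) (z : ℂ) : ℝ := if z = 1 then 0 else ‖Av k z‖ ^ 2

/-- mean of `|Av k z|^2`, `z` of the class: `a` minuses, `a'` pluses -/
noncomputable def nn (T : Dat) (k a a' : ℕ) : ℝ :=
  ∫ ω, ‖Av k (T.r.z (range a) (Ico a (a + a')) ω)‖ ^ 2 ∂T.r.P

/-- mean of `Tk k z`, `z` of the class: `a` minuses, `a'` pluses -/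
noncomputable def tt (T : Dat) (k a a' : ℕ) : ℝ :=
  ∫ ω, Tk k (T.r.z (range a) (Ico a (a + a')) ω) ∂T.r.P

/-- the functional `Ψ` -/
noncomputable def Psi (T : Dat) (l k : ℕ) : ℝ :=
  (∑ a ∈ range l, ∑ a' ∈ range l, nn T k (a + 1) (a' + 1)) / (l : ℝ) ^ 2

/-- mean of the product of three values of `Tk k`, disjoint sets of sizes `a`, `b`, `c` -/
noncomputable def e3 (T : Dat) (k a b c : ℕ) : ℝ :=
  ∫ ω, Tk k (T.r.z ∅ (range a) ω) * Tk k (T.r.z ∅ (Ico a (a + b)) ω) *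
    Tk k (T.r.z ∅ (Ico (a + b) (a + b + c)) ω) ∂T.r.P

end Pool.Agent.Lib.MP_90b327_co.NS
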