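import Mathlib
import Pool.Agent.Lib.MP_90b327_co.NS.NDefs

/-!
MODULE AvA (35 minutes, old scale). Elementary properties of `Av` and `Tk`.

PROOFS. `av_norm`: triangle inequality (`k = 0`: `Av 0 z = 0`). `av_sub`: `(z - 1) ∑_{b<k} z^(b+1) =
z^(k+1) - z`. `av_double`: split the sum over `range (2 k)` at `k` (`Finset.sum_range_add` or
`Finset.range_eq_Ico`), `z^(k+b+1) = z^k z^(b+1)`; `k = 0` is trivial. `av_mono`: `‖(1 + z^k)/2‖ ≤ 1`.
`av_close`: `Av k z - 1 = (1/k) ∑ (z^(b+1) - 1)`, `‖z^m - 1‖ ≤ m ‖z - 1‖` for `‖z‖ ≤ 1` (induction), and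
`∑_{b<k} (b + 1) ≤ k * k`. `av_tend`: `z = 1`: eventually constant `1`; `z ≠ 1`: `‖Av K z‖ ≤ (2 / K) / ‖z - 1‖`.
`tk_eq`, `tk_eq'`: two cases (`Av k 1 = 1`). `tk_meas`: `Measurable.ite (measurableSet_singleton 1)`.
-/

set_option autoImplicit false

namespace Pool.Agent.Lib.MP_90b327_co.NS

open Finset Filter Topology

theorem av_norm (k : ℕ) (z : ℂ) (hz : ‖z‖ ≤ 1) : ‖Av k z‖ ≤ 1 := by
  unfold Av
  rw [norm_div, Complex.norm_natCast]
  rcases Nat.eq_zero_or_pos k with rfl | hk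
  · simp
  have hk' : (0 : ℝ) < k := by exact_mod_cast hk
  rw [div_le_one hk']
  calc ‖∑ b ∈ range k, z ^ (b + 1)‖ ≤ ∑ b ∈ range k, ‖z ^ (b + 1)‖ := norm_sum_le _ _
    _ ≤ ∑ b ∈ range k, (1 : ℝ) := by
        refine Finset.sum_le_sum fun b _ => ?_
        rw [norm_pow]
        exact pow_le_one₀ (norm_nonneg z) hz
    _ = k := by simp

theorem av_sub (k : ℕ) (hk : 1 ≤ k) (z : ℂ) (hz : ‖z‖ ≤ 1) : ‖(z - 1) * Av k z‖ ≤ 2 / k := by
  have h1 : ∀ n : ℕ, (z - 1) * ∑ b ∈ range n, z ^ (b + 1) = z ^ (n + 1) - z := by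
    intro n
    induction n with
    | zero => simp
    | succ n ih =>
      rw [Finset.sum_range_succ, mul_add, ih]
      ring
  have hk' : (0 : ℝ) < k := by exact_mod_cast hk
  unfold Av
  rw [← mul_div_assoc, h1, norm_div, Complex.norm_natCast]
  refine div_le_div_of_nonneg_right ?_ hk'.le
  calc ‖z ^ (k + 1) - z‖ ≤ ‖z ^ (k + 1)‖ + ‖z‖ := norm_sub_le _ _
    _ ≤ 1 + 1 := by
        refine add_le_add ?_ hz
        rw [norm_pow]
        exact pow_le_one₀ (norm_nonneg z) hz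
    _ = 2 := by norm_num

theorem av_double (k : ℕ) (z : ℂ) : Av (2 * k) z = (1 + z ^ k) / 2 * Av k z := by
  unfold Av
  rcases Nat.eq_zero_or_pos k with rfl | hk
  · simp
  have hk' : (k : ℂ) ≠ 0 := by exact_mod_cast hk.ne'
  have h1 : ∑ b ∈ range (2 * k), z ^ (b + 1) = (1 + z ^ k) * ∑ b ∈ range k, z ^ (b + 1) := by
    rw [two_mul, Finset.sum_range_add]
    rw [add_mul, one_mul, Finset.mul_sum]
    congr 1
    refine Finset.sum_congr rfl fun b _ => ?_
    ring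
  rw [h1]
  push_cast
  field_simp

theorem av_mono (k : ℕ) (z : ℂ) (hz : ‖z‖ ≤ 1) : ‖Av (2 * k) z‖ ≤ ‖Av k z‖ := by
  rw [av_double, norm_mul]
  refine mul_le_of_le_one_left (norm_nonneg _) ?_
  rw [norm_div]
  have h1 : ‖(1 : ℂ) + z ^ k‖ ≤ 2 := by
    calc ‖(1 : ℂ) + z ^ k‖ ≤ ‖(1 : ℂ)‖ + ‖z ^ k‖ := norm_add_le _ _
      _ ≤ 1 + 1 := by
          refine add_le_add (by simp) ?_
          rw [norm_pow]
          exact pow_le_one₀ (norm_nonneg z) hz
      _ = 2 := by norm_num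
  have h2 : ‖(2 : ℂ)‖ = 2 := by simp
  rw [h2, div_le_one (by norm_num)]
  exact h1

theorem av_one (k : ℕ) (hk : 1 ≤ k) : Av k 1 = 1 := by
  unfold Av
  have hk' : (k : ℂ) ≠ 0 := by
    have : k ≠ 0 := by omega
    exact_mod_cast this
  simp [hk']

theorem av_close (k : ℕ) (hk : 1 ≤ k) (z : ℂ) (hz : ‖z‖ ≤ 1) : ‖Av k z - 1‖ ≤ k * ‖z - 1‖ := by
  have hk' : (0 : ℝ) < k := by exact_mod_cast hk
  have hk2 : (k : ℂ) ≠ 0 := by
    have : k ≠ 0 := by omega
    exact_mod_cast this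
  have h1 : ∀ m : ℕ, ‖z ^ m - 1‖ ≤ m * ‖z - 1‖ := by
    intro m
    induction m with
    | zero => simp
    | succ m ih =>
      have : z ^ (m + 1) - 1 = z ^ m * (z - 1) + (z ^ m - 1) := by ring
      rw [this]
      calc ‖z ^ m * (z - 1) + (z ^ m - 1)‖ ≤ ‖z ^ m * (z - 1)‖ + ‖z ^ m - 1‖ := norm_add_le _ _
        _ ≤ 1 * ‖z - 1‖ + m * ‖z - 1‖ := by
            refine add_le_add ?_ ih
            rw [norm_mul, norm_pow]
            exact mul_le_mul_of_nonneg_right (pow_le_one₀ (norm_nonneg z) hz) (norm_nonneg _)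
        _ = ((m + 1 : ℕ) : ℝ) * ‖z - 1‖ := by push_cast; ring
  have h2 : Av k z - 1 = (∑ b ∈ range k, (z ^ (b + 1) - 1)) / k := by
    unfold Av
    rw [Finset.sum_sub_distrib]
    simp only [sum_const, card_range, nsmul_eq_mul, mul_one]
    field_simp
  rw [h2, norm_div, Complex.norm_natCast, div_le_iff₀ hk']
  calc ‖∑ b ∈ range k, (z ^ (b + 1) - 1)‖ ≤ ∑ b ∈ range k, ‖z ^ (b + 1) - 1‖ := norm_sum_le _ _
    _ ≤ ∑ b ∈ range k, (k : ℝ) * ‖z - 1‖ := by
        refine Finset.sum_le_sum fun b hb => (h1 (b + 1)).trans ?_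
        refine mul_le_mul_of_nonneg_right ?_ (norm_nonneg _)
        have := Finset.mem_range.1 hb
        exact_mod_cast this
    _ = k * ‖z - 1‖ * k := by simp; ring

theorem av_tend (z : ℂ) (hz : ‖z‖ ≤ 1) :
    Tendsto (fun K : ℕ => Av K z) atTop (𝓝 (if z = 1 then 1 else 0)) := by
  by_cases h : z = 1
  · subst h
    rw [if_pos rfl]
    refine tendsto_const_nhds.congr' ?_
    filter_upwards [eventually_ge_atTop 1] with k hk
    exact (av_one k hk).symm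
  · rw [if_neg h]
    have h0 : 0 < ‖z - 1‖ := norm_pos_iff.2 (sub_ne_zero.2 h)
    have h1 : Tendsto (fun K : ℕ => (2 : ℝ) / K / ‖z - 1‖) atTop (𝓝 0) := by
      have h2 : Tendsto (fun K : ℕ => (2 : ℝ) / K) atTop (𝓝 0) :=
        tendsto_const_div_atTop_nhds_zero_nat 2
      have := h2.div_const ‖z - 1‖
      simpa using this
    refine squeeze_zero_norm' ?_ h1
    filter_upwards [eventually_ge_atTop 1] with k hk
    rw [le_div_iff₀ h0]
    have := av_sub k hk z hz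
    rw [norm_mul] at this
    linarith

theorem av_cont (k : ℕ) : Continuous (Av k) := by
  unfold Av
  fun_prop

theorem tk_eq (k : ℕ) (hk : 1 ≤ k) (z : ℂ) :
    Tk k z = ‖Av k z‖ ^ 2 - (if z = 1 then 1 else 0) := by
  unfold Tk
  by_cases h : z = 1
  · subst h
    rw [if_pos rfl, if_pos rfl, av_one k hk]
    simp
  · rw [if_neg h, if_neg h, sub_zero]

theorem tk_eq' (k : ℕ) (hk : 1 ≤ k) (z : ℂ) :
    Tk k z = ‖Av k z - (if z = 1 then 1 else 0)‖ ^ 2 := by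
  unfold Tk
  by_cases h : z = 1
  · subst h
    rw [if_pos rfl, if_pos rfl, av_one k hk]
    simp
  · rw [if_neg h, if_neg h, sub_zero]

theorem tk_nonneg (k : ℕ) (z : ℂ) : 0 ≤ Tk k z := by
  unfold Tk
  split_ifs
  · exact le_refl 0
  · positivity

theorem tk_le (k : ℕ) (z : ℂ) : Tk k z ≤ ‖Av k z‖ ^ 2 := by
  unfold Tk
  split_ifs
  · positivity
  · exact le_refl _

theorem tk_le_one (k : ℕ) (z : ℂ) (hz : ‖z‖ ≤ 1) : Tk k z ≤ 1 :=
  (tk_le k z).trans (pow_le_one₀ (norm_nonneg _) (av_norm k z hz))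

theorem tk_meas (k : ℕ) : Measurable (Tk k) := by
  unfold Tk
  exact Measurable.ite (measurableSet_singleton 1) measurable_const
    (((av_cont k).measurable.norm).pow_const 2)

end Pool.Agent.Lib.MP_90b327_co.NS
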