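import Mathlib
import Pool.Agent.Lib.MP_90b327_co.NS.NDefs

/-!
MODULE Chain (30 minutes, old scale). Text section 6: positivity for the chain of patterns.

PROOF. `P i = range (s t + b) ×ˢ range (s i)` for `i : Fin (t + 1)`. `h.psd` with all coefficients `1`:
`D² (t+1)² ≤ ∑_{i,j} g (P i) (P j) = (t+1) D + 2 ∑_{i<j} g (P i) (P j)` (`h.diag`, `h.symm`). For `i < j ≤ t`:
`s i ≤ s j ≤ s t`, `range (s i) ∪ Ico (s i) (s j) = range (s j)`, `range (s j) ∪ Ico (s j) (s t + b) = range (s t + b)`, so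
`qv g (range (s i)) (Ico (s i) (s j)) (Ico (s j) (s t + b)) = g (P i) (P j)`.
-/

set_option autoImplicit false

namespace Pool.Agent.Lib.MP_90b327_co.NS

open Finset Pool.Agent.Lib.MP_90b327_co Pool.Agent.Lib.MP_90b327_co.RB

private theorem Chain_un (a b : ℕ) (h : a ≤ b) : range a ∪ Ico a b = range b := by
  ext c
  simp only [mem_union, mem_range, mem_Ico]
  omega

private theorem Chain_sum (G : ℕ → ℕ → ℝ) (D : ℝ) (hd : ∀ i, G i i = D)
    (hs : ∀ i j, G i j = G j i) (n : ℕ) :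
    ∑ i ∈ range n, ∑ j ∈ range n, G i j = n * D + 2 * ∑ j ∈ range n, ∑ i ∈ range j, G i j := by
  induction n with
  | zero => simp
  | succ n ih =>
    rw [sum_range_succ (fun j => ∑ i ∈ range j, G i j), sum_range_succ, sum_range_succ (G n)]
    have h1 : ∑ i ∈ range n, ∑ j ∈ range (n + 1), G i j =
        ∑ i ∈ range n, ∑ j ∈ range n, G i j + ∑ i ∈ range n, G i n := by
      rw [← sum_add_distrib]
      exact sum_congr rfl fun i _ => sum_range_succ (G i) n
    have h2 : ∑ j ∈ range n, G n j = ∑ i ∈ range n, G i n := sum_congr rfl fun j _ => hs n j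
    rw [h1, ih, h2, hd]
    push_cast
    ring

theorem chain {M : ℕ} {w : ℕ → ℕ} {D : ℝ} {g : Pt → Pt → ℝ} (h : JKer M w D g) (t b : ℕ)
    (s : ℕ → ℕ) (hs : ∀ i j, i ≤ j → j ≤ t → s i ≤ s j) :
    ((t : ℝ) + 1) ^ 2 * D ^ 2 ≤ (t + 1) * D + 2 * ∑ j ∈ range (t + 1), ∑ i ∈ range j,
      qv g (range (s i)) (Ico (s i) (s j)) (Ico (s j) (s t + b)) := by
  obtain ⟨P, hP⟩ : ∃ P : ℕ → Pt, ∀ i, P i = range (s t + b) ×ˢ range (s i) :=
    ⟨_, fun _ => rfl⟩
  have h1 := h.psd (Fin (t + 1)) (fun i => P i) (fun _ => 1)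
  have h2 : ∑ i : Fin (t + 1), ∑ j : Fin (t + 1), (1 : ℝ) * 1 * g (P i) (P j) =
      ∑ i ∈ range (t + 1), ∑ j ∈ range (t + 1), g (P i) (P j) := by
    rw [← Fin.sum_univ_eq_sum_range (fun i => ∑ j ∈ range (t + 1), g (P i) (P j)) (t + 1)]
    refine sum_congr rfl fun i _ => ?_
    rw [← Fin.sum_univ_eq_sum_range (fun j => g (P i) (P j)) (t + 1)]
    refine sum_congr rfl fun j _ => ?_
    ring
  rw [h2, Chain_sum (fun i j => g (P i) (P j)) D (fun i => h.diag (P i))
    (fun i j => h.symm (P i) (P j)) (t + 1)] at h1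
  rw [sum_const, card_univ, Fintype.card_fin, nsmul_eq_mul, mul_one] at h1
  push_cast at h1
  have h3 : ∑ j ∈ range (t + 1), ∑ i ∈ range j, g (P i) (P j) =
      ∑ j ∈ range (t + 1), ∑ i ∈ range j,
        qv g (range (s i)) (Ico (s i) (s j)) (Ico (s j) (s t + b)) := by
    refine sum_congr rfl fun j hj => sum_congr rfl fun i hi => ?_
    rw [mem_range] at hi hj
    have e1 := hs i j hi.le (by omega)
    have e2 := hs j t (by omega) le_rfl
    unfold qv
    rw [Chain_un (s i) (s j) e1, Chain_un (s j) (s t + b) (by omega), hP, hP]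
  rw [h3] at h1
  linarith

end Pool.Agent.Lib.MP_90b327_co.NS
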