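import Mathlib

/-!
MODULE Choice (40 minutes, old scale). Text section 6: choice of the sizes (independent of everything).

PROOF. Construct `s 0 = 0, s 1, ..., s t` one after the other (induction on the number `j` of steps, `j ≤ t`, with the
statement for `s 0..s j`; values beyond `t` are arbitrary). Step: given `s 0 < ... < s j`, `j < t`, let `i ≥ i₀` with
`s j ≤ 2^i` and `4 (Φ (s j) + 1) ≤ 2^i`; `l = 2^i`, `η = 4 (t + 1) ε`. Look for `a ∈ [1, l]` with `Φ (s j) ≤ a` and
`mm (a + s j - s m) ≤ η` for all `m ≤ j`; then `s (j+1) = s j + a`. For fixed `m ≤ j`, `c = s j - s m ≤ l`: the map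
`a ↦ a + c` is injective from `[1, l]` to `[1, 2l]`, and the number of `v ∈ [1, 2l]` with `mm v > η` is at most
`(∑_{v ≤ 2l} mm v)/η ≤ ε 2 l/η = l/(2 (t+1))` (the hypothesis for `i + 1`). So at most `(j+1) l/(2(t+1)) ≤ t l/(2(t+1)) < l/2`
values of `a` are excluded by these conditions, and at most `Φ (s j) ≤ l/4` by the first one; one of the `l` values is
left.
-/

set_option autoImplicit false

namespace Pool.Agent.Lib.MP_90b327_co.NS

open Finset

private theorem choice_step (mm : ℕ → ℝ) (hmm : ∀ a, 0 ≤ mm a) (ε : ℝ) (hε : 0 < ε) (i₀ : ℕ)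
    (h : ∀ i, i₀ ≤ i → ∑ a ∈ range (2 ^ i), mm (a + 1) ≤ ε * (2 : ℝ) ^ i) (t : ℕ) (Φ n j : ℕ)
    (hj : j < t) (c : ℕ → ℕ) (hc : ∀ m, m ≤ j → c m ≤ n) :
    ∃ a : ℕ, 1 ≤ a ∧ Φ ≤ a ∧ ∀ m, m ≤ j → mm (a + c m) ≤ 4 * ((t : ℝ) + 1) * ε := by
  classical
  obtain ⟨i, hi⟩ : ∃ i : ℕ, i = i₀ + n + 4 * (Φ + 1) := ⟨_, rfl⟩
  obtain ⟨l, hl⟩ : ∃ l : ℕ, l = 2 ^ i := ⟨_, rfl⟩
  have hil : i < l := by
    rw [hl]
    exact Nat.lt_two_pow_self
  have hl0 : (0 : ℝ) < l := by
    have : 0 < l := by omega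
    exact_mod_cast this
  obtain ⟨η, hη⟩ : ∃ η : ℝ, η = 4 * ((t : ℝ) + 1) * ε := ⟨_, rfl⟩
  have hη0 : 0 < η := by rw [hη]; positivity
  rw [← hη]
  by_contra hcon
  push Not at hcon
  -- the excluded values
  have hB : ∀ m, m ≤ j → (((Icc 1 l).filter (fun a => η < mm (a + c m))).card : ℝ) ≤
      l / (2 * ((t : ℝ) + 1)) := by
    intro m hm
    obtain ⟨B, hBdef⟩ : ∃ B : Finset ℕ, B = (Icc 1 l).filter (fun a => η < mm (a + c m)) :=
      ⟨_, rfl⟩
    rw [← hBdef]
    have hBm : ∀ a ∈ B, 1 ≤ a ∧ a ≤ l ∧ η < mm (a + c m) := by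
      intro a ha
      rw [hBdef, mem_filter, mem_Icc] at ha
      exact ⟨ha.1.1, ha.1.2, ha.2⟩
    have hcm := hc m hm
    have h1 : η * (B.card : ℝ) ≤ ∑ a ∈ B, mm (a + c m) := by
      calc η * (B.card : ℝ) = ∑ _a ∈ B, η := by rw [sum_const, nsmul_eq_mul, mul_comm]
        _ ≤ ∑ a ∈ B, mm (a + c m) := sum_le_sum fun a ha => (hBm a ha).2.2.le
    have h2 : ∑ a ∈ B, mm (a + c m) = ∑ b ∈ B.image (fun a => a + c m - 1), mm (b + 1) := by
      rw [sum_image]
      · refine sum_congr rfl fun a ha => ?_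
        have := (hBm a ha).1
        congr 1
        omega
      · intro a ha b hb hab
        have h3 := (hBm a ha).1
        have h4 := (hBm b hb).1
        simp only at hab
        omega
    have h3 : ∑ b ∈ B.image (fun a => a + c m - 1), mm (b + 1) ≤
        ∑ b ∈ range (2 ^ (i + 1)), mm (b + 1) := by
      refine sum_le_sum_of_subset_of_nonneg ?_ fun b _ _ => hmm _
      intro b hb
      rw [mem_image] at hb
      obtain ⟨a, ha, rfl⟩ := hb
      have h4 := hBm a ha
      rw [mem_range, pow_succ, ← hl]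
      omega
    have h4 := h (i + 1) (by omega)
    have h5 : (2 : ℝ) ^ (i + 1) = 2 * l := by
      rw [hl, pow_succ]
      push_cast
      ring
    rw [h5] at h4
    rw [le_div_iff₀ (by positivity)]
    have h6 : η * (B.card : ℝ) ≤ ε * (2 * l) := by linarith
    rw [hη] at h6
    have h7 : ε * ((B.card : ℝ) * (2 * ((t : ℝ) + 1))) ≤ ε * l := by nlinarith
    exact le_of_mul_le_mul_left h7 hε
  have hcov : Icc 1 l ⊆ range Φ ∪ (range (j + 1)).biUnion
      (fun m => (Icc 1 l).filter (fun a => η < mm (a + c m))) := by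
    intro a ha
    rw [mem_union, mem_range, mem_biUnion]
    by_cases hΦ : a < Φ
    · exact Or.inl hΦ
    · right
      obtain ⟨m, hm, hm'⟩ := hcon a (mem_Icc.1 ha).1 (not_lt.1 hΦ)
      refine ⟨m, mem_range.2 (by omega), ?_⟩
      rw [mem_filter]
      exact ⟨ha, hm'⟩
  have hcard := (card_le_card hcov).trans (card_union_le _ _)
  rw [Nat.card_Icc, card_range, Nat.add_sub_cancel] at hcard
  have h8 : ((((range (j + 1)).biUnion
      (fun m => (Icc 1 l).filter (fun a => η < mm (a + c m)))).card : ℕ) : ℝ) ≤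
      ((j : ℝ) + 1) * (l / (2 * ((t : ℝ) + 1))) := by
    calc ((((range (j + 1)).biUnion
          (fun m => (Icc 1 l).filter (fun a => η < mm (a + c m)))).card : ℕ) : ℝ) ≤
          ((∑ m ∈ range (j + 1), ((Icc 1 l).filter (fun a => η < mm (a + c m))).card : ℕ) : ℝ) := by
          exact_mod_cast card_biUnion_le
      _ = ∑ m ∈ range (j + 1), (((Icc 1 l).filter (fun a => η < mm (a + c m))).card : ℝ) := by
          push_cast
          rfl
      _ ≤ ∑ _m ∈ range (j + 1), (l : ℝ) / (2 * ((t : ℝ) + 1)) :=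
          sum_le_sum fun m hm => hB m (by rw [mem_range] at hm; omega)
      _ = ((j : ℝ) + 1) * (l / (2 * ((t : ℝ) + 1))) := by
          rw [sum_const, card_range, nsmul_eq_mul]
          push_cast
          ring
  have h9 : (l : ℝ) ≤ Φ + ((j : ℝ) + 1) * (l / (2 * ((t : ℝ) + 1))) := by
    have h10 : (l : ℝ) ≤ ((Φ + ((range (j + 1)).biUnion
      (fun m => (Icc 1 l).filter (fun a => η < mm (a + c m)))).card : ℕ) : ℝ) := by
      exact_mod_cast hcard
    push_cast at h10
    linarith
  have h11 : ((j : ℝ) + 1) * (l / (2 * ((t : ℝ) + 1))) ≤ l / 2 := by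
    have hjt : ((j : ℝ) + 1) ≤ (t : ℝ) := by exact_mod_cast hj
    rw [← mul_div_assoc, div_le_div_iff₀ (by positivity) (by norm_num)]
    nlinarith
  have h12 : (4 : ℝ) * Φ < l := by
    have h13 : 4 * Φ < l := by omega
    exact_mod_cast h13
  linarith

theorem choice (mm : ℕ → ℝ) (hmm : ∀ a, 0 ≤ mm a) (ε : ℝ) (hε : 0 < ε) (i₀ : ℕ)
    (h : ∀ i, i₀ ≤ i → ∑ a ∈ range (2 ^ i), mm (a + 1) ≤ ε * (2 : ℝ) ^ i) (t : ℕ) (Φ : ℕ → ℕ) :
    ∃ s : ℕ → ℕ, s 0 = 0 ∧ (∀ j, j < t → s j < s (j + 1) ∧ Φ (s j) ≤ s (j + 1) - s j) ∧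
      ∀ i j, i < j → j ≤ t → mm (s j - s i) ≤ 4 * ((t : ℝ) + 1) * ε := by
  have key : ∀ n, n ≤ t → ∃ s : ℕ → ℕ, s 0 = 0 ∧
      (∀ j, j < n → s j < s (j + 1) ∧ Φ (s j) ≤ s (j + 1) - s j) ∧
      ∀ i j, i < j → j ≤ n → mm (s j - s i) ≤ 4 * ((t : ℝ) + 1) * ε := by
    intro n
    induction n with
    | zero =>
      intro _
      exact ⟨fun _ => 0, rfl, fun j hj => absurd hj (Nat.not_lt_zero j), fun i j hij hj => by omega⟩
    | succ n ih =>
      intro hn
      obtain ⟨s, h0, h1, h2⟩ := ih (by omega)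
      have hmono : ∀ m, m ≤ n → s m ≤ s n := by
        intro m hm
        obtain ⟨d, rfl⟩ := Nat.exists_eq_add_of_le hm
        clear hm
        have hd : ∀ e, e ≤ d → s m ≤ s (m + e) := by
          intro e
          induction e with
          | zero => exact fun _ => le_rfl
          | succ e ihe =>
            intro he
            have h3 := ihe (by omega)
            have h4 := (h1 (m + e) (by omega)).1
            have h5 : s m < s (m + e + 1) := by omega
            exact h5.le
        exact hd d le_rfl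
      obtain ⟨a, ha1, haΦ, ha⟩ := choice_step mm hmm ε hε i₀ h t (Φ (s n)) (s n) n hn
        (fun m => s n - s m) (fun m _ => Nat.sub_le _ _)
      refine ⟨fun k => if k = n + 1 then s n + a else s k, ?_, ?_, ?_⟩
      · simp only
        rw [if_neg (by omega), h0]
      · intro j hj
        simp only
        by_cases hjn : j = n
        · subst hjn
          rw [if_neg (by omega), if_pos rfl]
          constructor
          · omega
          · rw [Nat.add_sub_cancel_left]
            exact haΦ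
        · rw [if_neg (by omega), if_neg (by omega)]
          exact h1 j (by omega)
      · intro i j hij hj
        simp only
        by_cases hjn : j = n + 1
        · subst hjn
          rw [if_pos rfl, if_neg (by omega)]
          have h3 := hmono i (by omega)
          have h4 := ha i (by omega)
          have h5 : s n + a - s i = a + (s n - s i) := by omega
          rw [h5]
          exact h4
        · rw [if_neg hjn, if_neg (by omega)]
          exact h2 i j hij (by omega)
  exact key t le_rfl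

end Pool.Agent.Lib.MP_90b327_co.NS
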