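import Mathlib

/-!
MODULE Cube (35 minutes, old scale). Text section 4: the convexity argument (independent of everything).

PROOF. `β ≥ 0` (integral of a non-negative function), `μ ≥ 0`. Let `n ≥ 1`, `Y = (1/n) ∑_{i<n} τ i`, `∫ Y = μ`. For `y ≥ 0`:
`y³ ≥ μ³ + 3 μ² (y - μ)` (`y³ - μ³ - 3μ²(y-μ) = (y-μ)² (y + 2μ)`); integrate: `μ³ ≤ ∫ Y³`. And
`n³ ∫ Y³ = ∑_{i,j,m<n} ∫ τ i τ j τ m ≤ n³ β + 3 n²`: the triples with `i, j, m` distinct contribute at most `β` each,
the others at most `1` each and there are at most `3 n²` of them (`i = j` or `i = m` or `j = m`). So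
`μ³ ≤ β + 3/n` for all `n ≥ 1`; let `n → ∞`.
(Bound for one triple: `∫ τ i τ j τ m ≤ β + [i=j] + [i=m] + [j=m]`, then sum.)
-/

set_option autoImplicit false

namespace Pool.Agent.Lib.MP_90b327_co.NS

open Finset MeasureTheory

theorem cube {Ω : Type} [MeasurableSpace Ω] (P : Measure Ω) [IsProbabilityMeasure P]
    (τ : ℕ → Ω → ℝ) (hm : ∀ i, Measurable (τ i)) (h0 : ∀ i ω, 0 ≤ τ i ω) (h1 : ∀ i ω, τ i ω ≤ 1)
    (μ β : ℝ) (hμ : ∀ i, ∫ ω, τ i ω ∂P = μ)
    (hβ : ∀ i j m, i ≠ j → i ≠ m → j ≠ m → ∫ ω, τ i ω * τ j ω * τ m ω ∂P ≤ β) : μ ^ 3 ≤ β := by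
  have hmeas3 : ∀ i j m, Measurable (fun ω => τ i ω * τ j ω * τ m ω) := fun i j m =>
    ((hm i).mul (hm j)).mul (hm m)
  have hb3 : ∀ i j m ω, τ i ω * τ j ω * τ m ω ≤ 1 := fun i j m ω =>
    mul_le_one₀ (mul_le_one₀ (h1 i ω) (h0 j ω) (h1 j ω)) (h0 m ω) (h1 m ω)
  have hn3 : ∀ i j m ω, 0 ≤ τ i ω * τ j ω * τ m ω := fun i j m ω =>
    mul_nonneg (mul_nonneg (h0 i ω) (h0 j ω)) (h0 m ω)
  have hint : ∀ i, Integrable (τ i) P := fun i =>
    Integrable.of_bound (hm i).aestronglyMeasurable 1
      (Filter.Eventually.of_forall fun ω => by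
        rw [Real.norm_of_nonneg (h0 i ω)]; exact h1 i ω)
  have hint3 : ∀ i j m, Integrable (fun ω => τ i ω * τ j ω * τ m ω) P := fun i j m =>
    Integrable.of_bound (hmeas3 i j m).aestronglyMeasurable 1
      (Filter.Eventually.of_forall fun ω => by
        rw [Real.norm_of_nonneg (hn3 i j m ω)]; exact hb3 i j m ω)
  have hβ0 : 0 ≤ β :=
    (integral_nonneg (hn3 0 1 2)).trans (hβ 0 1 2 (by norm_num) (by norm_num) (by norm_num))
  have htri : ∀ i j m, ∫ ω, τ i ω * τ j ω * τ m ω ∂P ≤
      β + (if i = j then 1 else 0) + (if i = m then 1 else 0) + (if j = m then 1 else 0) := by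
    intro i j m
    have hle1 : ∫ ω, τ i ω * τ j ω * τ m ω ∂P ≤ 1 := by
      have := integral_mono (hint3 i j m) (integrable_const (1 : ℝ)) (hb3 i j m)
      simpa using this
    by_cases hij : i = j
    · simp only [hij, if_true] at hle1 ⊢
      split_ifs <;> linarith
    · by_cases him : i = m
      · simp only [him, if_true] at hle1 ⊢
        split_ifs <;> linarith
      · by_cases hjm : j = m
        · simp only [hjm, if_true] at hle1 ⊢
          split_ifs <;> linarith
        · simp only [hij, him, hjm, if_false, add_zero]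
          exact hβ i j m hij him hjm
  have key : ∀ n : ℕ, 0 < n → μ ^ 3 ≤ β + 3 / n := by
    intro n hn
    have hn' : (0 : ℝ) < n := by exact_mod_cast hn
    have hS3 : ∀ ω, (∑ i ∈ range n, τ i ω) ^ 3
        = ∑ i ∈ range n, ∑ j ∈ range n, ∑ m ∈ range n, τ i ω * τ j ω * τ m ω := by
      intro ω
      rw [pow_succ, pow_two, Finset.sum_mul_sum, Finset.sum_mul]
      refine Finset.sum_congr rfl fun i _ => ?_
      rw [Finset.sum_mul]
      refine Finset.sum_congr rfl fun j _ => ?_
      rw [Finset.mul_sum]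
    have hSnn : ∀ ω, 0 ≤ ∑ i ∈ range n, τ i ω := fun ω =>
      Finset.sum_nonneg fun i _ => h0 i ω
    have hintS : Integrable (fun ω => ∑ i ∈ range n, τ i ω) P :=
      integrable_finsetSum _ fun i _ => hint i
    have hintS3 : Integrable (fun ω => ∑ i ∈ range n, ∑ j ∈ range n, ∑ m ∈ range n,
        τ i ω * τ j ω * τ m ω) P :=
      integrable_finsetSum _ fun i _ => integrable_finsetSum _ fun j _ =>
        integrable_finsetSum _ fun m _ => hint3 i j m
    have hmean : ∫ ω, ∑ i ∈ range n, τ i ω ∂P = n * μ := by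
      rw [integral_finsetSum _ fun i _ => hint i]
      simp [hμ]
    have hμ0 : 0 ≤ μ := by
      rw [← hμ 0]; exact integral_nonneg (h0 0)
    have hlow : (n * μ) ^ 3 ≤ ∫ ω, ∑ i ∈ range n, ∑ j ∈ range n, ∑ m ∈ range n,
        τ i ω * τ j ω * τ m ω ∂P := by
      have hpt : ∀ ω, (n * μ) ^ 3 + 3 * (n * μ) ^ 2 * ((∑ i ∈ range n, τ i ω) - n * μ) ≤
          ∑ i ∈ range n, ∑ j ∈ range n, ∑ m ∈ range n, τ i ω * τ j ω * τ m ω := by
        intro ω
        rw [← hS3 ω]
        have ha : 0 ≤ (n : ℝ) * μ := by positivity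
        have hs := hSnn ω
        nlinarith [mul_nonneg (sq_nonneg ((∑ i ∈ range n, τ i ω) - n * μ))
          (by linarith : (0 : ℝ) ≤ (∑ i ∈ range n, τ i ω) + 2 * (n * μ))]
      have hsub : Integrable (fun ω => (∑ i ∈ range n, τ i ω) - n * μ) P :=
        hintS.sub (integrable_const (n * μ))
      have hI : Integrable (fun ω => 3 * (n * μ) ^ 2 * ((∑ i ∈ range n, τ i ω) - n * μ)) P :=
        hsub.const_mul (3 * (n * μ) ^ 2)
      have hI2 : Integrable (fun ω => (n * μ) ^ 3 +
          3 * (n * μ) ^ 2 * ((∑ i ∈ range n, τ i ω) - n * μ)) P :=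
        (integrable_const ((n * μ) ^ 3)).add hI
      have h2 := integral_mono (μ := P) hI2 hintS3 hpt
      have h3 : ∫ ω, ((n * μ) ^ 3 + 3 * (n * μ) ^ 2 * ((∑ i ∈ range n, τ i ω) - n * μ)) ∂P
          = (n * μ) ^ 3 := by
        rw [integral_add (integrable_const _) hI,
          integral_const_mul, integral_sub hintS (integrable_const _), hmean]
        simp
      calc (n * μ) ^ 3 = ∫ ω, ((n * μ) ^ 3 + 3 * (n * μ) ^ 2 *
            ((∑ i ∈ range n, τ i ω) - n * μ)) ∂P := h3.symm
        _ ≤ _ := h2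
    have hup : ∫ ω, ∑ i ∈ range n, ∑ j ∈ range n, ∑ m ∈ range n,
        τ i ω * τ j ω * τ m ω ∂P ≤ n ^ 3 * β + 3 * n ^ 2 := by
      rw [integral_finsetSum _ fun i _ => integrable_finsetSum _ fun j _ =>
        integrable_finsetSum _ fun m _ => hint3 i j m]
      have e1 : ∀ i ∈ range n, ∫ ω, ∑ j ∈ range n, ∑ m ∈ range n,
          τ i ω * τ j ω * τ m ω ∂P ≤ ∑ j ∈ range n, ∑ m ∈ range n,
            (β + (if i = j then 1 else 0) + (if i = m then 1 else 0)
              + (if j = m then 1 else 0)) := by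
        intro i _
        rw [integral_finsetSum _ fun j _ => integrable_finsetSum _ fun m _ => hint3 i j m]
        refine Finset.sum_le_sum fun j _ => ?_
        rw [integral_finsetSum _ fun m _ => hint3 i j m]
        exact Finset.sum_le_sum fun m _ => htri i j m
      refine (Finset.sum_le_sum e1).trans (le_of_eq ?_)
      have e2 : ∀ i ∈ range n, ∑ j ∈ range n, ∑ m ∈ range n,
            (β + (if i = j then (1:ℝ) else 0) + (if i = m then 1 else 0)
              + (if j = m then 1 else 0)) = n ^ 2 * β + 3 * n := by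
        intro i hi
        have e3 : ∀ j ∈ range n, ∑ m ∈ range n,
            (β + (if i = j then (1:ℝ) else 0) + (if i = m then 1 else 0)
              + (if j = m then 1 else 0))
              = n * β + n * (if i = j then (1:ℝ) else 0) + 1 + 1 := by
          intro j hj
          rw [Finset.sum_add_distrib, Finset.sum_add_distrib, Finset.sum_add_distrib]
          rw [Finset.sum_ite_eq, Finset.sum_ite_eq, if_pos hi, if_pos hj]
          simp
        rw [Finset.sum_congr rfl e3]
        rw [Finset.sum_add_distrib, Finset.sum_add_distrib, Finset.sum_add_distrib,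
          ← Finset.mul_sum, ← Finset.mul_sum, Finset.sum_ite_eq, if_pos hi]
        simp only [Finset.sum_const, Finset.card_range, nsmul_eq_mul]
        ring
      rw [Finset.sum_congr rfl e2]
      simp only [Finset.sum_const, Finset.card_range, nsmul_eq_mul]
      ring
    have hfin : (n : ℝ) ^ 3 * μ ^ 3 ≤ n ^ 3 * β + 3 * n ^ 2 := by
      have := hlow.trans hup
      rwa [mul_pow] at this
    have : μ ^ 3 * n ^ 3 ≤ (β + 3 / n) * n ^ 3 := by
      have e : (β + 3 / n) * (n:ℝ) ^ 3 = n ^ 3 * β + 3 * n ^ 2 := by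
        field_simp
      rw [e]; linarith
    exact le_of_mul_le_mul_right this (by positivity)
  refine le_of_forall_pos_le_add fun ε hε => ?_
  obtain ⟨n, hn⟩ := exists_nat_gt (3 / ε)
  have hn0 : 0 < n := by
    have : (0 : ℝ) < n := lt_trans (by positivity) hn
    exact_mod_cast this
  have hn' : (0 : ℝ) < n := by exact_mod_cast hn0
  have h3 : 3 / (n : ℝ) ≤ ε := by
    rw [div_le_iff₀ hn']
    rw [div_lt_iff₀ hε] at hn
    linarith
  linarith [key n hn0]

end Pool.Agent.Lib.MP_90b327_co.NS
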