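import Mathlib
import Pool.Agent.Lib.MP_90b327_co.NS.NDefs
import Pool.Agent.Lib.MP_90b327_co.NS.AvA

/-!
MODULE ExchT (50 minutes, old scale). Text section 4: exchangeability for products of three values of `Tk`.

PROOF. Let `v 0 = range a`, `v 1 = Ico a (a+b)`, `v 2 = Ico (a+b) (a+b+c)` with `a, b, c` the cardinalities of `u 0`, `u 1`,
`u 2` (pairwise disjoint, same cardinalities).
(1) For all `K`: `∫ ∏ m, (‖Av k z_m‖² - ‖Av K z_m‖²)` is the same for `u` and `v` (`z_m = r.z ∅ (u m)` or `r.z ∅ (v m)`):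
`‖Av k z‖² - ‖Av K z‖² = ∑_{(p,q) ∈ range N ×ˢ range N} C p q * z^p * (conj z)^q` as a complex number (`N = max k K + 1`,
`C p q = [1 ≤ p ≤ k][1 ≤ q ≤ k]/k² - [1 ≤ p ≤ K][1 ≤ q ≤ K]/K²`), `conj z = r.z (u m) ∅ ω` (`Sp.herm`); the product over
`m : Fin 3` is a finite sum over `Fin 3 → ℕ × ℕ` (`Finset.prod_univ_sum`) of `(∏ C) * ∏ m, (z^(p m) * conj z ^(q m))`;
integrate term by term and use `T.exch`.
(2) `K → ∞`: `‖Av k z‖² - ‖Av K z‖² → ‖Av k z‖² - 1(z = 1) = Tk k z` (`av_tend`, `tk_eq`), everything bounded by `1`;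
dominated convergence on both sides and uniqueness of limits.
-/

set_option autoImplicit false

namespace Pool.Agent.Lib.MP_90b327_co.NS

open Finset MeasureTheory Filter Topology Pool.Agent.Lib.MP_90b327_co Pool.Agent.Lib.MP_90b327_co.RB

private theorem ext_poly (k : ℕ) (z : ℂ) : ((‖Av k z‖ ^ 2 : ℝ) : ℂ) =
    ∑ i : Fin k × Fin k, (1 / (k : ℂ) ^ 2) *
      (z ^ (i.1.1 + 1) * (starRingEnd ℂ) z ^ (i.2.1 + 1)) := by
  have h1 : ((‖Av k z‖ ^ 2 : ℝ) : ℂ) = Av k z * (starRingEnd ℂ) (Av k z) := by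
    rw [Complex.mul_conj, Complex.normSq_eq_norm_sq]
  have h2 : Av k z = (∑ b : Fin k, z ^ (b.1 + 1)) / k := by
    unfold Av
    rw [Finset.sum_range]
  rw [h1, h2, map_div₀, map_sum, map_natCast, Fintype.sum_prod_type]
  simp only [map_pow]
  rw [div_mul_div_comm, Finset.sum_mul_sum, div_eq_mul_inv, mul_comm, Finset.mul_sum]
  refine Finset.sum_congr rfl fun x _ => ?_
  rw [Finset.mul_sum]
  refine Finset.sum_congr rfl fun y _ => ?_
  ring

/-- expansion of a product of three sums of monomials -/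
private theorem ext_int (T : Dat) (w : Fin 3 → Finset ℕ) {ι : Type} [Fintype ι] (C : ι → ℂ)
    (P Q : ι → ℕ) :
    ∫ ω, ∏ m, (∑ i, C i * (T.r.z ∅ (w m) ω ^ P i * T.r.z (w m) ∅ ω ^ Q i)) ∂T.r.P =
      ∑ i : Fin 3 → ι, (∏ m, C (i m)) *
        ∫ ω, ∏ m, (T.r.z ∅ (w m) ω ^ P (i m) * T.r.z (w m) ∅ ω ^ Q (i m)) ∂T.r.P := by
  classical
  have h1 : ∀ ω, ∏ m, (∑ i, C i * (T.r.z ∅ (w m) ω ^ P i * T.r.z (w m) ∅ ω ^ Q i)) =
      ∑ i : Fin 3 → ι, (∏ m, C (i m)) *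
        ∏ m, (T.r.z ∅ (w m) ω ^ P (i m) * T.r.z (w m) ∅ ω ^ Q (i m)) := by
    intro ω
    rw [Finset.prod_univ_sum, Fintype.piFinset_univ]
    refine Finset.sum_congr rfl fun i _ => ?_
    rw [← Finset.prod_mul_distrib]
  rw [integral_congr_ae (Filter.Eventually.of_forall h1), integral_finsetSum]
  · refine Finset.sum_congr rfl fun i _ => ?_
    rw [integral_const_mul]
  · intro i _
    refine Integrable.const_mul ?_ _
    refine Integrable.of_bound (C := 1) ?_ (Filter.Eventually.of_forall fun ω => ?_)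
    · refine (Finset.measurable_prod _ fun m _ => ?_).aestronglyMeasurable
      exact ((T.r.meas _ _).pow_const _).mul ((T.r.meas _ _).pow_const _)
    · rw [norm_prod]
      refine Finset.prod_le_one (fun m _ => norm_nonneg _) fun m _ => ?_
      rw [norm_mul, norm_pow, norm_pow]
      exact mul_le_one₀ (pow_le_one₀ (norm_nonneg _) (T.r.norm_le _ _ _))
        (pow_nonneg (norm_nonneg _) _) (pow_le_one₀ (norm_nonneg _) (T.r.norm_le _ _ _))

private theorem ext_eq (T : Dat) (u v : Fin 3 → Finset ℕ)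
    (hu : ∀ k l, k ≠ l → Disjoint (u k) (u l)) (hv : ∀ k l, k ≠ l → Disjoint (v k) (v l))
    (huv : ∀ k, (u k).card = (v k).card) (k K : ℕ) :
    ∫ ω, ∏ m, (‖Av k (T.r.z ∅ (u m) ω)‖ ^ 2 - ‖Av K (T.r.z ∅ (u m) ω)‖ ^ 2) ∂T.r.P =
      ∫ ω, ∏ m, (‖Av k (T.r.z ∅ (v m) ω)‖ ^ 2 - ‖Av K (T.r.z ∅ (v m) ω)‖ ^ 2) ∂T.r.P := by
  classical
  set C : (Fin k × Fin k) ⊕ (Fin K × Fin K) → ℂ :=
    Sum.elim (fun _ => 1 / (k : ℂ) ^ 2) (fun _ => - (1 / (K : ℂ) ^ 2)) with hC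
  set P : (Fin k × Fin k) ⊕ (Fin K × Fin K) → ℕ :=
    Sum.elim (fun i => i.1.1 + 1) (fun i => i.1.1 + 1) with hP
  set Q : (Fin k × Fin k) ⊕ (Fin K × Fin K) → ℕ :=
    Sum.elim (fun i => i.2.1 + 1) (fun i => i.2.1 + 1) with hQ
  have key : ∀ w : Finset ℕ, ∀ ω, ((‖Av k (T.r.z ∅ w ω)‖ ^ 2 - ‖Av K (T.r.z ∅ w ω)‖ ^ 2 : ℝ) : ℂ) =
      ∑ i, C i * (T.r.z ∅ w ω ^ P i * T.r.z w ∅ ω ^ Q i) := by
    intro w ω
    rw [Complex.ofReal_sub, ext_poly, ext_poly, Fintype.sum_sum_type, T.r.herm ∅ w ω,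
      sub_eq_add_neg, ← Finset.sum_neg_distrib]
    simp only [hC, hP, hQ, Sum.elim_inl, Sum.elim_inr, neg_mul]
  have key2 : ∀ w : Fin 3 → Finset ℕ,
      ((∫ ω, ∏ m, (‖Av k (T.r.z ∅ (w m) ω)‖ ^ 2 - ‖Av K (T.r.z ∅ (w m) ω)‖ ^ 2) ∂T.r.P : ℝ) : ℂ) =
      ∑ i : Fin 3 → (Fin k × Fin k) ⊕ (Fin K × Fin K), (∏ m, C (i m)) *
        ∫ ω, ∏ m, (T.r.z ∅ (w m) ω ^ P (i m) * T.r.z (w m) ∅ ω ^ Q (i m)) ∂T.r.P := by
    intro w
    rw [← ext_int]
    refine (integral_ofReal (𝕜 := ℂ)).symm.trans ?_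
    refine integral_congr_ae (Filter.Eventually.of_forall fun ω => ?_)
    show ((∏ m, (‖Av k (T.r.z ∅ (w m) ω)‖ ^ 2 - ‖Av K (T.r.z ∅ (w m) ω)‖ ^ 2) : ℝ) : ℂ) = _
    rw [Complex.ofReal_prod]
    exact Finset.prod_congr rfl fun m _ => key (w m) ω
  apply Complex.ofReal_injective
  rw [key2 u, key2 v]
  refine Finset.sum_congr rfl fun i _ => ?_
  rw [T.exch u v hu hv huv]

private theorem ext_lim (T : Dat) (w : Fin 3 → Finset ℕ) (k : ℕ) (hk : 1 ≤ k) :
    Tendsto (fun K : ℕ =>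
      ∫ ω, ∏ m, (‖Av k (T.r.z ∅ (w m) ω)‖ ^ 2 - ‖Av K (T.r.z ∅ (w m) ω)‖ ^ 2) ∂T.r.P) atTop
      (𝓝 (∫ ω, ∏ m, Tk k (T.r.z ∅ (w m) ω) ∂T.r.P)) := by
  have hm : ∀ K m, Measurable fun ω => ‖Av K (T.r.z ∅ (w m) ω)‖ ^ 2 := fun K m =>
    ((((av_cont K).measurable).comp (T.r.meas _ _)).norm).pow_const 2
  have h01 : ∀ K m ω, 0 ≤ ‖Av K (T.r.z ∅ (w m) ω)‖ ^ 2 ∧ ‖Av K (T.r.z ∅ (w m) ω)‖ ^ 2 ≤ 1 :=
    fun K m ω => ⟨by positivity, pow_le_one₀ (norm_nonneg _) (av_norm _ _ (T.r.norm_le _ _ _))⟩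
  refine tendsto_integral_of_dominated_convergence (fun _ => (1 : ℝ)) (fun K => ?_)
    (integrable_const _) (fun K => Filter.Eventually.of_forall fun ω => ?_)
    (Filter.Eventually.of_forall fun ω => ?_)
  · exact (Finset.measurable_prod _ fun m _ => (hm k m).sub (hm K m)).aestronglyMeasurable
  · rw [norm_prod]
    refine Finset.prod_le_one (fun m _ => norm_nonneg _) fun m _ => ?_
    obtain ⟨a1, a2⟩ := h01 k m ω
    obtain ⟨b1, b2⟩ := h01 K m ω
    rw [Real.norm_eq_abs, abs_le]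
    constructor <;> linarith
  · refine tendsto_finsetProd _ fun m _ => ?_
    rw [tk_eq k hk]
    refine Tendsto.const_sub _ ?_
    have h := ((av_tend (T.r.z ∅ (w m) ω) (T.r.norm_le _ _ _)).norm).pow 2
    have h2 : ‖(if T.r.z ∅ (w m) ω = 1 then (1 : ℂ) else 0)‖ ^ 2 =
        if T.r.z ∅ (w m) ω = 1 then (1 : ℝ) else 0 := by
      split_ifs <;> simp
    rw [h2] at h
    exact h

theorem e3_eq (T : Dat) (u : Fin 3 → Finset ℕ) (hu : ∀ k l, k ≠ l → Disjoint (u k) (u l))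
    (k : ℕ) (hk : 1 ≤ k) :
    ∫ ω, Tk k (T.r.z ∅ (u 0) ω) * Tk k (T.r.z ∅ (u 1) ω) * Tk k (T.r.z ∅ (u 2) ω) ∂T.r.P =
      e3 T k (u 0).card (u 1).card (u 2).card := by
  classical
  set a := (u 0).card with ha
  set b := (u 1).card with hb
  set c := (u 2).card with hc
  set v : Fin 3 → Finset ℕ := ![Finset.range a, Finset.Ico a (a + b),
    Finset.Ico (a + b) (a + b + c)] with hv
  have hvd : ∀ k l, k ≠ l → Disjoint (v k) (v l) := by
    have d01 : Disjoint (Finset.range a) (Finset.Ico a (a + b)) := by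
      rw [Finset.disjoint_left]
      intro x hx hy
      rw [Finset.mem_range] at hx
      rw [Finset.mem_Ico] at hy
      omega
    have d02 : Disjoint (Finset.range a) (Finset.Ico (a + b) (a + b + c)) := by
      rw [Finset.disjoint_left]
      intro x hx hy
      rw [Finset.mem_range] at hx
      rw [Finset.mem_Ico] at hy
      omega
    have d12 : Disjoint (Finset.Ico a (a + b)) (Finset.Ico (a + b) (a + b + c)) := by
      rw [Finset.disjoint_left]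
      intro x hx hy
      rw [Finset.mem_Ico] at hx hy
      omega
    intro i j hij
    fin_cases i <;> fin_cases j
    · exact absurd rfl hij
    · exact d01
    · exact d02
    · exact d01.symm
    · exact absurd rfl hij
    · exact d12
    · exact d02.symm
    · exact d12.symm
    · exact absurd rfl hij
  have huv : ∀ k, (u k).card = (v k).card := by
    intro i
    fin_cases i
    · show (u 0).card = (Finset.range a).card
      rw [Finset.card_range]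
    · show (u 1).card = (Finset.Ico a (a + b)).card
      rw [Nat.card_Ico]
      omega
    · show (u 2).card = (Finset.Ico (a + b) (a + b + c)).card
      rw [Nat.card_Ico]
      omega
  have h1 := ext_lim T u k hk
  have h2 := ext_lim T v k hk
  have h3 := tendsto_nhds_unique h1 (h2.congr fun K => (ext_eq T u v hu hvd huv k K).symm)
  simp only [Fin.prod_univ_three] at h3
  exact h3

end Pool.Agent.Lib.MP_90b327_co.NS
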