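import Mathlib
import Pool.Agent.Lib.MP_90b327_co.NS.NDefs
import Pool.Agent.Lib.MP_90b327_co.NS.AvA

/-!
MODULE Triple (45 minutes, old scale). Text section 4: the pointwise inequality.

PROOF. `z_i = s.z ∅ s_i ω`, `conj z_i = s.z s_i ∅ ω`, `u = Av k z₁ * Av k z₂ * Av k z₃` (`‖u‖ ≤ 1`), `r'' = s.z s₁ s₃ ω`,
`r' = s.z (s₁ ∪ s₂) s₃ ω`.
(1) `‖(z_i - 1) u‖ ≤ 2/k` (`av_sub`), `‖u‖² (1 - ‖z_i‖²) ≤ 2 ‖u‖ ‖(1 - z_i) u‖ ≤ 4/k` (`1 - ‖z‖² ≤ 2 (1 - ‖z‖) ≤ 2 ‖1 - z‖`).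
(2) `s.gram s₁ ∅ ∅ s₃`: `‖r'' - conj z₁ z₃‖² ≤ 1 - ‖z₁‖²`, so `‖(r'' - conj z₁ z₃) u‖ ≤ sqrt (4/k) = 2/sqrt k` and
    `‖(r'' - 1) u‖ ≤ 2/sqrt k + ‖(conj z₁ - 1) u‖ + ‖(z₃ - 1) u‖ ≤ 2/sqrt k + 4/k ≤ 6/sqrt k`
    (`‖(conj z - 1) u‖ = ‖(z - 1) u‖`, `1/k ≤ 1/sqrt k`).
(3) `s.gram s₁ s₃ s₂ ∅`: `‖r' - r'' conj z₂‖ ≤ sqrt (1 - ‖r''‖²) sqrt (1 - ‖z₂‖²)`. Hence `‖(r' - 1) u‖ ≤ 2/sqrt k +
    ‖(r'' - 1) u‖ + ‖(conj z₂ - 1) u‖ ≤ 10/sqrt k`; and if `r'' = 1` and `r' = 1` then `conj z₂ = 1`, `z₂ = 1`.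
(4) for `r = r', r''`: if `r ≠ 1`: `‖u‖² ≤ 2 ‖(1 - Av k' r) u‖² + 2 ‖Av k' r‖² ‖u‖² ≤ 2 (k' ‖(r - 1) u‖)² + 2 Tk k' r
    ≤ 200 k'² / k + 2 Tk k' r` (`av_close`).
(5) if `z₂ = 1` the left side is `0` (`Tk k 1 = 0`). If `z₂ ≠ 1` then `r' ≠ 1` or `r'' ≠ 1`, and the left side is at most
    `‖u‖²` (`tk_le`), so at most `200 k'²/k + 2 Tk k' r` for that `r`; all terms on the right are `≥ 0`.
-/

set_option autoImplicit false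

namespace Pool.Agent.Lib.MP_90b327_co.NS

open Finset MeasureTheory Pool.Agent.Lib.MP_90b327_co Pool.Agent.Lib.MP_90b327_co.RB

/-- one factor of the product `u` -/
private theorem triple_fac (k : ℕ) (hk : 1 ≤ k) (z u w : ℂ) (hz : ‖z‖ ≤ 1) (hu : u = Av k z * w)
    (hw : ‖w‖ ≤ 1) (e : ℝ) (he : e ^ 2 = 1 / k) (he0 : 0 < e) (he1 : e ≤ 1) :
    ‖(z - 1) * u‖ ≤ 2 * e ∧ Real.sqrt (1 - ‖z‖ ^ 2) * ‖u‖ ≤ 2 * e := by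
  have hk0 : (0 : ℝ) < k := by exact_mod_cast hk
  have h1 := av_sub k hk z hz
  have h2 : ‖(z - 1) * u‖ ≤ 2 * e ^ 2 := by
    rw [hu, ← mul_assoc, norm_mul, he]
    calc ‖(z - 1) * Av k z‖ * ‖w‖ ≤ (2 / k) * 1 :=
          mul_le_mul h1 hw (norm_nonneg _) (by positivity)
      _ = 2 * (1 / k) := by ring
  have hu1 : ‖u‖ ≤ 1 := by
    rw [hu, norm_mul]
    exact mul_le_one₀ (av_norm k z hz) (norm_nonneg _) hw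
  refine ⟨h2.trans (by nlinarith), ?_⟩
  have hz0 := norm_nonneg z
  have hu0 := norm_nonneg u
  have h3 : 1 - ‖z‖ ≤ ‖z - 1‖ := by
    have h4 := norm_sub_norm_le (1 : ℂ) z
    rw [norm_one, norm_sub_rev] at h4
    exact h4
  have h5 : (1 - ‖z‖ ^ 2) * ‖u‖ ^ 2 ≤ (2 * e) ^ 2 := by
    rw [norm_mul] at h2
    have h6 : (1 - ‖z‖ ^ 2) ≤ 2 * ‖z - 1‖ := by nlinarith
    have h7 : (1 - ‖z‖ ^ 2) * ‖u‖ ≤ 2 * (‖z - 1‖ * ‖u‖) := by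
      have := mul_le_mul_of_nonneg_right h6 hu0
      linarith
    have h8 : (1 - ‖z‖ ^ 2) * ‖u‖ ≤ 4 * e ^ 2 := by linarith
    have h9 : (1 - ‖z‖ ^ 2) * ‖u‖ * ‖u‖ ≤ 4 * e ^ 2 * ‖u‖ := mul_le_mul_of_nonneg_right h8 hu0
    have h10 : 4 * e ^ 2 * ‖u‖ ≤ 4 * e ^ 2 * 1 := mul_le_mul_of_nonneg_left hu1 (by positivity)
    calc (1 - ‖z‖ ^ 2) * ‖u‖ ^ 2 = (1 - ‖z‖ ^ 2) * ‖u‖ * ‖u‖ := by ring
      _ ≤ 4 * e ^ 2 * 1 := h9.trans h10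
      _ = (2 * e) ^ 2 := by ring
  have h11 : 0 ≤ 1 - ‖z‖ ^ 2 := by nlinarith
  refine le_of_sq_le_sq ?_ (by positivity)
  rw [mul_pow, Real.sq_sqrt h11]
  exact h5

private theorem triple_fin (k k' : ℕ) (hk' : 1 ≤ k') (r u : ℂ) (hr : ‖r‖ ≤ 1)
    (hu : ‖u‖ ≤ 1) (e : ℝ) (he : e ^ 2 = 1 / k) (h : ‖(r - 1) * u‖ ≤ 10 * e)
    (hr1 : r ≠ 1) : ‖u‖ ^ 2 ≤ 200 * (k' : ℝ) ^ 2 / k + 2 * Tk k' r := by
  have hu0 := norm_nonneg u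
  have h1 := av_close k' hk' r hr
  have h2 : Tk k' r = ‖Av k' r‖ ^ 2 := by
    unfold Tk
    rw [if_neg hr1]
  rw [h2]
  have h3 : ‖u‖ ≤ ‖(Av k' r - 1) * u‖ + ‖Av k' r‖ * ‖u‖ := by
    calc ‖u‖ = ‖Av k' r * u - (Av k' r - 1) * u‖ := by
          congr 1
          ring
      _ ≤ ‖Av k' r * u‖ + ‖(Av k' r - 1) * u‖ := norm_sub_le _ _
      _ = ‖(Av k' r - 1) * u‖ + ‖Av k' r‖ * ‖u‖ := by
          rw [norm_mul (Av k' r) u]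
          ring
  have h4 : ‖(Av k' r - 1) * u‖ ≤ k' * (10 * e) := by
    rw [norm_mul]
    rw [norm_mul] at h
    calc ‖Av k' r - 1‖ * ‖u‖ ≤ (k' * ‖r - 1‖) * ‖u‖ := mul_le_mul_of_nonneg_right h1 hu0
      _ = k' * (‖r - 1‖ * ‖u‖) := by ring
      _ ≤ k' * (10 * e) := mul_le_mul_of_nonneg_left h (Nat.cast_nonneg _)
  have h5 : ‖Av k' r‖ * ‖u‖ ≤ ‖Av k' r‖ := mul_le_of_le_one_right (norm_nonneg _) hu
  have h6 : ‖u‖ ≤ k' * (10 * e) + ‖Av k' r‖ := by linarith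
  have h7 : ‖u‖ ^ 2 ≤ (k' * (10 * e) + ‖Av k' r‖) ^ 2 := pow_le_pow_left₀ hu0 h6 2
  have h8 : (k' * (10 * e)) ^ 2 = 100 * (k' : ℝ) ^ 2 / k := by
    have : (k' * (10 * e)) ^ 2 = 100 * (k' : ℝ) ^ 2 * e ^ 2 := by ring
    rw [this, he]
    ring
  have h9 : (k' * (10 * e) + ‖Av k' r‖) ^ 2 ≤ 2 * (k' * (10 * e)) ^ 2 + 2 * ‖Av k' r‖ ^ 2 := by
    nlinarith [sq_nonneg (k' * (10 * e) - ‖Av k' r‖)]
  rw [h8] at h9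
  have h10 : 2 * (100 * (k' : ℝ) ^ 2 / k) = 200 * (k' : ℝ) ^ 2 / k := by ring
  linarith

theorem triple_point (s : Sp) (ω : s.Ω) (s₁ s₂ s₃ : Finset ℕ) (h12 : Disjoint s₁ s₂)
    (h13 : Disjoint s₁ s₃) (h23 : Disjoint s₂ s₃) (k k' : ℕ) (hk : 1 ≤ k) (hk' : 1 ≤ k') :
    Tk k (s.z ∅ s₁ ω) * Tk k (s.z ∅ s₂ ω) * Tk k (s.z ∅ s₃ ω) ≤
      400 * (k' : ℝ) ^ 2 / k + 2 * Tk k' (s.z s₁ s₃ ω) + 2 * Tk k' (s.z (s₁ ∪ s₂) s₃ ω) := by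
  have hk0 : (0 : ℝ) < k := by exact_mod_cast hk
  have hk1 : (1 : ℝ) ≤ k := by exact_mod_cast hk
  obtain ⟨e, he'⟩ : ∃ e : ℝ, e = 1 / Real.sqrt k := ⟨_, rfl⟩
  have hsq0 : 0 < Real.sqrt k := Real.sqrt_pos.2 hk0
  have he : e ^ 2 = 1 / k := by
    rw [he', div_pow, Real.sq_sqrt hk0.le, one_pow]
  have he0 : 0 < e := by rw [he']; positivity
  have he1 : e ≤ 1 := by
    rw [he', div_le_one hsq0]
    exact Real.one_le_sqrt.2 hk1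
  obtain ⟨z₁, hz₁⟩ : ∃ z, z = s.z ∅ s₁ ω := ⟨_, rfl⟩
  obtain ⟨z₂, hz₂⟩ : ∃ z, z = s.z ∅ s₂ ω := ⟨_, rfl⟩
  obtain ⟨z₃, hz₃⟩ : ∃ z, z = s.z ∅ s₃ ω := ⟨_, rfl⟩
  obtain ⟨r'', hr''⟩ : ∃ z, z = s.z s₁ s₃ ω := ⟨_, rfl⟩
  obtain ⟨r', hr'⟩ : ∃ z, z = s.z (s₁ ∪ s₂) s₃ ω := ⟨_, rfl⟩
  have n1 : ‖z₁‖ ≤ 1 := by rw [hz₁]; exact s.norm_le _ _ _
  have n2 : ‖z₂‖ ≤ 1 := by rw [hz₂]; exact s.norm_le _ _ _
  have n3 : ‖z₃‖ ≤ 1 := by rw [hz₃]; exact s.norm_le _ _ _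
  have nr'' : ‖r''‖ ≤ 1 := by rw [hr'']; exact s.norm_le _ _ _
  have nr' : ‖r'‖ ≤ 1 := by rw [hr']; exact s.norm_le _ _ _
  have c1 : s.z s₁ ∅ ω = (starRingEnd ℂ) z₁ := by rw [hz₁]; exact s.herm _ _ _
  have c2 : s.z s₂ ∅ ω = (starRingEnd ℂ) z₂ := by rw [hz₂]; exact s.herm _ _ _
  have g1 := s.gram s₁ ∅ ∅ s₃ ω (by rw [union_empty, empty_union]; exact h13)
  rw [union_empty, empty_union, c1, ← hz₃, ← hr'', RCLike.norm_conj] at g1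
  have g2 := s.gram s₁ s₃ s₂ ∅ ω (by
    rw [union_empty, disjoint_union_left]
    exact ⟨h12, h23.symm⟩)
  rw [union_empty, c2, ← hr', ← hr'', RCLike.norm_conj] at g2
  rw [← hz₁, ← hz₂, ← hz₃, ← hr'', ← hr']
  obtain ⟨u, hu⟩ : ∃ u, u = Av k z₁ * Av k z₂ * Av k z₃ := ⟨_, rfl⟩
  have a1 := av_norm k z₁ n1
  have a2 := av_norm k z₂ n2
  have a3 := av_norm k z₃ n3
  have m12 : ‖Av k z₁ * Av k z₂‖ ≤ 1 := by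
    rw [norm_mul]; exact mul_le_one₀ a1 (norm_nonneg _) a2
  have m13 : ‖Av k z₁ * Av k z₃‖ ≤ 1 := by
    rw [norm_mul]; exact mul_le_one₀ a1 (norm_nonneg _) a3
  have m23 : ‖Av k z₂ * Av k z₃‖ ≤ 1 := by
    rw [norm_mul]; exact mul_le_one₀ a2 (norm_nonneg _) a3
  obtain ⟨d1, q1⟩ := triple_fac k hk z₁ u (Av k z₂ * Av k z₃) n1 (by rw [hu]; ring) m23 e he he0 he1
  obtain ⟨d2, q2⟩ := triple_fac k hk z₂ u (Av k z₁ * Av k z₃) n2 (by rw [hu]; ring) m13 e he he0 he1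
  obtain ⟨d3, q3⟩ := triple_fac k hk z₃ u (Av k z₁ * Av k z₂) n3 (by rw [hu]; ring) m12 e he he0 he1
  have hu1 : ‖u‖ ≤ 1 := by
    rw [hu, norm_mul]
    exact mul_le_one₀ m12 (norm_nonneg _) a3
  have hconj : ∀ z : ℂ, ‖((starRingEnd ℂ) z - 1) * u‖ = ‖(z - 1) * u‖ := by
    intro z
    rw [norm_mul, norm_mul]
    congr 1
    rw [← RCLike.norm_conj (z - 1), map_sub, map_one]
  have s1 : ∀ x : ℂ, Real.sqrt (1 - ‖x‖ ^ 2) ≤ 1 := by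
    intro x
    rw [Real.sqrt_le_iff]
    refine ⟨zero_le_one, ?_⟩
    nlinarith [norm_nonneg x]
  -- (2)
  have b1 : ‖(r'' - 1) * u‖ ≤ 6 * e := by
    have e1 : (r'' - 1) * u = (r'' - (starRingEnd ℂ) z₁ * z₃) * u +
        z₃ * (((starRingEnd ℂ) z₁ - 1) * u) + (z₃ - 1) * u := by ring
    have e2 : ‖(r'' - (starRingEnd ℂ) z₁ * z₃) * u‖ ≤ 2 * e := by
      rw [norm_mul]
      calc ‖r'' - (starRingEnd ℂ) z₁ * z₃‖ * ‖u‖ ≤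
            (Real.sqrt (1 - ‖z₁‖ ^ 2) * 1) * ‖u‖ := by
            refine mul_le_mul_of_nonneg_right (g1.trans ?_) (norm_nonneg _)
            exact mul_le_mul_of_nonneg_left (s1 z₃) (Real.sqrt_nonneg _)
        _ = Real.sqrt (1 - ‖z₁‖ ^ 2) * ‖u‖ := by rw [mul_one]
        _ ≤ 2 * e := q1
    have e3 : ‖z₃ * (((starRingEnd ℂ) z₁ - 1) * u)‖ ≤ 2 * e := by
      rw [norm_mul, hconj]
      calc ‖z₃‖ * ‖(z₁ - 1) * u‖ ≤ 1 * ‖(z₁ - 1) * u‖ :=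
            mul_le_mul_of_nonneg_right n3 (norm_nonneg _)
        _ ≤ 2 * e := by rw [one_mul]; exact d1
    rw [e1]
    calc ‖(r'' - (starRingEnd ℂ) z₁ * z₃) * u + z₃ * (((starRingEnd ℂ) z₁ - 1) * u) +
          (z₃ - 1) * u‖ ≤ ‖(r'' - (starRingEnd ℂ) z₁ * z₃) * u‖ +
          ‖z₃ * (((starRingEnd ℂ) z₁ - 1) * u)‖ + ‖(z₃ - 1) * u‖ := norm_add₃_le
      _ ≤ 6 * e := by linarith
  have b2 : ‖(r' - 1) * u‖ ≤ 10 * e := by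
    have e1 : (r' - 1) * u = (r' - r'' * (starRingEnd ℂ) z₂) * u +
        r'' * (((starRingEnd ℂ) z₂ - 1) * u) + (r'' - 1) * u := by ring
    have e2 : ‖(r' - r'' * (starRingEnd ℂ) z₂) * u‖ ≤ 2 * e := by
      rw [norm_mul]
      calc ‖r' - r'' * (starRingEnd ℂ) z₂‖ * ‖u‖ ≤
            (1 * Real.sqrt (1 - ‖z₂‖ ^ 2)) * ‖u‖ := by
            refine mul_le_mul_of_nonneg_right (g2.trans ?_) (norm_nonneg _)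
            exact mul_le_mul_of_nonneg_right (s1 r'') (Real.sqrt_nonneg _)
        _ = Real.sqrt (1 - ‖z₂‖ ^ 2) * ‖u‖ := by rw [one_mul]
        _ ≤ 2 * e := q2
    have e3 : ‖r'' * (((starRingEnd ℂ) z₂ - 1) * u)‖ ≤ 2 * e := by
      rw [norm_mul, hconj]
      calc ‖r''‖ * ‖(z₂ - 1) * u‖ ≤ 1 * ‖(z₂ - 1) * u‖ :=
            mul_le_mul_of_nonneg_right nr'' (norm_nonneg _)
        _ ≤ 2 * e := by rw [one_mul]; exact d2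
    rw [e1]
    calc ‖(r' - r'' * (starRingEnd ℂ) z₂) * u + r'' * (((starRingEnd ℂ) z₂ - 1) * u) +
          (r'' - 1) * u‖ ≤ ‖(r' - r'' * (starRingEnd ℂ) z₂) * u‖ +
          ‖r'' * (((starRingEnd ℂ) z₂ - 1) * u)‖ + ‖(r'' - 1) * u‖ := norm_add₃_le
      _ ≤ 10 * e := by linarith
  have t1 := tk_nonneg k' r'
  have t2 := tk_nonneg k' r''
  have hpos : 0 ≤ 200 * (k' : ℝ) ^ 2 / k := by positivity
  have h400 : 400 * (k' : ℝ) ^ 2 / k = 2 * (200 * (k' : ℝ) ^ 2 / k) := by ring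
  rw [h400]
  by_cases hz21 : z₂ = 1
  · have h0 : Tk k z₂ = 0 := by
      unfold Tk
      rw [if_pos hz21]
    rw [h0, mul_zero, zero_mul]
    linarith
  · have hL : Tk k z₁ * Tk k z₂ * Tk k z₃ ≤ ‖u‖ ^ 2 := by
      rw [hu, norm_mul, norm_mul, mul_pow, mul_pow]
      refine mul_le_mul (mul_le_mul (tk_le k z₁) (tk_le k z₂) (tk_nonneg _ _) (by positivity))
        (tk_le k z₃) (tk_nonneg _ _) (by positivity)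
    by_cases h1 : r'' = 1
    · have h2 : r' ≠ 1 := by
        intro h2
        rw [h1, h2, norm_one, one_pow, sub_self, Real.sqrt_zero, zero_mul, one_mul] at g2
        have h3 : (1 : ℂ) - (starRingEnd ℂ) z₂ = 0 := norm_le_zero_iff.1 g2
        apply hz21
        have h4 : (starRingEnd ℂ) z₂ = 1 := (sub_eq_zero.1 h3).symm
        have h5 := congrArg (starRingEnd ℂ) h4
        rwa [Complex.conj_conj, map_one] at h5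
      have h3 := triple_fin k k' hk' r' u nr' hu1 e he b2 h2
      linarith
    · have h3 := triple_fin k k' hk' r'' u nr'' hu1 e he (b1.trans (by linarith)) h1
      linarith

end Pool.Agent.Lib.MP_90b327_co.NS
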