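import Mathlib
import Pool.Agent.Lib.MP_90b327_co.NS.NDefs
import Pool.Agent.Lib.MP_90b327_co.NS.AvA

/-!
MODULE PsiA (40 minutes, old scale). Text section 3: `E |Av k z|^2` in terms of the moments.

PROOFS. `nn_sum_r`: `‖Av k z‖² = (1/k²) ∑_{b,b'<k} Re (z^(b+1) * conj z ^(b'+1))` and `conj (r.z x y ω) =
r.z y x ω` (`Sp.herm`); integrate the finite sum (bounded measurable functions on a probability space) and
use `T.mom x y hxy (b+1) (b'+1)`. `nn_sum_c`: the same with `T.mom'`. `nn_eq`: `nn_sum_r` twice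
(`range a` and `Ico a (a + a')` are disjoint with `a`, `a'` elements).
`psi_c`: insert `nn_sum_r` in the definition of `Psi`, exchange sums, `nn_sum_c` (rename `a`, `a'`).
-/

set_option autoImplicit false

namespace Pool.Agent.Lib.MP_90b327_co.NS

open Finset MeasureTheory Pool.Agent.Lib.MP_90b327_co Pool.Agent.Lib.MP_90b327_co.RB

private theorem PsiA_sq (k : ℕ) (z w : ℂ) (hw : w = (starRingEnd ℂ) z) : ‖Av k z‖ ^ 2 =
    (∑ b ∈ range k, ∑ b' ∈ range k, (z ^ (b + 1) * w ^ (b' + 1)).re) / (k : ℝ) ^ 2 := by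
  unfold Av
  rw [norm_div, div_pow, Complex.norm_natCast]
  congr 1
  have h1 : (starRingEnd ℂ) (∑ b ∈ range k, z ^ (b + 1)) = ∑ b ∈ range k, w ^ (b + 1) := by
    rw [map_sum]
    exact Finset.sum_congr rfl fun b _ => by rw [map_pow, hw]
  have h2 : (∑ b ∈ range k, z ^ (b + 1)) * (∑ b ∈ range k, w ^ (b + 1)) =
      ((‖∑ b ∈ range k, z ^ (b + 1)‖ ^ 2 : ℝ) : ℂ) := by
    rw [← h1, Complex.mul_conj, ← Complex.sq_norm]
  have h3 := congrArg Complex.re h2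
  rw [Complex.ofReal_re, Finset.sum_mul_sum, Complex.re_sum] at h3
  rw [← h3]
  exact Finset.sum_congr rfl fun b _ => Complex.re_sum _ _

private theorem PsiA_int (s : Sp) (x y : Finset ℕ) (k : ℕ) :
    ∫ ω, ‖Av k (s.z x y ω)‖ ^ 2 ∂s.P =
      (∑ b ∈ range k, ∑ b' ∈ range k,
        (∫ ω, s.z x y ω ^ (b + 1) * s.z y x ω ^ (b' + 1) ∂s.P).re) / (k : ℝ) ^ 2 := by
  have hint : ∀ b b' : ℕ, Integrable (fun ω => s.z x y ω ^ (b + 1) * s.z y x ω ^ (b' + 1)) s.P := by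
    intro b b'
    refine Integrable.of_bound (((s.meas x y).pow_const _).mul
      ((s.meas y x).pow_const _)).aestronglyMeasurable 1 (Filter.Eventually.of_forall fun ω => ?_)
    rw [norm_mul, norm_pow, norm_pow]
    exact mul_le_one₀ (pow_le_one₀ (norm_nonneg _) (s.norm_le x y ω)) (by positivity)
      (pow_le_one₀ (norm_nonneg _) (s.norm_le y x ω))
  have h1 : (fun ω => ‖Av k (s.z x y ω)‖ ^ 2) = fun ω =>
      (∑ b ∈ range k, ∑ b' ∈ range k,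
        (s.z x y ω ^ (b + 1) * s.z y x ω ^ (b' + 1)).re) / (k : ℝ) ^ 2 := by
    funext ω
    exact PsiA_sq k _ _ (s.herm x y ω)
  have hre : ∀ b b' : ℕ, ∫ ω, (s.z x y ω ^ (b + 1) * s.z y x ω ^ (b' + 1)).re ∂s.P =
      (∫ ω, s.z x y ω ^ (b + 1) * s.z y x ω ^ (b' + 1) ∂s.P).re := by
    intro b b'
    exact Complex.reCLM.integral_comp_comm (hint b b')
  have hintre : ∀ b b' : ℕ,
      Integrable (fun ω => (s.z x y ω ^ (b + 1) * s.z y x ω ^ (b' + 1)).re) s.P :=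
    fun b b' => (hint b b').re
  rw [h1, integral_div, integral_finsetSum _ fun b _ =>
    integrable_finsetSum _ fun b' _ => hintre b b']
  congr 1
  refine Finset.sum_congr rfl fun b _ => ?_
  rw [integral_finsetSum _ fun b' _ => hintre b b']
  exact Finset.sum_congr rfl fun b' _ => hre b b'

theorem nn_sum_r (T : Dat) (x y : Finset ℕ) (hxy : Disjoint x y) (k : ℕ) :
    ∫ ω, ‖Av k (T.r.z x y ω)‖ ^ 2 ∂T.r.P =
      (∑ b ∈ range k, ∑ b' ∈ range k, (T.W (b + 1) (b' + 1) y.card x.card).re) / (k : ℝ) ^ 2 := by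
  rw [PsiA_int]
  simp only [T.mom x y hxy]

theorem nn_sum_c (T : Dat) (x y : Finset ℕ) (hxy : Disjoint x y) (l : ℕ) :
    ∫ ω, ‖Av l (T.c.z x y ω)‖ ^ 2 ∂T.c.P =
      (∑ a ∈ range l, ∑ a' ∈ range l, (T.W y.card x.card (a + 1) (a' + 1)).re) / (l : ℝ) ^ 2 := by
  rw [PsiA_int]
  simp only [T.mom' x y hxy]

private theorem PsiA_disj (a b : ℕ) : Disjoint (range a) (Ico a (a + b)) := by
  rw [Finset.disjoint_left]
  intro i hi hj
  rw [mem_range] at hi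
  rw [mem_Ico] at hj
  omega

theorem nn_eq (T : Dat) (x y : Finset ℕ) (hxy : Disjoint x y) (k : ℕ) :
    ∫ ω, ‖Av k (T.r.z x y ω)‖ ^ 2 ∂T.r.P = nn T k x.card y.card := by
  unfold nn
  rw [nn_sum_r T x y hxy, nn_sum_r T _ _ (PsiA_disj _ _), card_range, Nat.card_Ico,
    Nat.add_sub_cancel_left]

private theorem PsiA_comm (l k : ℕ) (f : ℕ → ℕ → ℕ → ℕ → ℝ) :
    ∑ a ∈ range l, ∑ a' ∈ range l, ∑ b ∈ range k, ∑ b' ∈ range k, f b b' a' a =
      ∑ b ∈ range k, ∑ b' ∈ range k, ∑ a ∈ range l, ∑ a' ∈ range l, f b b' a a' := by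
  have h3 : ∀ (g : ℕ → ℕ → ℕ → ℝ), ∑ a ∈ range l, ∑ a' ∈ range l, ∑ b ∈ range k, g a a' b =
      ∑ b ∈ range k, ∑ a ∈ range l, ∑ a' ∈ range l, g a a' b := by
    intro g
    rw [Finset.sum_comm (s := range k)]
    refine Finset.sum_congr rfl fun a _ => ?_
    rw [Finset.sum_comm]
  rw [h3]
  refine Finset.sum_congr rfl fun b _ => ?_
  rw [h3]
  refine Finset.sum_congr rfl fun b' _ => ?_
  rw [Finset.sum_comm]

theorem psi_c (T : Dat) (l k : ℕ) :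
    Psi T l k = (∑ b ∈ range k, ∑ b' ∈ range k,
      ∫ ω, ‖Av l (T.c.z (range (b' + 1)) (Ico (b' + 1) (b' + 1 + (b + 1))) ω)‖ ^ 2 ∂T.c.P) /
        (k : ℝ) ^ 2 := by
  unfold Psi nn
  have h1 : ∀ a a' : ℕ, ∫ ω, ‖Av k (T.r.z (range (a + 1)) (Ico (a + 1) (a + 1 + (a' + 1))) ω)‖ ^ 2
      ∂T.r.P = (∑ b ∈ range k, ∑ b' ∈ range k, (T.W (b + 1) (b' + 1) (a' + 1) (a + 1)).re) /
        (k : ℝ) ^ 2 := by
    intro a a'
    rw [nn_sum_r T _ _ (PsiA_disj _ _), card_range, Nat.card_Ico, Nat.add_sub_cancel_left]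
  have h2 : ∀ b b' : ℕ, ∫ ω, ‖Av l (T.c.z (range (b' + 1)) (Ico (b' + 1) (b' + 1 + (b + 1))) ω)‖ ^ 2
      ∂T.c.P = (∑ a ∈ range l, ∑ a' ∈ range l, (T.W (b + 1) (b' + 1) (a + 1) (a' + 1)).re) /
        (l : ℝ) ^ 2 := by
    intro b b'
    rw [nn_sum_c T _ _ (PsiA_disj _ _), card_range, Nat.card_Ico, Nat.add_sub_cancel_left]
  simp only [h1, h2, ← Finset.sum_div]
  rw [PsiA_comm l k (fun b b' a a' => (T.W (b + 1) (b' + 1) (a + 1) (a' + 1)).re),
    div_div, div_div, mul_comm]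

end Pool.Agent.Lib.MP_90b327_co.NS
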