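import Mathlib
import Pool.Agent.Lib.MP_90b327_co.NS.NDefs
import Pool.Agent.Lib.MP_90b327_co.NS.AvA
import Pool.Agent.Lib.MP_90b327_co.NS.PsiA

/-!
MODULE PsiB (25 minutes, old scale). Text section 3: monotonicity of `Psi`.

PROOFS. `nn_mono`: `av_mono` pointwise, integrate. `psi_k`: from `nn_mono`. `psi_l`: `psi_c` and `av_mono` for the
variables `T.c.z`. `psi_nonneg`: integrals of squares. `psi_pow`: iterate (`2^(i+1) = 2 * 2^i`).
-/

set_option autoImplicit false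

namespace Pool.Agent.Lib.MP_90b327_co.NS

open Finset MeasureTheory Pool.Agent.Lib.MP_90b327_co Pool.Agent.Lib.MP_90b327_co.RB

private theorem PsiB_int (s : Sp) (x y : Finset ℕ) (k : ℕ) :
    Integrable (fun ω => ‖Av k (s.z x y ω)‖ ^ 2) s.P := by
  refine Integrable.of_bound ?_ 1 (Filter.Eventually.of_forall fun ω => ?_)
  · exact (((av_cont k).measurable.comp (s.meas x y)).norm.pow_const 2).aestronglyMeasurable
  · rw [Real.norm_of_nonneg (sq_nonneg _)]
    exact pow_le_one₀ (norm_nonneg _) (av_norm k _ (s.norm_le x y ω))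

private theorem PsiB_mono (s : Sp) (x y : Finset ℕ) (k : ℕ) :
    ∫ ω, ‖Av (2 * k) (s.z x y ω)‖ ^ 2 ∂s.P ≤ ∫ ω, ‖Av k (s.z x y ω)‖ ^ 2 ∂s.P := by
  refine integral_mono (PsiB_int s x y (2 * k)) (PsiB_int s x y k) fun ω => ?_
  exact pow_le_pow_left₀ (norm_nonneg _) (av_mono k _ (s.norm_le x y ω)) 2

theorem nn_mono (T : Dat) (k a a' : ℕ) : nn T (2 * k) a a' ≤ nn T k a a' := by
  unfold nn
  exact PsiB_mono T.r _ _ k

theorem psi_nonneg (T : Dat) (l k : ℕ) : 0 ≤ Psi T l k := by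
  unfold Psi
  refine div_nonneg (sum_nonneg fun a _ => sum_nonneg fun a' _ => ?_) (sq_nonneg _)
  unfold nn
  exact integral_nonneg fun ω => sq_nonneg _

theorem psi_k (T : Dat) (l k : ℕ) : Psi T l (2 * k) ≤ Psi T l k := by
  unfold Psi
  refine div_le_div_of_nonneg_right ?_ (sq_nonneg _)
  exact sum_le_sum fun a _ => sum_le_sum fun a' _ => nn_mono T k (a + 1) (a' + 1)

theorem psi_l (T : Dat) (l k : ℕ) : Psi T (2 * l) k ≤ Psi T l k := by
  rw [psi_c, psi_c]
  refine div_le_div_of_nonneg_right ?_ (sq_nonneg _)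
  exact sum_le_sum fun b _ => sum_le_sum fun b' _ => PsiB_mono T.c _ _ l

private theorem PsiB_i (T : Dat) (i i' j : ℕ) (hi : i ≤ i') :
    Psi T (2 ^ i') (2 ^ j) ≤ Psi T (2 ^ i) (2 ^ j) := by
  induction i', hi using Nat.le_induction with
  | base => exact le_rfl
  | succ n _ ih =>
    rw [pow_succ']
    exact (psi_l T (2 ^ n) (2 ^ j)).trans ih

private theorem PsiB_j (T : Dat) (i j j' : ℕ) (hj : j ≤ j') :
    Psi T (2 ^ i) (2 ^ j') ≤ Psi T (2 ^ i) (2 ^ j) := by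
  induction j', hj using Nat.le_induction with
  | base => exact le_rfl
  | succ n _ ih =>
    rw [pow_succ']
    exact (psi_k T (2 ^ i) (2 ^ n)).trans ih

theorem psi_pow (T : Dat) (i i' j j' : ℕ) (hi : i ≤ i') (hj : j ≤ j') :
    Psi T (2 ^ i') (2 ^ j') ≤ Psi T (2 ^ i) (2 ^ j) :=
  (PsiB_i T i i' j' hi).trans (PsiB_j T i j j' hj)

end Pool.Agent.Lib.MP_90b327_co.NS
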