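import Mathlib
import Pool.Agent.Lib.MP_90b327_co.NS.NDefs
import Pool.Agent.Lib.MP_90b327_co.NS.AvA
import Pool.Agent.Lib.MP_90b327_co.NS.PsiA
import Pool.Agent.Lib.MP_90b327_co.NS.PsiB

/-!
MODULE TwoS (40 minutes, old scale). Text (3.1).

PROOFS.
`tt_lim`: `Tk k z = ‖Av k z‖² - 1(z = 1)` (`tk_eq`) and `‖Av (2^j) z‖² → 1(z = 1)` (`av_tend` composed with
`2^j → ∞`), bounded by `1`: `tendsto_integral_of_dominated_convergence`; `nn_eq` identifies the integrals.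
`tt_eq`: uniqueness of limits (`tt_lim` for `x, y` and for the canonical sets of the same sizes).
`two_sided`: `Ψ∞ := ⨅ i, Psi T (2^i) (2^i) ≥ 0`; choose `i₀` with `Psi T (2^i₀) (2^i₀) ≤ Ψ∞ + ε`. Let `i, j ≥ i₀`. For all
`j'`: with `m = max i j'`, `Psi T (2^i) (2^j') ≥ Psi T (2^m) (2^m) ≥ Ψ∞` (`psi_pow`), and `Psi T (2^i) (2^j) ≤
Psi T (2^i₀) (2^i₀) ≤ Ψ∞ + ε`. So `Psi T (2^i) (2^j) - Psi T (2^i) (2^j') ≤ ε`, that is `∑∑ (nn T (2^j) (a+1) (a'+1) -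
nn T (2^j') (a+1) (a'+1)) ≤ ε (2^i)²`; let `j' → ∞` (`tt_lim`, finite sum, `le_of_tendsto`).
-/

set_option autoImplicit false

namespace Pool.Agent.Lib.MP_90b327_co.NS

open Finset MeasureTheory Filter Topology Pool.Agent.Lib.MP_90b327_co Pool.Agent.Lib.MP_90b327_co.RB

private theorem twoS_pow : Tendsto (fun j : ℕ => 2 ^ j) atTop (atTop : Filter ℕ) :=
  tendsto_pow_atTop_atTop_of_one_lt (by norm_num)

private theorem twoS_meas (s : Sp) (x y : Finset ℕ) (k : ℕ) :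
    Measurable (fun ω => ‖Av k (s.z x y ω)‖ ^ 2) :=
  (((av_cont k).measurable.comp (s.meas x y)).norm).pow_const 2

private theorem twoS_bd (s : Sp) (x y : Finset ℕ) (k : ℕ) (ω : s.Ω) :
    ‖Av k (s.z x y ω)‖ ^ 2 ≤ 1 :=
  pow_le_one₀ (norm_nonneg _) (av_norm k _ (s.norm_le x y ω))

private theorem twoS_int (s : Sp) (x y : Finset ℕ) (k : ℕ) :
    Integrable (fun ω => ‖Av k (s.z x y ω)‖ ^ 2) s.P := by
  refine Integrable.of_bound (twoS_meas s x y k).aestronglyMeasurable 1 ?_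
  refine Eventually.of_forall fun ω => ?_
  rw [Real.norm_eq_abs, abs_of_nonneg (by positivity)]
  exact twoS_bd s x y k ω

theorem tt_lim (T : Dat) (x y : Finset ℕ) (hxy : Disjoint x y) (k : ℕ) (hk : 1 ≤ k) :
    Tendsto (fun j : ℕ => nn T k x.card y.card - nn T (2 ^ j) x.card y.card) atTop
      (𝓝 (∫ ω, Tk k (T.r.z x y ω) ∂T.r.P)) := by
  have h1 : Tendsto (fun j : ℕ => ∫ ω, (‖Av k (T.r.z x y ω)‖ ^ 2 -
      ‖Av (2 ^ j) (T.r.z x y ω)‖ ^ 2) ∂T.r.P) atTop (𝓝 (∫ ω, Tk k (T.r.z x y ω) ∂T.r.P)) := by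
    refine tendsto_integral_of_dominated_convergence (fun _ => (2 : ℝ)) ?_ ?_ ?_ ?_
    · intro j
      exact ((twoS_meas T.r x y k).sub (twoS_meas T.r x y (2 ^ j))).aestronglyMeasurable
    · exact integrable_const _
    · intro j
      refine Eventually.of_forall fun ω => ?_
      have h2 := twoS_bd T.r x y k ω
      have h3 := twoS_bd T.r x y (2 ^ j) ω
      have h4 : 0 ≤ ‖Av k (T.r.z x y ω)‖ ^ 2 := by positivity
      have h5 : 0 ≤ ‖Av (2 ^ j) (T.r.z x y ω)‖ ^ 2 := by positivity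
      rw [Real.norm_eq_abs, abs_le]
      constructor <;> linarith
    · refine Eventually.of_forall fun ω => ?_
      rw [tk_eq k hk]
      have h2 := (av_tend (T.r.z x y ω) (T.r.norm_le x y ω)).comp twoS_pow
      have h3 := (h2.norm).pow 2
      have h4 : ‖(if T.r.z x y ω = 1 then (1 : ℂ) else 0)‖ ^ 2 =
          if T.r.z x y ω = 1 then (1 : ℝ) else 0 := by
        split_ifs <;> simp
      rw [h4] at h3
      exact tendsto_const_nhds.sub h3
  refine h1.congr fun j => ?_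
  rw [integral_sub (twoS_int T.r x y k) (twoS_int T.r x y (2 ^ j)), nn_eq T x y hxy,
    nn_eq T x y hxy]

private theorem twoS_card (a a' : ℕ) : Disjoint (range a) (Ico a (a + a')) := by
  rw [Finset.disjoint_left]
  intro v hv hv'
  rw [Finset.mem_range] at hv
  rw [Finset.mem_Ico] at hv'
  omega

theorem tt_eq (T : Dat) (x y : Finset ℕ) (hxy : Disjoint x y) (k : ℕ) (hk : 1 ≤ k) :
    ∫ ω, Tk k (T.r.z x y ω) ∂T.r.P = tt T k x.card y.card := by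
  have h1 := tt_lim T x y hxy k hk
  have h2 := tt_lim T (range x.card) (Ico x.card (x.card + y.card)) (twoS_card _ _) k hk
  have h3 : (Ico x.card (x.card + y.card)).card = y.card := by
    rw [Nat.card_Ico]
    omega
  rw [card_range, h3] at h2
  exact tendsto_nhds_unique h1 h2

theorem tt_nonneg (T : Dat) (k a a' : ℕ) : 0 ≤ tt T k a a' := by
  unfold tt
  exact integral_nonneg fun ω => tk_nonneg k _

private theorem twoS_lim (T : Dat) (k : ℕ) (hk : 1 ≤ k) (a a' : ℕ) :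
    Tendsto (fun j : ℕ => nn T k a a' - nn T (2 ^ j) a a') atTop (𝓝 (tt T k a a')) := by
  have h2 := tt_lim T (range a) (Ico a (a + a')) (twoS_card _ _) k hk
  have h3 : (Ico a (a + a')).card = a' := by
    rw [Nat.card_Ico]
    omega
  rw [card_range, h3] at h2
  exact h2

theorem two_sided (T : Dat) (ε : ℝ) (hε : 0 < ε) : ∃ i₀ : ℕ, ∀ i, i₀ ≤ i → ∀ j, i₀ ≤ j →
    ∑ a ∈ range (2 ^ i), ∑ a' ∈ range (2 ^ i), tt T (2 ^ j) (a + 1) (a' + 1) ≤
      ε * ((2 : ℝ) ^ i) ^ 2 := by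
  have hbdd : BddBelow (Set.range fun i : ℕ => Psi T (2 ^ i) (2 ^ i)) := by
    refine ⟨0, ?_⟩
    rintro _ ⟨i, rfl⟩
    exact psi_nonneg T _ _
  obtain ⟨i₀, hi₀⟩ : ∃ i₀ : ℕ, Psi T (2 ^ i₀) (2 ^ i₀) < (⨅ i : ℕ, Psi T (2 ^ i) (2 ^ i)) + ε :=
    exists_lt_of_ciInf_lt (lt_add_of_pos_right _ hε)
  refine ⟨i₀, fun i hi j hj => ?_⟩
  have hpos : (0 : ℝ) < ((2 : ℝ) ^ i) ^ 2 := by positivity
  have key : ∀ j' : ℕ, ∑ a ∈ range (2 ^ i), ∑ a' ∈ range (2 ^ i),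
      (nn T (2 ^ j) (a + 1) (a' + 1) - nn T (2 ^ j') (a + 1) (a' + 1)) ≤
        ε * ((2 : ℝ) ^ i) ^ 2 := by
    intro j'
    have h1 : (⨅ i : ℕ, Psi T (2 ^ i) (2 ^ i)) ≤ Psi T (2 ^ i) (2 ^ j') :=
      (ciInf_le hbdd (max i j')).trans (psi_pow T i (max i j') j' (max i j')
        (le_max_left _ _) (le_max_right _ _))
    have h2 : Psi T (2 ^ i) (2 ^ j) ≤ Psi T (2 ^ i₀) (2 ^ i₀) := psi_pow T i₀ i i₀ j hi hj
    have h3 : Psi T (2 ^ i) (2 ^ j) - Psi T (2 ^ i) (2 ^ j') ≤ ε := by linarith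
    unfold Psi at h3
    rw [← sub_div] at h3
    push_cast at h3
    rw [div_le_iff₀ hpos, ← Finset.sum_sub_distrib] at h3
    simp only [← Finset.sum_sub_distrib] at h3
    exact h3
  have hlim : Tendsto (fun j' : ℕ => ∑ a ∈ range (2 ^ i), ∑ a' ∈ range (2 ^ i),
      (nn T (2 ^ j) (a + 1) (a' + 1) - nn T (2 ^ j') (a + 1) (a' + 1))) atTop
      (𝓝 (∑ a ∈ range (2 ^ i), ∑ a' ∈ range (2 ^ i), tt T (2 ^ j) (a + 1) (a' + 1))) := by
    refine tendsto_finset_sum _ fun a _ => tendsto_finset_sum _ fun a' _ => ?_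
    exact twoS_lim T (2 ^ j) (Nat.one_le_two_pow) (a + 1) (a' + 1)
  exact le_of_tendsto' hlim key

end Pool.Agent.Lib.MP_90b327_co.NS
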