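import Mathlib
import Pool.Agent.Lib.MP_90b327_co.NS.NDefs
import Pool.Agent.Lib.MP_90b327_co.NS.AvA
import Pool.Agent.Lib.MP_90b327_co.NS.TwoS
import Pool.Agent.Lib.MP_90b327_co.NS.Triple

/-!
MODULE TripAvg (40 minutes, old scale). Text section 4: average of the pointwise inequality.

PROOF. `e3_le`: integrate `triple_point` with `s₁ = range a`, `s₂ = Ico a (a+b)`, `s₃ = Ico (a+b) (a+b+c)`
(`tt_eq` for `(s₁, s₃)`: sizes `a`, `c`; for `(s₁ ∪ s₂, s₃)`: sizes `a + b`, `c`; all functions are bounded and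
measurable).
`trip_avg`: sum over `a, b, c < 2^i` (arguments `a + 1`, `b + 1`, `c + 1`): the first term gives
`(400 k'²/k) (2^i)³`; the second `2 * 2^i * ∑_{a,c} tt T k' (a+1) (c+1) ≤ 2 ε (2^i)³`; the third: for fixed `b` the
map `a ↦ a + b + 1` is injective from `range (2^i)` to `range (2^(i+1))`, `tt ≥ 0`, so
`∑_a ∑_c tt T k' (a + 1 + (b + 1)) (c + 1) ≤ ∑_{v < 2^(i+1)} ∑_{c < 2^(i+1)} tt T k' (v + 1) (c + 1) ≤ ε (2^(i+1))² =
4 ε (2^i)²`; sum over `b`, factor `2`: `8 ε (2^i)³`.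
-/

set_option autoImplicit false

namespace Pool.Agent.Lib.MP_90b327_co.NS

open Finset MeasureTheory Pool.Agent.Lib.MP_90b327_co Pool.Agent.Lib.MP_90b327_co.RB

private theorem TripAvg_int (s : Sp) (k : ℕ) (x y : Finset ℕ) :
    Integrable (fun ω => Tk k (s.z x y ω)) s.P := by
  refine Integrable.of_bound ((tk_meas k).comp (s.meas x y)).aestronglyMeasurable 1 ?_
  refine Filter.Eventually.of_forall fun ω => ?_
  rw [Real.norm_of_nonneg (tk_nonneg _ _)]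
  exact tk_le_one _ _ (s.norm_le _ _ _)

private theorem TripAvg_int3 (s : Sp) (k : ℕ) (x y x' y' x'' y'' : Finset ℕ) :
    Integrable (fun ω => Tk k (s.z x y ω) * Tk k (s.z x' y' ω) * Tk k (s.z x'' y'' ω)) s.P := by
  have hm : ∀ x y : Finset ℕ, Measurable fun ω => Tk k (s.z x y ω) := fun x y =>
    (tk_meas k).comp (s.meas x y)
  refine Integrable.of_bound (((hm x y).mul (hm x' y')).mul (hm x'' y'')).aestronglyMeasurable 1 ?_
  refine Filter.Eventually.of_forall fun ω => ?_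
  have h0 : ∀ x y : Finset ℕ, 0 ≤ Tk k (s.z x y ω) := fun x y => tk_nonneg _ _
  have h1 : ∀ x y : Finset ℕ, Tk k (s.z x y ω) ≤ 1 := fun x y => tk_le_one _ _ (s.norm_le _ _ _)
  rw [Real.norm_of_nonneg (mul_nonneg (mul_nonneg (h0 _ _) (h0 _ _)) (h0 _ _))]
  exact mul_le_one₀ (mul_le_one₀ (h1 _ _) (h0 _ _) (h1 _ _)) (h0 _ _) (h1 _ _)

theorem e3_le (T : Dat) (a b c k k' : ℕ) (hk : 1 ≤ k) (hk' : 1 ≤ k') :
    e3 T k a b c ≤ 400 * (k' : ℝ) ^ 2 / k + 2 * tt T k' a c + 2 * tt T k' (a + b) c := by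
  have h12 : Disjoint (range a) (Ico a (a + b)) := by
    rw [disjoint_left]
    intro v hv hv'
    rw [mem_range] at hv
    rw [mem_Ico] at hv'
    omega
  have h13 : Disjoint (range a) (Ico (a + b) (a + b + c)) := by
    rw [disjoint_left]
    intro v hv hv'
    rw [mem_range] at hv
    rw [mem_Ico] at hv'
    omega
  have h23 : Disjoint (Ico a (a + b)) (Ico (a + b) (a + b + c)) := by
    rw [disjoint_left]
    intro v hv hv'
    rw [mem_Ico] at hv hv'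
    omega
  have c1 : (range a).card = a := card_range a
  have c3 : (Ico (a + b) (a + b + c)).card = c := by
    rw [Nat.card_Ico]
    omega
  have c12 : (range a ∪ Ico a (a + b)).card = a + b := by
    rw [card_union_of_disjoint h12, c1, Nat.card_Ico]
    omega
  have e1 := tt_eq T (range a) (Ico (a + b) (a + b + c)) h13 k' hk'
  have e2 := tt_eq T (range a ∪ Ico a (a + b)) (Ico (a + b) (a + b + c))
    (disjoint_union_left.2 ⟨h13, h23⟩) k' hk'
  rw [c1, c3] at e1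
  rw [c12, c3] at e2
  have hI1 := TripAvg_int T.r k' (range a) (Ico (a + b) (a + b + c))
  have hI2 := TripAvg_int T.r k' (range a ∪ Ico a (a + b)) (Ico (a + b) (a + b + c))
  have hmono : e3 T k a b c ≤ ∫ ω, (400 * (k' : ℝ) ^ 2 / k +
      2 * Tk k' (T.r.z (range a) (Ico (a + b) (a + b + c)) ω) +
      2 * Tk k' (T.r.z (range a ∪ Ico a (a + b)) (Ico (a + b) (a + b + c)) ω)) ∂T.r.P := by
    unfold e3
    refine integral_mono (TripAvg_int3 T.r k _ _ _ _ _ _)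
      (((integrable_const _).add (hI1.const_mul 2)).add (hI2.const_mul 2)) ?_
    intro ω
    exact triple_point T.r ω (range a) (Ico a (a + b)) (Ico (a + b) (a + b + c)) h12 h13 h23 k k'
      hk hk'
  refine hmono.trans (le_of_eq ?_)
  have i1 : Integrable (fun ω => 400 * (k' : ℝ) ^ 2 / k +
      2 * Tk k' (T.r.z (range a) (Ico (a + b) (a + b + c)) ω)) T.r.P :=
    (integrable_const _).add (hI1.const_mul 2)
  have i2 : Integrable (fun ω =>
      2 * Tk k' (T.r.z (range a ∪ Ico a (a + b)) (Ico (a + b) (a + b + c)) ω)) T.r.P :=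
    hI2.const_mul 2
  rw [integral_add i1 i2, integral_add (integrable_const _) (hI1.const_mul 2),
    integral_const_mul, integral_const_mul, e1, e2]
  simp

theorem trip_avg (T : Dat) (k k' i : ℕ) (hk : 1 ≤ k) (hk' : 1 ≤ k') (ε : ℝ)
    (h1 : ∑ a ∈ range (2 ^ i), ∑ a' ∈ range (2 ^ i), tt T k' (a + 1) (a' + 1) ≤
      ε * ((2 : ℝ) ^ i) ^ 2)
    (h2 : ∑ a ∈ range (2 ^ (i + 1)), ∑ a' ∈ range (2 ^ (i + 1)), tt T k' (a + 1) (a' + 1) ≤
      ε * ((2 : ℝ) ^ (i + 1)) ^ 2) :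
    ∑ a ∈ range (2 ^ i), ∑ b ∈ range (2 ^ i), ∑ c ∈ range (2 ^ i), e3 T k (a + 1) (b + 1) (c + 1) ≤
      (400 * (k' : ℝ) ^ 2 / k + 10 * ε) * ((2 : ℝ) ^ i) ^ 3 := by
  have h2' : ∑ a ∈ range (2 * 2 ^ i), ∑ a' ∈ range (2 * 2 ^ i), tt T k' (a + 1) (a' + 1) ≤
      ε * (2 * (2 : ℝ) ^ i) ^ 2 := by
    have e1 : 2 ^ (i + 1) = 2 * 2 ^ i := by ring
    have e2 : (2 : ℝ) ^ (i + 1) = 2 * 2 ^ i := by ring
    rw [e1, e2] at h2
    exact h2
  have hlr : ((2 ^ i : ℕ) : ℝ) = (2 : ℝ) ^ i := by push_cast; rfl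
  generalize (2 : ℝ) ^ i = L at h1 h2' hlr ⊢
  generalize hl : 2 ^ i = l at h1 h2' hlr ⊢
  subst hlr
  set C : ℝ := 400 * (k' : ℝ) ^ 2 / k with hC
  have htt : ∀ a c, 0 ≤ tt T k' a c := fun a c => tt_nonneg T k' a c
  have step : ∑ a ∈ range l, ∑ b ∈ range l, ∑ c ∈ range l, e3 T k (a + 1) (b + 1) (c + 1) ≤
      ∑ a ∈ range l, ∑ b ∈ range l, ∑ c ∈ range l, (C + 2 * tt T k' (a + 1) (c + 1) +
        2 * tt T k' (a + 1 + (b + 1)) (c + 1)) :=
    sum_le_sum fun a _ => sum_le_sum fun b _ => sum_le_sum fun c _ =>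
      e3_le T (a + 1) (b + 1) (c + 1) k k' hk hk'
  have split : ∑ a ∈ range l, ∑ b ∈ range l, ∑ c ∈ range l, (C + 2 * tt T k' (a + 1) (c + 1) +
        2 * tt T k' (a + 1 + (b + 1)) (c + 1)) =
      (l : ℝ) ^ 3 * C + 2 * (l * ∑ a ∈ range l, ∑ c ∈ range l, tt T k' (a + 1) (c + 1)) +
        2 * ∑ b ∈ range l, ∑ a ∈ range l, ∑ c ∈ range l, tt T k' (a + 1 + (b + 1)) (c + 1) := by
    simp only [sum_add_distrib, sum_const, card_range, nsmul_eq_mul, ← mul_sum]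
    rw [sum_comm (s := range l) (t := range l)
      (f := fun a b => ∑ c ∈ range l, tt T k' (a + 1 + (b + 1)) (c + 1))]
    ring
  have third : ∀ b ∈ range l, ∑ a ∈ range l, ∑ c ∈ range l, tt T k' (a + 1 + (b + 1)) (c + 1) ≤
      4 * ε * (l : ℝ) ^ 2 := by
    intro b hb
    rw [mem_range] at hb
    have t1 : ∀ a ∈ range l, ∑ c ∈ range l, tt T k' (a + 1 + (b + 1)) (c + 1) ≤
        ∑ c ∈ range (2 * l), tt T k' (b + 1 + a + 1) (c + 1) := by
      intro a _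
      have e1 : a + 1 + (b + 1) = b + 1 + a + 1 := by ring
      rw [e1]
      exact sum_le_sum_of_subset_of_nonneg (range_mono (by omega)) fun c _ _ => htt _ _
    have t2 : ∑ a ∈ range l, ∑ c ∈ range (2 * l), tt T k' (b + 1 + a + 1) (c + 1) =
        ∑ v ∈ Ico (b + 1) (b + 1 + l), ∑ c ∈ range (2 * l), tt T k' (v + 1) (c + 1) := by
      rw [sum_Ico_eq_sum_range, Nat.add_sub_cancel_left]
    have t3 : ∑ v ∈ Ico (b + 1) (b + 1 + l), ∑ c ∈ range (2 * l), tt T k' (v + 1) (c + 1) ≤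
        ∑ v ∈ range (2 * l), ∑ c ∈ range (2 * l), tt T k' (v + 1) (c + 1) := by
      refine sum_le_sum_of_subset_of_nonneg ?_ fun v _ _ => sum_nonneg fun c _ => htt _ _
      intro v hv
      rw [mem_Ico] at hv
      rw [mem_range]
      omega
    calc _ ≤ _ := sum_le_sum t1
      _ = _ := t2
      _ ≤ _ := t3
      _ ≤ _ := h2'
      _ = _ := by ring
  have third' : ∑ b ∈ range l, ∑ a ∈ range l, ∑ c ∈ range l, tt T k' (a + 1 + (b + 1)) (c + 1) ≤
      (l : ℝ) * (4 * ε * (l : ℝ) ^ 2) := by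
    refine (sum_le_sum third).trans ?_
    rw [sum_const, card_range, nsmul_eq_mul]
  have second := mul_le_mul_of_nonneg_left h1 (Nat.cast_nonneg (α := ℝ) l)
  calc _ ≤ _ := step
    _ = _ := split
    _ ≤ (l : ℝ) ^ 3 * C + 2 * (l * (ε * (l : ℝ) ^ 2)) + 2 * ((l : ℝ) * (4 * ε * (l : ℝ) ^ 2)) := by
        linarith
    _ = _ := by ring

end Pool.Agent.Lib.MP_90b327_co.NS
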