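import Mathlib
import Pool.Agent.Lib.MP_90b327_co.NS.NDefs
import Pool.Agent.Lib.MP_90b327_co.NS.AvA
import Pool.Agent.Lib.MP_90b327_co.NS.TwoS
import Pool.Agent.Lib.MP_90b327_co.NS.TripAvg
import Pool.Agent.Lib.MP_90b327_co.NS.ExchT
import Pool.Agent.Lib.MP_90b327_co.NS.Cube

/-!
MODULE Crit (40 minutes, old scale). Text section 4: the CRITICAL MASS LEMMA (assembly).

PROOF. `ε₁ = ε³/20`; `i₀` from `two_sided T ε₁`; `k' = 2^i₀`; `k ≥ max (max k₀ 1) (800 k'²/ε³)`, so `400 k'²/k ≤ ε³/2`.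
Let `i ≥ i₀`, `l = 2^i`. `τ m ω = (∑_{a<l} Tk k (T.r.z ∅ (Ico (m l) (m l + (a + 1))) ω)) / l`, in `[0, 1]`, measurable.
`∫ τ m = (∑_{a<l} tt T k 0 (a + 1)) / l =: μ` (`tt_eq` with `x = ∅`).
For distinct `m₁, m₂, m₃`: `∫ τ m₁ τ m₂ τ m₃ = (1/l³) ∑_{a,b,c<l} e3 T k (a+1) (b+1) (c+1)` (`e3_eq`; the blocks
`Ico (m l) (m l + a + 1) ⊆ Ico (m l) ((m+1) l)` are pairwise disjoint) `≤ 400 k'²/k + 10 ε₁ ≤ ε³` (`trip_avg`, with
`two_sided` at `i` and `i + 1`, `j = i₀`). `cube`: `μ³ ≤ ε³`, so `μ ≤ ε`.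
-/

set_option autoImplicit false

namespace Pool.Agent.Lib.MP_90b327_co.NS

open Finset MeasureTheory Pool.Agent.Lib.MP_90b327_co Pool.Agent.Lib.MP_90b327_co.RB

private theorem Crit_meas (s : Sp) (k : ℕ) (x y : Finset ℕ) :
    Measurable fun ω => Tk k (s.z x y ω) := (tk_meas k).comp (s.meas x y)

private theorem Crit_int (s : Sp) (k : ℕ) (x y : Finset ℕ) :
    Integrable (fun ω => Tk k (s.z x y ω)) s.P := by
  refine Integrable.of_bound (Crit_meas s k x y).aestronglyMeasurable 1 ?_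
  refine Filter.Eventually.of_forall fun ω => ?_
  rw [Real.norm_of_nonneg (tk_nonneg _ _)]
  exact tk_le_one _ _ (s.norm_le _ _ _)

private theorem Crit_int3 (s : Sp) (k : ℕ) (x y x' y' x'' y'' : Finset ℕ) :
    Integrable (fun ω => Tk k (s.z x y ω) * Tk k (s.z x' y' ω) * Tk k (s.z x'' y'' ω)) s.P := by
  refine Integrable.of_bound (((Crit_meas s k x y).mul (Crit_meas s k x' y')).mul
    (Crit_meas s k x'' y'')).aestronglyMeasurable 1 ?_
  refine Filter.Eventually.of_forall fun ω => ?_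
  have h0 : ∀ x y : Finset ℕ, 0 ≤ Tk k (s.z x y ω) := fun x y => tk_nonneg _ _
  have h1 : ∀ x y : Finset ℕ, Tk k (s.z x y ω) ≤ 1 := fun x y => tk_le_one _ _ (s.norm_le _ _ _)
  rw [Real.norm_of_nonneg (mul_nonneg (mul_nonneg (h0 _ _) (h0 _ _)) (h0 _ _))]
  exact mul_le_one₀ (mul_le_one₀ (h1 _ _) (h0 _ _) (h1 _ _)) (h0 _ _) (h1 _ _)

private theorem Crit_prod (n : ℕ) (f g h : ℕ → ℝ) :
    (∑ a ∈ range n, f a) * (∑ b ∈ range n, g b) * (∑ c ∈ range n, h c) =
      ∑ a ∈ range n, ∑ b ∈ range n, ∑ c ∈ range n, f a * g b * h c := by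
  rw [sum_mul_sum, sum_mul]
  refine sum_congr rfl fun a _ => ?_
  rw [sum_mul]
  refine sum_congr rfl fun b _ => ?_
  rw [mul_sum]

/-- the blocks of different numbers are disjoint -/
private theorem Crit_dis (l m m' a a' : ℕ) (hm : m ≠ m') (ha : a < l) (ha' : a' < l) :
    Disjoint (Ico (m * l) (m * l + (a + 1))) (Ico (m' * l) (m' * l + (a' + 1))) := by
  rw [disjoint_left]
  intro v hv hv'
  rw [mem_Ico] at hv hv'
  rcases lt_or_gt_of_ne hm with h | h
  · have h1 : (m + 1) * l ≤ m' * l := Nat.mul_le_mul_right l h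
    rw [add_mul, one_mul] at h1
    omega
  · have h1 : (m' + 1) * l ≤ m * l := Nat.mul_le_mul_right l h
    rw [add_mul, one_mul] at h1
    omega

theorem crit (T : Dat) (ε : ℝ) (hε : 0 < ε) (k₀ : ℕ) : ∃ k : ℕ, k₀ ≤ k ∧ 1 ≤ k ∧ ∃ i₀ : ℕ,
    ∀ i, i₀ ≤ i → ∑ a ∈ range (2 ^ i), tt T k 0 (a + 1) ≤ ε * (2 : ℝ) ^ i := by
  have hε3 : 0 < ε ^ 3 := by positivity
  obtain ⟨i₀, hi₀⟩ := two_sided T (ε ^ 3 / 20) (by positivity)
  set k' : ℕ := 2 ^ i₀ with hk'
  have hk'1 : 1 ≤ k' := Nat.one_le_two_pow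
  set k : ℕ := max (max k₀ 1) ⌈800 * (k' : ℝ) ^ 2 / ε ^ 3⌉₊ with hk
  have hk1 : 1 ≤ k := (le_max_right k₀ 1).trans (le_max_left _ _)
  have hk0 : k₀ ≤ k := (le_max_left k₀ 1).trans (le_max_left _ _)
  have hkr : (0 : ℝ) < k := by exact_mod_cast hk1
  have hkb : 400 * (k' : ℝ) ^ 2 / k ≤ ε ^ 3 / 2 := by
    have h1 : 800 * (k' : ℝ) ^ 2 / ε ^ 3 ≤ (k : ℝ) :=
      (Nat.le_ceil _).trans (Nat.cast_le.mpr (le_max_right _ _))
    rw [div_le_iff₀ hε3] at h1
    rw [div_le_iff₀ hkr]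
    linarith
  refine ⟨k, hk0, hk1, i₀, ?_⟩
  intro i hi
  have hlr : ((2 ^ i : ℕ) : ℝ) = (2 : ℝ) ^ i := by push_cast; rfl
  have hl1 : 1 ≤ 2 ^ i := Nat.one_le_two_pow
  have htrip := trip_avg T k k' i hk1 hk'1 (ε ^ 3 / 20) (hi₀ i hi i₀ le_rfl)
    (hi₀ (i + 1) (by omega) i₀ le_rfl)
  generalize (2 : ℝ) ^ i = L at hlr htrip ⊢
  generalize 2 ^ i = l at hlr hl1 htrip ⊢
  subst hlr
  have hl0 : (0 : ℝ) < l := by exact_mod_cast hl1
  have htrip2 : ∑ a ∈ range l, ∑ b ∈ range l, ∑ c ∈ range l, e3 T k (a + 1) (b + 1) (c + 1) ≤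
      ε ^ 3 * (l : ℝ) ^ 3 := by
    refine htrip.trans (mul_le_mul_of_nonneg_right ?_ (by positivity))
    linarith
  -- the averages over the blocks
  set τ : ℕ → T.r.Ω → ℝ := fun m ω =>
    (∑ a ∈ range l, Tk k (T.r.z ∅ (Ico (m * l) (m * l + (a + 1))) ω)) / l with hτ
  have hcube := cube T.r.P τ (by
      intro m
      exact (Finset.measurable_sum _ fun a _ => Crit_meas T.r k _ _).div_const _)
    (fun m ω => div_nonneg (sum_nonneg fun a _ => tk_nonneg _ _) hl0.le)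
    (by
      intro m ω
      change (∑ a ∈ range l, Tk k (T.r.z ∅ (Ico (m * l) (m * l + (a + 1))) ω)) / (l : ℝ) ≤ 1
      rw [div_le_iff₀ hl0, one_mul]
      refine (sum_le_sum fun a _ => tk_le_one k _ (T.r.norm_le _ _ _)).trans (le_of_eq ?_)
      rw [sum_const, card_range, nsmul_eq_mul, mul_one])
    ((∑ a ∈ range l, tt T k 0 (a + 1)) / l) (ε ^ 3)
    (by
      intro m
      change ∫ ω, (∑ a ∈ range l, Tk k (T.r.z ∅ (Ico (m * l) (m * l + (a + 1))) ω)) / (l : ℝ) ∂T.r.P =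
        _
      rw [integral_div, integral_finsetSum _ fun a _ => Crit_int T.r k _ _]
      congr 1
      refine sum_congr rfl fun a _ => ?_
      have h1 := tt_eq T ∅ (Ico (m * l) (m * l + (a + 1))) (disjoint_empty_left _) k hk1
      rw [card_empty, Nat.card_Ico, Nat.add_sub_cancel_left] at h1
      exact h1)
    (by
      intro m₁ m₂ m₃ h12 h13 h23
      have e1 : ∀ ω, τ m₁ ω * τ m₂ ω * τ m₃ ω = (∑ a ∈ range l, ∑ b ∈ range l, ∑ c ∈ range l,
          Tk k (T.r.z ∅ (Ico (m₁ * l) (m₁ * l + (a + 1))) ω) *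
          Tk k (T.r.z ∅ (Ico (m₂ * l) (m₂ * l + (b + 1))) ω) *
          Tk k (T.r.z ∅ (Ico (m₃ * l) (m₃ * l + (c + 1))) ω)) / (l : ℝ) ^ 3 := by
        intro ω
        rw [← Crit_prod]
        change (_ / (l : ℝ)) * (_ / (l : ℝ)) * (_ / (l : ℝ)) = _
        ring
      rw [integral_congr_ae (Filter.Eventually.of_forall e1), integral_div,
        div_le_iff₀ (by positivity)]
      rw [integral_finsetSum _ fun a _ => integrable_finsetSum _ fun b _ =>
        integrable_finsetSum _ fun c _ => Crit_int3 T.r k _ _ _ _ _ _]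
      refine le_trans (le_of_eq ?_) htrip2
      refine sum_congr rfl fun a ha => ?_
      rw [mem_range] at ha
      rw [integral_finsetSum _ fun b _ =>
        integrable_finsetSum _ fun c _ => Crit_int3 T.r k _ _ _ _ _ _]
      refine sum_congr rfl fun b hb => ?_
      rw [mem_range] at hb
      rw [integral_finsetSum _ fun c _ => Crit_int3 T.r k _ _ _ _ _ _]
      refine sum_congr rfl fun c hc => ?_
      rw [mem_range] at hc
      have d12 := Crit_dis l m₁ m₂ a b h12 ha hb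
      have d13 := Crit_dis l m₁ m₃ a c h13 ha hc
      have d23 := Crit_dis l m₂ m₃ b c h23 hb hc
      have h1 := e3_eq T ![Ico (m₁ * l) (m₁ * l + (a + 1)), Ico (m₂ * l) (m₂ * l + (b + 1)),
        Ico (m₃ * l) (m₃ * l + (c + 1))] (by
          intro p q hpq
          fin_cases p <;> fin_cases q
          · exact absurd rfl hpq
          · exact d12
          · exact d13
          · exact d12.symm
          · exact absurd rfl hpq
          · exact d23
          · exact d13.symm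
          · exact d23.symm
          · exact absurd rfl hpq) k hk1
      have c1 : (Ico (m₁ * l) (m₁ * l + (a + 1))).card = a + 1 := by
        rw [Nat.card_Ico, Nat.add_sub_cancel_left]
      have c2 : (Ico (m₂ * l) (m₂ * l + (b + 1))).card = b + 1 := by
        rw [Nat.card_Ico, Nat.add_sub_cancel_left]
      have c3 : (Ico (m₃ * l) (m₃ * l + (c + 1))).card = c + 1 := by
        rw [Nat.card_Ico, Nat.add_sub_cancel_left]
      refine h1.trans ?_
      change e3 T k (Ico (m₁ * l) (m₁ * l + (a + 1))).card (Ico (m₂ * l) (m₂ * l + (b + 1))).card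
        (Ico (m₃ * l) (m₃ * l + (c + 1))).card = _
      rw [c1, c2, c3])
  have hμ : (∑ a ∈ range l, tt T k 0 (a + 1)) / (l : ℝ) ≤ ε := by
    have h0 : 0 ≤ (∑ a ∈ range l, tt T k 0 (a + 1)) / (l : ℝ) :=
      div_nonneg (sum_nonneg fun a _ => tt_nonneg T k _ _) hl0.le
    exact le_of_pow_le_pow_left₀ (by norm_num) hε.le hcube
  rw [div_le_iff₀ hl0] at hμ
  exact hμ

end Pool.Agent.Lib.MP_90b327_co.NS
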