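import Mathlib
import Pool.Agent.Lib.MP_90b327_co.NS.NDefs
import Pool.Agent.Lib.MP_90b327_co.RB.ToTwoA

/-!
MODULE Inj (35 minutes, old scale). Injections and invariance.

PROOFS.
`exists_inj`: bijections `u k ≃ v k` (`Finset.equivOfCardEq`); on `U = ⋃ u k` let `σ` be the union of
these bijections (each element of `U` lies in exactly one `u k`), for `m ∉ U` put `σ m = m + B` with `B`
larger than all elements of the `v k`.
`rl_prod`: extensionality.
`w_inv1`: as `w_inv` in RB/ToTwoA.lean (finished; its proof only uses `h.ker.rel`, copy it with `h.rel`).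
`row_inv`: `R1` with `σ = id`: `stk I x` is mapped to `stk I (fun k => (x k).image τ)` by `rl id τ`.
-/

set_option autoImplicit false

namespace Pool.Agent.Lib.MP_90b327_co.NS

open Finset Pool.Agent.Lib.MP_90b327_co Pool.Agent.Lib.MP_90b327_co.RB

theorem exists_inj (n : ℕ) (u v : Fin n → Finset ℕ) (hu : ∀ k l, k ≠ l → Disjoint (u k) (u l))
    (hv : ∀ k l, k ≠ l → Disjoint (v k) (v l)) (hc : ∀ k, (u k).card = (v k).card) :
    ∃ σ : ℕ → ℕ, Function.Injective σ ∧ ∀ k, (u k).image σ = v k := by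
  classical
  obtain ⟨B, hB⟩ : ∃ B : ℕ, ∀ k, ∀ a ∈ v k, a < B :=
    ⟨(univ.biUnion v).sup id + 1, fun k a ha => Nat.lt_succ_of_le
      (Finset.le_sup (f := id) (mem_biUnion.2 ⟨k, mem_univ k, ha⟩))⟩
  let e : ∀ k, u k ≃ v k := fun k => Finset.equivOfCardEq (hc k)
  let σ : ℕ → ℕ := fun m => if h : ∃ k, m ∈ u k then ((e h.choose ⟨m, h.choose_spec⟩ : v h.choose) : ℕ)
    else m + B
  have h1 : ∀ k m (hm : m ∈ u k), σ m = ((e k ⟨m, hm⟩ : v k) : ℕ) := by
    intro k m hm
    have h : ∃ k, m ∈ u k := ⟨k, hm⟩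
    have hk : h.choose = k := by
      by_contra hne
      exact Finset.disjoint_left.1 (hu _ _ hne) h.choose_spec hm
    have h2 : ∀ k' (hk' : m ∈ u k'), k' = k → ((e k' ⟨m, hk'⟩ : v k') : ℕ) = ((e k ⟨m, hm⟩ : v k) : ℕ) := by
      rintro k' hk' rfl
      rfl
    simp only [σ]
    rw [dif_pos h]
    exact h2 _ h.choose_spec hk
  have h2 : ∀ m, (¬ ∃ k, m ∈ u k) → σ m = m + B := by
    intro m hm
    simp only [σ]
    rw [dif_neg hm]
  have h3 : ∀ k m, m ∈ u k → σ m ∈ v k := by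
    intro k m hm
    rw [h1 k m hm]
    exact Finset.coe_mem _
  refine ⟨σ, ?_, ?_⟩
  · intro m m' hmm
    by_cases hm : ∃ k, m ∈ u k
    · obtain ⟨k, hk⟩ := hm
      by_cases hm' : ∃ k, m' ∈ u k
      · obtain ⟨l, hl⟩ := hm'
        by_cases hkl : k = l
        · subst hkl
          rw [h1 k m hk, h1 k m' hl] at hmm
          have h4 := (e k).injective (Subtype.ext hmm)
          exact congrArg Subtype.val h4
        · exact (Finset.disjoint_left.1 (hv k l hkl) (h3 k m hk) (hmm ▸ h3 l m' hl)).elim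
      · have h4 := hB k _ (h3 k m hk)
        rw [hmm, h2 m' hm'] at h4
        omega
    · by_cases hm' : ∃ k, m' ∈ u k
      · obtain ⟨l, hl⟩ := hm'
        have h4 := hB l _ (h3 l m' hl)
        rw [← hmm, h2 m hm] at h4
        omega
      · rw [h2 m hm, h2 m' hm'] at hmm
        omega
  · intro k
    ext a
    rw [mem_image]
    constructor
    · rintro ⟨m, hm, rfl⟩
      exact h3 k m hm
    · intro ha
      obtain ⟨m, hm⟩ : ∃ m : u k, m = (e k).symm ⟨a, ha⟩ := ⟨_, rfl⟩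
      refine ⟨m.1, m.2, ?_⟩
      rw [h1 k m.1 m.2, Subtype.coe_eta, hm, Equiv.apply_symm_apply]

theorem rl_prod (σ τ : ℕ → ℕ) (A B : Finset ℕ) : rl σ τ (A ×ˢ B) = A.image σ ×ˢ B.image τ := by
  ext ⟨a, b⟩
  simp only [rl, Finset.mem_image, Finset.mem_product, Prod.mk.injEq, Prod.exists]
  constructor
  · rintro ⟨i, j, ⟨hi, hj⟩, rfl, rfl⟩
    exact ⟨⟨i, hi, rfl⟩, ⟨j, hj, rfl⟩⟩
  · rintro ⟨⟨i, hi, rfl⟩, ⟨j, hj, rfl⟩⟩
    exact ⟨i, j, ⟨hi, hj⟩, rfl, rfl⟩

private theorem inj_un (σ τ : ℕ → ℕ) (X Y : Pt) :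
    rl σ τ (X ∪ Y) = rl σ τ X ∪ rl σ τ Y := Finset.image_union _ _

private theorem inj_two (e f : Finset ℕ) (hef : Disjoint e f) :
    ∃ σ : ℕ → ℕ, Function.Injective σ ∧ (Finset.range f.card).image σ = f ∧
      (Finset.Ico f.card (f.card + e.card)).image σ = e := by
  obtain ⟨σ, h1, h2⟩ := exists_inj 2 ![Finset.range f.card, Finset.Ico f.card (f.card + e.card)] ![f, e]
    (by
      have h0 : Disjoint (Finset.range f.card) (Finset.Ico f.card (f.card + e.card)) := by
        rw [Finset.disjoint_left]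
        intro a h3 h4
        rw [Finset.mem_range] at h3
        rw [Finset.mem_Ico] at h4
        omega
      intro k l hkl
      fin_cases k <;> fin_cases l
      · exact absurd rfl hkl
      · exact h0
      · exact h0.symm
      · exact absurd rfl hkl)
    (by
      intro k l hkl
      fin_cases k <;> fin_cases l
      · exact absurd rfl hkl
      · exact hef.symm
      · exact hef
      · exact absurd rfl hkl)
    (by
      intro k
      fin_cases k
      · simp
      · simp)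
  exact ⟨σ, h1, h2 0, h2 1⟩

theorem w_inv1 {κ : Pt → Pt → ℂ} (h : Ker R1 κ) (e f x y : Finset ℕ) (hef : Disjoint e f)
    (hxy : Disjoint x y) : κ (neg e f x y) (pos e f x y) = wv κ f.card e.card y.card x.card := by
  obtain ⟨σ, hσ, hf, he⟩ := inj_two e f hef
  obtain ⟨τ, hτ, hy, hx⟩ := inj_two x y hxy
  unfold wv
  refine (h.rel _ _ _ _ (Or.inr ⟨σ, τ, hσ, hτ, ?_, ?_⟩)).symm
  · unfold neg
    rw [inj_un, rl_prod, rl_prod, hf, hx, he, hy]
  · unfold pos
    rw [inj_un, rl_prod, rl_prod, hf, hx, he, hy]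

private theorem inj_stk (n : ℕ) (I x : Fin n → Finset ℕ) (τ : ℕ → ℕ) :
    stk I (fun k => (x k).image τ) = rl id τ (stk I x) := by
  ext ⟨a, b⟩
  simp only [stk, rl, mem_biUnion, mem_univ, true_and, mem_product, mem_image, Prod.mk.injEq,
    Prod.exists, id]
  constructor
  · rintro ⟨k, ha, b', hb', rfl⟩
    exact ⟨a, b', ⟨k, ha, hb'⟩, rfl, rfl⟩
  · rintro ⟨a', b', ⟨k, ha, hb'⟩, rfl, rfl⟩
    exact ⟨k, ha, b', hb', rfl⟩

theorem row_inv {κ : Pt → Pt → ℂ} (h : Ker R1 κ) (n : ℕ) (I x y : Fin n → Finset ℕ) (τ : ℕ → ℕ)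
    (hτ : Function.Injective τ) :
    κ (stk I (fun k => (x k).image τ)) (stk I (fun k => (y k).image τ)) =
      κ (stk I x) (stk I y) :=
  (h.rel _ _ _ _ (Or.inr ⟨id, τ, Function.injective_id, hτ, inj_stk n I x τ, inj_stk n I y τ⟩)).symm

end Pool.Agent.Lib.MP_90b327_co.NS
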