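import Mathlib
import Pool.Agent.Lib.MP_90b327_co.NS.NDefs
import Pool.Agent.Lib.MP_90b327_co.NS.Inj

/-!
MODULE QInv (30 minutes, old scale). Text section 5: elementary properties of `JKer` and `qv`.

PROOFS. `rem_set`: induction on `C` with `h.rem`. `q_inv`: `exists_inj 3 ![al, gg, H] ![al, gg, H']` gives an injective
`σ` with `σ al = al`, `σ gg = gg`, `σ H = H'` (images); `h.inv σ` and `rl_prod`. `q_near`: `h.bad` with
`X = (al ∪ gg ∪ H) ×ˢ al`, `I = al ∪ gg ∪ H`, `J = gg`: `Near M w gg (al ∪ gg ∪ H)` (the cardinality of the union is at most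
the sum), `X` is disjoint from `I ×ˢ J` since `al`, `gg` are disjoint, `X ∪ I ×ˢ gg = (al ∪ gg ∪ H) ×ˢ (al ∪ gg)`.
`q_bk`: for `A`, `B` disjoint from `gg`: `h.inv σ` with `σ v = if v ∈ gg then 2 v + 1 else 2 v` (injective):
`rl σ σ (A ×ˢ gg) = (A.image (2 ·)) ×ˢ (gg.image (2 · + 1))`, which is the pattern in the definition of `bk`.
-/

set_option autoImplicit false

namespace Pool.Agent.Lib.MP_90b327_co.NS

open Finset Pool.Agent.Lib.MP_90b327_co Pool.Agent.Lib.MP_90b327_co.RB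

theorem rem_set {M : ℕ} {w : ℕ → ℕ} {D : ℝ} {g : Pt → Pt → ℝ} (h : JKer M w D g) (X Y : Pt)
    (C : Finset ℕ) (hC : ∀ c : ℕ × ℕ, (c.1 ∈ C ∨ c.2 ∈ C) → (c ∈ X ↔ c ∈ Y)) :
    g X Y = g (X.filter (fun c => c.1 ∉ C ∧ c.2 ∉ C)) (Y.filter (fun c => c.1 ∉ C ∧ c.2 ∉ C)) := by
  induction C using Finset.induction_on generalizing X Y with
  | empty => simp
  | insert v C hv ih =>
    have h1 := h.rem X Y v (by
      rintro c (hc | hc)
      · exact hC c (Or.inl (by rw [hc]; exact mem_insert_self v C))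
      · exact hC c (Or.inr (by rw [hc]; exact mem_insert_self v C)))
    have h2 := ih (X.filter (fun c => c.1 ≠ v ∧ c.2 ≠ v)) (Y.filter (fun c => c.1 ≠ v ∧ c.2 ≠ v))
      (by
        intro c hc
        rw [mem_filter, mem_filter, hC c (hc.imp (mem_insert_of_mem) (mem_insert_of_mem))])
    have h3 : ∀ Z : Pt, (Z.filter (fun c => c.1 ≠ v ∧ c.2 ≠ v)).filter
        (fun c => c.1 ∉ C ∧ c.2 ∉ C) =
        Z.filter (fun c => c.1 ∉ insert v C ∧ c.2 ∉ insert v C) := by
      intro Z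
      ext c
      simp only [mem_filter, mem_insert, not_or]
      tauto
    rw [h1, h2, h3, h3]

theorem q_inv {M : ℕ} {w : ℕ → ℕ} {D : ℝ} {g : Pt → Pt → ℝ} (h : JKer M w D g)
    (al gg H H' : Finset ℕ) (h1 : Disjoint al gg) (h2 : Disjoint (al ∪ gg) H)
    (h3 : Disjoint (al ∪ gg) H') (hc : H.card = H'.card) : qv g al gg H = qv g al gg H' := by
  rw [disjoint_union_left] at h2 h3
  have hdis : ∀ K : Finset ℕ, Disjoint al K → Disjoint gg K → ∀ k l : Fin 3, k ≠ l →
      Disjoint ((![al, gg, K] : Fin 3 → Finset ℕ) k) ((![al, gg, K] : Fin 3 → Finset ℕ) l) := by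
    intro K hK1 hK2 k l hkl
    fin_cases k <;> fin_cases l
    · exact absurd rfl hkl
    · exact h1
    · exact hK1
    · exact h1.symm
    · exact absurd rfl hkl
    · exact hK2
    · exact hK1.symm
    · exact hK2.symm
    · exact absurd rfl hkl
  obtain ⟨σ, hσ, himg⟩ := exists_inj 3 ![al, gg, H] ![al, gg, H'] (hdis H h2.1 h2.2)
    (hdis H' h3.1 h3.2) (by
      intro k
      fin_cases k
      · rfl
      · rfl
      · exact hc)
  have e0 : al.image σ = al := himg 0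
  have e1 : gg.image σ = gg := himg 1
  have e2 : H.image σ = H' := himg 2
  unfold qv
  rw [← h.inv σ hσ ((al ∪ gg ∪ H) ×ˢ al), rl_prod, rl_prod]
  simp only [image_union, e0, e1, e2]

theorem q_near {M : ℕ} {w : ℕ → ℕ} {D : ℝ} {g : Pt → Pt → ℝ} (h : JKer M w D g)
    (al gg H : Finset ℕ) (h1 : Disjoint al gg) (hM : M ≤ gg.card)
    (hw : al.card + H.card ≤ w gg.card) : qv g al gg H = 0 := by
  unfold qv
  rw [product_union]
  refine h.bad _ (al ∪ gg ∪ H) gg ⟨?_, hM, ?_⟩ ?_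
  · intro v hv
    exact mem_union_left _ (mem_union_right _ hv)
  · have h2 := card_union_le (al ∪ gg) H
    have h3 := card_union_le al gg
    omega
  · rw [disjoint_left]
    intro c hc hc'
    rw [mem_product] at hc hc'
    exact disjoint_left.1 h1 hc.2 hc'.2

theorem q_bk {M : ℕ} {w : ℕ → ℕ} {D : ℝ} {g : Pt → Pt → ℝ} (h : JKer M w D g)
    (A B gg : Finset ℕ) (hA : Disjoint A gg) (hB : Disjoint B gg) :
    g (A ×ˢ gg) (B ×ˢ gg) = bk g (A ×ˢ gg) (B ×ˢ gg) := by
  obtain ⟨σ, hσ⟩ : ∃ σ : ℕ → ℕ, ∀ v, σ v = if v ∈ gg then 2 * v + 1 else 2 * v :=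
    ⟨_, fun _ => rfl⟩
  have hinj : Function.Injective σ := by
    intro u v huv
    rw [hσ, hσ] at huv
    split_ifs at huv <;> omega
  have e1 : gg.image σ = gg.image (fun j => 2 * j + 1) := by
    refine image_congr ?_
    intro v hv
    rw [mem_coe] at hv
    simp only
    rw [hσ, if_pos hv]
  have e2 : ∀ K : Finset ℕ, Disjoint K gg → K.image σ = K.image (fun i => 2 * i) := by
    intro K hK
    refine image_congr ?_
    intro v hv
    rw [mem_coe] at hv
    simp only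
    rw [hσ, if_neg (disjoint_left.1 hK hv)]
  unfold bk
  rw [← h.inv σ hinj (A ×ˢ gg), rl_prod, rl_prod, rl_prod, rl_prod, e1, e2 A hA, e2 B hB]

end Pool.Agent.Lib.MP_90b327_co.NS
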