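import Mathlib
import Pool.Agent.Lib.MP_90b327_co.NS.NDefs
import Pool.Agent.Lib.MP_90b327_co.NS.QInv

/-!
MODULE PairA (45 minutes, old scale). Text section 5: the vectors of the pair lemma.

PROOF. Choose pairwise disjoint finite sets `A i`, disjoint from `al ∪ gg`, `(A i).card = (Hs i).card`: for instance
`A i = Ico (N₀ + c i) (N₀ + c i + (Hs i).card)`, `c i = ∑_{j < i} (Hs j).card`, `N₀` larger than all elements of
`al ∪ gg` (or `i * L` with a common bound `L` instead of `c i`). `B = ⋃ A i`.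
`X i = (al ∪ gg ∪ B) ×ˢ al ∪ (B \ A i) ×ˢ gg`, `Y = (al ∪ gg ∪ B) ×ˢ (al ∪ gg)`.
(a) `g (X i) Y`: `rem_set` with `C = B \ A i`: a cell containing `v ∈ B \ A i` has `v` as first coordinate (the second
coordinates are in `al ∪ gg`), and both patterns contain exactly the cells `{v} ×ˢ (al ∪ gg)` there. What is left is
`(al ∪ gg ∪ A i) ×ˢ al` and `(al ∪ gg ∪ A i) ×ˢ (al ∪ gg)`, so the value is `qv g al gg (A i) = qv g al gg (Hs i)`
(`q_inv`).
(b) `i ≠ j`: `rem_set` with `C = al ∪ (B \ (A i ∪ A j))`: the cells with a coordinate in `al`: first coordinate in `al`: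
`al ×ˢ al` in both; second coordinate in `al`: `(al ∪ gg ∪ B) ×ˢ al` in both; first coordinate in `B \ (A i ∪ A j)`: all
cells of `{v} ×ˢ (al ∪ gg)` in both. What is left is `(A j) ×ˢ gg` (for `X i`) and `(A i) ×ˢ gg` (for `X j`). `q_bk` and
`hT (A j) (A i) gg` (take real parts, multiply by `D`).
-/

set_option autoImplicit false

namespace Pool.Agent.Lib.MP_90b327_co.NS

open Finset Pool.Agent.Lib.MP_90b327_co Pool.Agent.Lib.MP_90b327_co.RB

private theorem exA (S : Finset ℕ) (n : ℕ) (Hs : Fin n → Finset ℕ) :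
    ∃ A : Fin n → Finset ℕ, (∀ i, (A i).card = (Hs i).card) ∧ (∀ i, Disjoint S (A i)) ∧
      ∀ i j, i ≠ j → Disjoint (A i) (A j) := by
  obtain ⟨L, hL⟩ : ∃ L : ℕ, L = S.sup id + 1 + ∑ i, (Hs i).card := ⟨_, rfl⟩
  have hc : ∀ i, (Hs i).card < L := by
    intro i
    have h1 : (Hs i).card ≤ ∑ i, (Hs i).card :=
      Finset.single_le_sum (f := fun i => (Hs i).card) (fun _ _ => Nat.zero_le _) (mem_univ i)
    omega
  have hS : ∀ v ∈ S, v < L := by
    intro v hv
    have h1 : id v ≤ S.sup id := le_sup hv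
    simp only [id] at h1
    omega
  have hA : ∀ (i : Fin n) (v : ℕ), v ∈ Ico ((i.1 + 1) * L) ((i.1 + 1) * L + (Hs i).card) →
      v / L = i.1 + 1 := by
    intro i v hv
    rw [mem_Ico] at hv
    have h1 := hc i
    apply Nat.div_eq_of_lt_le
    · exact hv.1
    · have h2 : (i.1 + 1 + 1) * L = (i.1 + 1) * L + L := by ring
      rw [h2]
      omega
  refine ⟨fun i => Ico ((i.1 + 1) * L) ((i.1 + 1) * L + (Hs i).card), ?_, ?_, ?_⟩
  · intro i
    rw [Nat.card_Ico]
    omega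
  · intro i
    rw [disjoint_left]
    intro v hv hv'
    have h1 := hS v hv
    have h2 := hA i v hv'
    rw [Nat.div_eq_of_lt h1] at h2
    omega
  · intro i j hij
    rw [disjoint_left]
    intro v hv hv'
    have h1 := hA i v hv
    have h2 := hA j v hv'
    apply hij
    apply Fin.ext
    omega

theorem pair_vec {M : ℕ} {w : ℕ → ℕ} {D : ℝ} {g : Pt → Pt → ℝ} (h : JKer M w D g) (hD : 0 < D)
    (T : Dat) (hT : Link g D T) (al gg : Finset ℕ) (h1 : Disjoint al gg) (n : ℕ)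
    (Hs : Fin n → Finset ℕ) (hH : ∀ i, Disjoint (al ∪ gg) (Hs i)) :
    ∃ (X : Fin n → Pt) (Y : Pt), (∀ i, g (X i) Y = qv g al gg (Hs i)) ∧
      ∀ i j, i ≠ j → g (X i) (X j) = D * (T.W (Hs i).card (Hs j).card gg.card 0).re := by
  classical
  obtain ⟨A, hAc, hAS, hAA⟩ := exA (al ∪ gg) n Hs
  obtain ⟨B, hB⟩ : ∃ B : Finset ℕ, ∀ v, v ∈ B ↔ ∃ i, v ∈ A i :=
    ⟨univ.biUnion A, fun v => by simp only [mem_biUnion, mem_univ, true_and]⟩
  have hAB : ∀ i v, v ∈ A i → v ∈ B := fun i v hv => (hB v).2 ⟨i, hv⟩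
  have halB : ∀ v, v ∈ al → v ∉ B := by
    intro v hv hv'
    obtain ⟨i, hi⟩ := (hB v).1 hv'
    exact disjoint_left.1 (hAS i) (mem_union_left _ hv) hi
  have hggB : ∀ v, v ∈ gg → v ∉ B := by
    intro v hv hv'
    obtain ⟨i, hi⟩ := (hB v).1 hv'
    exact disjoint_left.1 (hAS i) (mem_union_right _ hv) hi
  have hag : ∀ v, v ∈ al → v ∉ gg := fun v hv => disjoint_left.1 h1 hv
  have hAj : ∀ i j, i ≠ j → ∀ v, v ∈ A i → v ∉ A j := fun i j hij v hv =>
    disjoint_left.1 (hAA i j hij) hv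
  refine ⟨fun i => (al ∪ gg ∪ B) ×ˢ al ∪ (B \ A i) ×ˢ gg, (al ∪ gg ∪ B) ×ˢ (al ∪ gg), ?_, ?_⟩
  · intro i
    have e := rem_set h ((al ∪ gg ∪ B) ×ˢ al ∪ (B \ A i) ×ˢ gg) ((al ∪ gg ∪ B) ×ˢ (al ∪ gg)) (B \ A i)
      (by
        intro c hc
        have f3 := halB c.2
        have f4 := hggB c.2
        simp only [mem_union, mem_product, mem_sdiff] at hc ⊢
        rcases hc with hc | hc
        · constructor
          · rintro (h2 | h2)
            · exact ⟨Or.inr hc.1, Or.inl h2.2⟩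
            · exact ⟨Or.inr hc.1, Or.inr h2.2⟩
          · rintro ⟨_, h3 | h3⟩
            · exact Or.inl ⟨Or.inr hc.1, h3⟩
            · exact Or.inr ⟨hc, h3⟩
        · constructor
          · rintro (h2 | h2)
            · exact absurd hc.1 (f3 h2.2)
            · exact absurd hc.1 (f4 h2.2)
          · rintro ⟨_, h3 | h3⟩
            · exact absurd hc.1 (f3 h3)
            · exact absurd hc.1 (f4 h3))
    have e1 : ((al ∪ gg ∪ B) ×ˢ al ∪ (B \ A i) ×ˢ gg).filter (fun c => c.1 ∉ B \ A i ∧ c.2 ∉ B \ A i) =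
        (al ∪ gg ∪ A i) ×ˢ al := by
      ext c
      have f1 := halB c.1
      have f2 := hggB c.1
      have f3 := halB c.2
      have f5 := hAB i c.1
      simp only [mem_filter, mem_union, mem_product, mem_sdiff]
      tauto
    have e2 : ((al ∪ gg ∪ B) ×ˢ (al ∪ gg)).filter (fun c => c.1 ∉ B \ A i ∧ c.2 ∉ B \ A i) =
        (al ∪ gg ∪ A i) ×ˢ (al ∪ gg) := by
      ext c
      have f1 := halB c.1
      have f2 := hggB c.1
      have f3 := halB c.2
      have f4 := hggB c.2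
      have f5 := hAB i c.1
      simp only [mem_filter, mem_union, mem_product, mem_sdiff]
      tauto
    rw [e1, e2] at e
    rw [e]
    exact q_inv h al gg (A i) (Hs i) h1 (hAS i) (hH i) (hAc i)
  · intro i j hij
    have e := rem_set h ((al ∪ gg ∪ B) ×ˢ al ∪ (B \ A i) ×ˢ gg) ((al ∪ gg ∪ B) ×ˢ al ∪ (B \ A j) ×ˢ gg)
      (al ∪ (B \ (A i ∪ A j)))
      (by
        intro c hc
        have f1 := halB c.1
        have f3 := halB c.2
        have f4 := hggB c.2
        have f7 := hag c.2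
        simp only [mem_union, mem_product, mem_sdiff, not_or] at hc ⊢
        tauto)
    have e1 : ∀ i j, i ≠ j → ((al ∪ gg ∪ B) ×ˢ al ∪ (B \ A i) ×ˢ gg).filter
        (fun c => c.1 ∉ al ∪ (B \ (A i ∪ A j)) ∧ c.2 ∉ al ∪ (B \ (A i ∪ A j))) = A j ×ˢ gg := by
      intro i j hij
      ext c
      have f1 := halB c.1
      have f4 := hggB c.2
      have f6 := hAB j c.1
      have f7 := hag c.2
      have f8 := hAj i j hij c.1
      simp only [mem_filter, mem_union, mem_product, mem_sdiff, not_or]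
      tauto
    have e2 := e1 j i (Ne.symm hij)
    rw [union_comm (A j) (A i)] at e2
    rw [e1 i j hij, e2] at e
    have d : ∀ i, Disjoint (A i) gg := by
      intro i
      rw [disjoint_left]
      intro v hv hv'
      exact hggB v hv' (hAB i v hv)
    have e3 := hT (A j) (A i) gg (hAA j i (Ne.symm hij))
    show g ((al ∪ gg ∪ B) ×ˢ al ∪ (B \ A i) ×ˢ gg) ((al ∪ gg ∪ B) ×ˢ al ∪ (B \ A j) ×ˢ gg) =
      D * (T.W (Hs i).card (Hs j).card gg.card 0).re
    rw [e, q_bk h (A j) (A i) gg (d j) (d i), ← hAc i, ← hAc j, ← e3, Complex.ofReal_re]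
    field_simp

end Pool.Agent.Lib.MP_90b327_co.NS
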