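import Mathlib
import Pool.Agent.Lib.MP_90b327_co.NS.NDefs
import Pool.Agent.Lib.MP_90b327_co.NS.PairA

/-!
MODULE PairB (40 minutes, old scale). Text section 5: the PAIR LEMMA.

PROOF. `X`, `Y` from `pair_vec`; `e i = (Hs i).card`, `m = gg.card`, `z = T.r.z ∅ (range m)`, `w i j = (T.W (e i) (e j) m 0).re =
Re ∫ z^(e i) * conj z ^(e j)` (`T.mom ∅ (range m)`, `Sp.herm`).
(1) `h.psd` with index type `Option (Fin n)`: `X i` with coefficient `lam i`, `Y` with coefficient `-μ`: for all real `μ`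
`0 ≤ S - 2 μ q + μ² D`, `q = ∑ lam i * g (X i) Y`, `S = ∑∑ lam i lam j g (X i) (X j)`. So `q² ≤ D S` (`μ = q / D`).
(2) `S = ∑_{i≠j} lam i lam j D w i j + ∑ lam i² D ≤ D (∑∑ lam i lam j w i j + ∑ lam i²)` since `w i i = ∫ ‖z‖^(2 e i) ≥ 0`.
(3) `∫ ‖∑ lam i z^(e i)‖² = ∑∑ lam i lam j w i j` (expand `‖·‖²` as the real part of the product with the conjugate,
integrate the finite sum of bounded functions).
-/

set_option autoImplicit false

namespace Pool.Agent.Lib.MP_90b327_co.NS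

open Finset MeasureTheory Pool.Agent.Lib.MP_90b327_co Pool.Agent.Lib.MP_90b327_co.RB

private theorem zint (s : Sp) (x y : Finset ℕ) (a b : ℕ) :
    Integrable (fun ω => s.z x y ω ^ a * s.z y x ω ^ b) s.P := by
  refine Integrable.of_bound
    (((s.meas x y).pow_const a).mul ((s.meas y x).pow_const b)).aestronglyMeasurable 1 ?_
  filter_upwards with ω
  rw [norm_mul, norm_pow, norm_pow]
  exact mul_le_one₀ (pow_le_one₀ (norm_nonneg _) (s.norm_le x y ω)) (pow_nonneg (norm_nonneg _) _)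
    (pow_le_one₀ (norm_nonneg _) (s.norm_le y x ω))

private theorem sqint (T : Dat) (m n : ℕ) (e : Fin n → ℕ) (lam : Fin n → ℝ) :
    ∫ ω, ‖∑ i, (lam i : ℂ) * T.r.z ∅ (range m) ω ^ e i‖ ^ 2 ∂T.r.P =
      ∑ i, ∑ j, lam i * lam j * (T.W (e i) (e j) m 0).re := by
  have key : ∀ ω, ‖∑ i, (lam i : ℂ) * T.r.z ∅ (range m) ω ^ e i‖ ^ 2 =
      ∑ i, ∑ j, lam i * lam j *
        (T.r.z ∅ (range m) ω ^ e i * T.r.z (range m) ∅ ω ^ e j).re := by
    intro ω
    have h1 : ‖∑ i, (lam i : ℂ) * T.r.z ∅ (range m) ω ^ e i‖ ^ 2 =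
        ((∑ i, (lam i : ℂ) * T.r.z ∅ (range m) ω ^ e i) *
          (starRingEnd ℂ) (∑ i, (lam i : ℂ) * T.r.z ∅ (range m) ω ^ e i)).re := by
      rw [Complex.mul_conj, Complex.ofReal_re, Complex.normSq_eq_norm_sq]
    rw [h1, map_sum, Finset.sum_mul_sum, Complex.re_sum]
    refine Finset.sum_congr rfl fun i _ => ?_
    rw [Complex.re_sum]
    refine Finset.sum_congr rfl fun j _ => ?_
    rw [map_mul, map_pow, Complex.conj_ofReal, T.r.herm ∅ (range m) ω]
    have h2 : (lam i : ℂ) * T.r.z ∅ (range m) ω ^ e i *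
        ((lam j : ℂ) * (starRingEnd ℂ) (T.r.z ∅ (range m) ω) ^ e j) =
        ((lam i * lam j : ℝ) : ℂ) * (T.r.z ∅ (range m) ω ^ e i *
          (starRingEnd ℂ) (T.r.z ∅ (range m) ω) ^ e j) := by
      push_cast
      ring
    rw [h2, Complex.re_ofReal_mul]
  have hint : ∀ i j, Integrable (fun ω => lam i * lam j *
      (T.r.z ∅ (range m) ω ^ e i * T.r.z (range m) ∅ ω ^ e j).re) T.r.P :=
    fun i j => ((zint T.r ∅ (range m) (e i) (e j)).re).const_mul _
  rw [integral_congr_ae (Filter.Eventually.of_forall key),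
    integral_finsetSum _ (fun i _ => integrable_finsetSum _ fun j _ => hint i j)]
  refine Finset.sum_congr rfl fun i _ => ?_
  rw [integral_finsetSum _ (fun j _ => hint i j)]
  refine Finset.sum_congr rfl fun j _ => ?_
  rw [integral_const_mul]
  congr 1
  have h3 := T.mom ∅ (range m) (disjoint_empty_left _) (e i) (e j)
  rw [card_range, card_empty] at h3
  rw [← h3]
  exact integral_re (zint T.r ∅ (range m) (e i) (e j))

private theorem wpos (T : Dat) (m e : ℕ) : 0 ≤ (T.W e e m 0).re := by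
  have h1 := sqint T m 1 (fun _ => e) (fun _ => 1)
  have h2 : 0 ≤ ∫ ω, ‖∑ i : Fin 1, ((1 : ℝ) : ℂ) * T.r.z ∅ (range m) ω ^ e‖ ^ 2 ∂T.r.P :=
    integral_nonneg fun ω => by positivity
  rw [h1] at h2
  simpa using h2

theorem pair {M : ℕ} {w : ℕ → ℕ} {D : ℝ} {g : Pt → Pt → ℝ} (h : JKer M w D g) (hD : 0 < D)
    (T : Dat) (hT : Link g D T) (al gg : Finset ℕ) (h1 : Disjoint al gg) (n : ℕ)
    (Hs : Fin n → Finset ℕ) (hH : ∀ i, Disjoint (al ∪ gg) (Hs i)) (lam : Fin n → ℝ) :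
    (∑ i, lam i * qv g al gg (Hs i)) ^ 2 ≤
      D ^ 2 * (∫ ω, ‖∑ i, (lam i : ℂ) * T.r.z ∅ (range gg.card) ω ^ (Hs i).card‖ ^ 2 ∂T.r.P +
        ∑ i, lam i ^ 2) := by
  classical
  obtain ⟨X, Y, hXY, hXX⟩ := pair_vec h hD T hT al gg h1 n Hs hH
  obtain ⟨q, hq⟩ : ∃ q : ℝ, q = ∑ i, lam i * g (X i) Y := ⟨_, rfl⟩
  obtain ⟨S, hS⟩ : ∃ S : ℝ, S = ∑ i, ∑ j, lam i * lam j * g (X i) (X j) := ⟨_, rfl⟩
  have hqq : ∑ i, lam i * qv g al gg (Hs i) = q := by
    rw [hq]
    exact sum_congr rfl fun i _ => by rw [hXY i]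
  rw [hqq, sqint T gg.card n (fun i => (Hs i).card) lam]
  have hpsd : ∀ μ : ℝ, 0 ≤ μ ^ 2 * D - 2 * μ * q + S := by
    intro μ
    have h2 := h.psd (Option (Fin n)) (fun o => o.elim Y X) (fun o => o.elim (-μ) lam)
    simp only [Fintype.sum_option, Option.elim_none, Option.elim_some] at h2
    rw [h.diag] at h2
    have h3 : ∑ x, -μ * lam x * g Y (X x) = -(μ * q) := by
      rw [hq, mul_sum, ← sum_neg_distrib]
      refine sum_congr rfl fun i _ => ?_
      rw [h.symm Y (X i)]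
      ring
    have h4 : ∑ x, (lam x * -μ * g (X x) Y + ∑ y, lam x * lam y * g (X x) (X y)) =
        -(μ * q) + S := by
      rw [sum_add_distrib, ← hS]
      congr 1
      rw [hq, mul_sum, ← sum_neg_distrib]
      refine sum_congr rfl fun i _ => ?_
      ring
    have h5 : 0 ≤ D ^ 2 * (-μ + ∑ x, lam x) ^ 2 := by positivity
    rw [h3, h4] at h2
    nlinarith [h2, h5]
  have hqS : q ^ 2 ≤ D * S := by
    have h2 := hpsd (q / D)
    have h3 : (q / D) ^ 2 * D - 2 * (q / D) * q + S = S - q ^ 2 / D := by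
      field_simp
      ring
    rw [h3] at h2
    have h4 : q ^ 2 / D ≤ S := by linarith
    rw [div_le_iff₀ hD] at h4
    linarith
  have hSle : S ≤ D * (∑ i, ∑ j, lam i * lam j * (T.W (Hs i).card (Hs j).card gg.card 0).re +
      ∑ i, lam i ^ 2) := by
    rw [hS, mul_add, mul_sum, mul_sum, ← sum_add_distrib]
    refine sum_le_sum fun i _ => ?_
    rw [mul_sum]
    have h2 : D * lam i ^ 2 = ∑ j, if i = j then D * lam i ^ 2 else 0 := by
      rw [Finset.sum_ite_eq]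
      simp
    rw [h2, ← sum_add_distrib]
    refine sum_le_sum fun j _ => ?_
    by_cases hij : i = j
    · subst hij
      rw [if_pos rfl, h.diag]
      have h3 := wpos T gg.card (Hs i).card
      have h4 : 0 ≤ D * (lam i * lam i * (T.W (Hs i).card (Hs i).card gg.card 0).re) :=
        mul_nonneg hD.le (mul_nonneg (mul_self_nonneg _) h3)
      nlinarith
    · rw [if_neg hij, hXX i j hij]
      apply le_of_eq
      ring
  calc q ^ 2 ≤ D * S := hqS
    _ ≤ D * (D * (∑ i, ∑ j, lam i * lam j * (T.W (Hs i).card (Hs j).card gg.card 0).re +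
      ∑ i, lam i ^ 2)) := mul_le_mul_of_nonneg_left hSle hD.le
    _ = _ := by ring

end Pool.Agent.Lib.MP_90b327_co.NS
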