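import Mathlib
import Pool.Agent.Lib.MP_90b327_co.NS.NDefs
import Pool.Agent.Lib.MP_90b327_co.NS.AvA
import Pool.Agent.Lib.MP_90b327_co.NS.QInv
import Pool.Agent.Lib.MP_90b327_co.NS.PairB

/-!
MODULE FarNear (50 minutes, old scale). Text section 6: far averages against near averages.

PROOFS.
`far_lim`: `range 0 = ∅`, `Ico 0 (0 + m) = range m`, so `tt T k 0 m = ∫ Tk k z`, `z = T.r.z ∅ (range m)`. Pointwise
`z^hh * Av K z → 1(z = 1)` (`av_tend`; `z^hh = 1` if `z = 1`, and `‖z^hh‖ ≤ 1`), so `‖Av k z - z^hh * Av K z‖² →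
‖Av k z - 1(z=1)‖² = Tk k z` (`tk_eq'`), bounded by `4`: dominated convergence.
`far_near`: let `K ≥ 1`. Apply `pair` to the index set `Fin (k + K)`: for `i < k` a set of `i + 1` elements disjoint from
`al ∪ gg` with `lam = 1/k`; for `i = k + b` the set `H b` with `lam = -1/K`. The near terms vanish (`q_near`: `al.card + (i + 1) ≤
al.card + k ≤ w gg.card`), so the left side is `((∑_{b<K} qv g al gg (H b)) / K)²`. The complex sum is
`Av k z - z^hh * Av K z`, `∑ lam² = 1/k + 1/K`. So `avg² ≤ D² (I K + 1/k + 1/K)`, `I K → tt T k 0 gg.card` (`far_lim`), hence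
`avg ≤ D sqrt (I K + 1/k + 1/K)`, which tends to `D sqrt (tt T k 0 gg.card + 1/k)` (a bound independent of `H`): choose
`K₀`.
-/

set_option autoImplicit false

namespace Pool.Agent.Lib.MP_90b327_co.NS

open Finset MeasureTheory Filter Topology Pool.Agent.Lib.MP_90b327_co Pool.Agent.Lib.MP_90b327_co.RB

theorem far_lim (T : Dat) (m k hh : ℕ) (hk : 1 ≤ k) :
    Tendsto (fun K : ℕ => ∫ ω, ‖Av k (T.r.z ∅ (range m) ω) -
      T.r.z ∅ (range m) ω ^ hh * Av K (T.r.z ∅ (range m) ω)‖ ^ 2 ∂T.r.P) atTop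
      (𝓝 (tt T k 0 m)) := by
  have e : tt T k 0 m = ∫ ω, Tk k (T.r.z ∅ (range m) ω) ∂T.r.P := by
    unfold tt
    rw [range_zero, zero_add, ← range_eq_Ico]
  rw [e]
  have hz : Measurable (T.r.z ∅ (range m)) := T.r.meas _ _
  have hn : ∀ ω, ‖T.r.z ∅ (range m) ω‖ ≤ 1 := fun ω => T.r.norm_le _ _ ω
  refine tendsto_integral_of_dominated_convergence (fun _ => (4 : ℝ)) ?_ (integrable_const _) ?_ ?_
  · intro K
    have h1 : Measurable (fun ω => Av k (T.r.z ∅ (range m) ω)) := (av_cont k).measurable.comp hz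
    have h2 : Measurable (fun ω => Av K (T.r.z ∅ (range m) ω)) := (av_cont K).measurable.comp hz
    exact ((h1.sub ((hz.pow_const hh).mul h2)).norm.pow_const 2).aestronglyMeasurable
  · intro K
    refine Eventually.of_forall fun ω => ?_
    have h1 := av_norm k _ (hn ω)
    have h2 := av_norm K _ (hn ω)
    have h3 : ‖T.r.z ∅ (range m) ω ^ hh‖ ≤ 1 := by
      rw [norm_pow]
      exact pow_le_one₀ (norm_nonneg _) (hn ω)
    have h4 : ‖Av k (T.r.z ∅ (range m) ω) -
        T.r.z ∅ (range m) ω ^ hh * Av K (T.r.z ∅ (range m) ω)‖ ≤ 2 := by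
      refine (norm_sub_le _ _).trans ?_
      rw [norm_mul]
      have h5 : ‖T.r.z ∅ (range m) ω ^ hh‖ * ‖Av K (T.r.z ∅ (range m) ω)‖ ≤ 1 * 1 :=
        mul_le_mul h3 h2 (norm_nonneg _) zero_le_one
      linarith
    rw [Real.norm_of_nonneg (by positivity)]
    have h5 := norm_nonneg (Av k (T.r.z ∅ (range m) ω) -
        T.r.z ∅ (range m) ω ^ hh * Av K (T.r.z ∅ (range m) ω))
    nlinarith
  · refine Eventually.of_forall fun ω => ?_
    have h1 := av_tend _ (hn ω)
    have h2 : Tendsto (fun K : ℕ => T.r.z ∅ (range m) ω ^ hh * Av K (T.r.z ∅ (range m) ω)) atTop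
        (𝓝 (if T.r.z ∅ (range m) ω = 1 then 1 else 0)) := by
      have h3 := h1.const_mul (T.r.z ∅ (range m) ω ^ hh)
      have h4 : T.r.z ∅ (range m) ω ^ hh * (if T.r.z ∅ (range m) ω = 1 then (1 : ℂ) else 0) =
          (if T.r.z ∅ (range m) ω = 1 then 1 else 0) := by
        split_ifs with h5
        · rw [h5, one_pow, one_mul]
        · rw [mul_zero]
      rwa [h4] at h3
    rw [tk_eq' k hk]
    exact ((tendsto_const_nhds.sub h2).norm.pow 2)

private theorem farnear_set (X : Finset ℕ) (j : ℕ) : ∃ U : Finset ℕ, Disjoint X U ∧ U.card = j := by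
  refine ⟨Ico (X.sup id + 1) (X.sup id + 1 + j), ?_, by rw [Nat.card_Ico]; omega⟩
  rw [disjoint_left]
  intro x hx hx'
  rw [mem_Ico] at hx'
  have : x ≤ X.sup id := le_sup (f := id) hx
  omega

theorem far_near {M : ℕ} {w : ℕ → ℕ} {D : ℝ} {g : Pt → Pt → ℝ} (h : JKer M w D g) (hD : 0 < D)
    (T : Dat) (hT : Link g D T) (al gg : Finset ℕ) (h1 : Disjoint al gg) (k hh : ℕ) (hk : 1 ≤ k)
    (hM : M ≤ gg.card) (hw : al.card + k ≤ w gg.card) (ε : ℝ) (hε : 0 < ε) :
    ∃ K₀ : ℕ, ∀ K, K₀ ≤ K → ∀ H : ℕ → Finset ℕ,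
      (∀ b, b < K → Disjoint (al ∪ gg) (H b) ∧ (H b).card = hh + b + 1) →
      ∑ b ∈ range K, qv g al gg (H b) ≤
        K * (D * Real.sqrt (tt T k 0 gg.card + 1 / k) + ε) := by
  have hlim := far_lim T gg.card k hh hk
  have hinv : Tendsto (fun K : ℕ => 1 / (K : ℝ)) atTop (𝓝 0) := tendsto_one_div_atTop_nhds_zero_nat
  have h2 : Tendsto (fun K : ℕ => D * Real.sqrt ((∫ ω, ‖Av k (T.r.z ∅ (range gg.card) ω) -
      T.r.z ∅ (range gg.card) ω ^ hh * Av K (T.r.z ∅ (range gg.card) ω)‖ ^ 2 ∂T.r.P) + 1 / k +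
      1 / (K : ℝ))) atTop (𝓝 (D * Real.sqrt (tt T k 0 gg.card + 1 / k))) := by
    have h3 := (hlim.add_const (1 / (k : ℝ))).add hinv
    rw [add_zero] at h3
    exact ((Real.continuous_sqrt.tendsto _).comp h3).const_mul D
  obtain ⟨K₀, hK₀⟩ := eventually_atTop.1 (h2.eventually_le_const
    (show D * Real.sqrt (tt T k 0 gg.card + 1 / k) <
      D * Real.sqrt (tt T k 0 gg.card + 1 / k) + ε by linarith))
  refine ⟨max K₀ 1, fun K hK H hH => ?_⟩
  have hK1 : 1 ≤ K := (le_max_right _ _).trans hK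
  have hKK := hK₀ K ((le_max_left _ _).trans hK)
  have hKr : (0 : ℝ) < K := by exact_mod_cast hK1
  have hkr : (0 : ℝ) < k := by exact_mod_cast hk
  choose U hU1 hU2 using farnear_set (al ∪ gg)
  -- the pair lemma
  set Hs : Fin (k + K) → Finset ℕ := Fin.append (fun i : Fin k => U (i + 1)) (fun b : Fin K => H b)
    with hHs
  set lam : Fin (k + K) → ℝ := Fin.append (fun _ : Fin k => 1 / (k : ℝ)) (fun _ : Fin K => -(1 / (K : ℝ)))
    with hlam
  have hdis : ∀ i, Disjoint (al ∪ gg) (Hs i) := by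
    intro i
    refine Fin.addCases (fun i => ?_) (fun b => ?_) i
    · rw [hHs, Fin.append_left]
      exact hU1 _
    · rw [hHs, Fin.append_right]
      exact (hH b b.2).1
  have hp := pair h hD T hT al gg h1 (k + K) Hs hdis lam
  set S := ∑ b ∈ range K, qv g al gg (H b) with hS
  have e1 : ∑ i, lam i * qv g al gg (Hs i) = -(1 / (K : ℝ)) * S := by
    rw [Fin.sum_univ_add]
    have a1 : ∀ i : Fin k, lam (Fin.castAdd K i) * qv g al gg (Hs (Fin.castAdd K i)) = 0 := by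
      intro i
      rw [hHs, Fin.append_left, q_near h al gg (U (i + 1)) h1 hM, mul_zero]
      rw [hU2]
      have := i.2
      omega
    have a2 : ∀ b : Fin K, lam (Fin.natAdd k b) * qv g al gg (Hs (Fin.natAdd k b)) =
        -(1 / (K : ℝ)) * qv g al gg (H b) := by
      intro b
      rw [hHs, hlam, Fin.append_right, Fin.append_right]
    rw [sum_congr rfl (fun i _ => a1 i), sum_congr rfl (fun b _ => a2 b), sum_const_zero, zero_add,
      ← mul_sum, hS, ← Fin.sum_univ_eq_sum_range (fun b => qv g al gg (H b)) K]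
  have e2 : ∀ ω, ∑ i, (lam i : ℂ) * T.r.z ∅ (range gg.card) ω ^ (Hs i).card =
      Av k (T.r.z ∅ (range gg.card) ω) -
      T.r.z ∅ (range gg.card) ω ^ hh * Av K (T.r.z ∅ (range gg.card) ω) := by
    intro ω
    set z := T.r.z ∅ (range gg.card) ω with hz
    rw [Fin.sum_univ_add]
    have a1 : ∀ i : Fin k, (lam (Fin.castAdd K i) : ℂ) * z ^ (Hs (Fin.castAdd K i)).card =
        (1 / (k : ℂ)) * z ^ ((i : ℕ) + 1) := by
      intro i
      rw [hHs, hlam, Fin.append_left, Fin.append_left, hU2]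
      push_cast
      ring
    have a2 : ∀ b : Fin K, (lam (Fin.natAdd k b) : ℂ) * z ^ (Hs (Fin.natAdd k b)).card =
        (-(1 / (K : ℂ)) * z ^ hh) * z ^ ((b : ℕ) + 1) := by
      intro b
      rw [hHs, hlam, Fin.append_right, Fin.append_right, (hH b b.2).2]
      push_cast
      rw [add_assoc, pow_add]
      ring
    rw [sum_congr rfl (fun i _ => a1 i), sum_congr rfl (fun b _ => a2 b), ← mul_sum, ← mul_sum,
      Fin.sum_univ_eq_sum_range (fun b => z ^ (b + 1)) K, Fin.sum_univ_eq_sum_range (fun b => z ^ (b + 1)) k]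
    unfold Av
    ring
  have e3 : ∑ i, lam i ^ 2 = 1 / (k : ℝ) + 1 / (K : ℝ) := by
    rw [Fin.sum_univ_add]
    have a1 : ∀ i : Fin k, lam (Fin.castAdd K i) ^ 2 = (1 / (k : ℝ)) ^ 2 := by
      intro i
      rw [hlam, Fin.append_left]
    have a2 : ∀ b : Fin K, lam (Fin.natAdd k b) ^ 2 = (1 / (K : ℝ)) ^ 2 := by
      intro b
      rw [hlam, Fin.append_right]
      ring
    rw [sum_congr rfl (fun i _ => a1 i), sum_congr rfl (fun b _ => a2 b), sum_const, sum_const,
      card_univ, card_univ, Fintype.card_fin, Fintype.card_fin, nsmul_eq_mul, nsmul_eq_mul]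
    field_simp
  rw [e1, e3] at hp
  simp only [e2] at hp
  set I := ∫ ω, ‖Av k (T.r.z ∅ (range gg.card) ω) -
      T.r.z ∅ (range gg.card) ω ^ hh * Av K (T.r.z ∅ (range gg.card) ω)‖ ^ 2 ∂T.r.P with hI
  have h5 : S / K ≤ D * Real.sqrt (I + 1 / k + 1 / (K : ℝ)) := by
    have h6 : (S / K) ^ 2 ≤ D ^ 2 * (I + 1 / k + 1 / (K : ℝ)) := by
      calc (S / K) ^ 2 = (-(1 / (K : ℝ)) * S) ^ 2 := by ring
        _ ≤ D ^ 2 * (I + (1 / k + 1 / (K : ℝ))) := hp
        _ = _ := by ring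
    have h7 := Real.le_sqrt_of_sq_le h6
    rwa [Real.sqrt_mul (by positivity), Real.sqrt_sq hD.le] at h7
  have h8 := h5.trans hKK
  rw [div_le_iff₀ hKr] at h8
  linarith

end Pool.Agent.Lib.MP_90b327_co.NS
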