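import Mathlib
import Pool.Agent.Lib.MP_90b327_co.NS.NDefs

/-!
MODULE NBip (30 minutes, old scale). Text section 1: the bipartite kernel.

PROOF. Write `ε X = rl (fun i => 2 * i) (fun j => 2 * j + 1) X`, so `bk g X Y = g (ε X) (ε Y)`.
`symm`, `diag`, `psd` directly from `h`.
`inv`: `ε (rl σ τ X) = rl ρ ρ (ε X)` with `ρ v = if v % 2 = 0 then 2 * σ (v / 2) else 2 * τ (v / 2) + 1`
(injective); use `h.inv ρ`.
`row`: if `X`, `Y` agree on the row `i`, then `ε X`, `ε Y` agree on all cells which contain the vertex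
`v = 2 * i`: a cell of `ε X` is `(2 a, 2 b + 1)`, it contains `2 i` iff `a = i`. `h.rem` with `v = 2 * i`, and
`(ε X).filter (fun c => c.1 ≠ 2 i ∧ c.2 ≠ 2 i) = ε (X.filter (fun c => c.1 ≠ i))`.
`col`: the same with `v = 2 * j + 1`. `bad`: void.
-/

set_option autoImplicit false

namespace Pool.Agent.Lib.MP_90b327_co.NS

open Finset Pool.Agent.Lib.MP_90b327_co Pool.Agent.Lib.MP_90b327_co.RB

private abbrev nbe (X : Pt) : Pt := rl (fun i => 2 * i) (fun j => 2 * j + 1) X

private theorem nbip_mem (X : Pt) (c : ℕ × ℕ) : c ∈ nbe X ↔ ∃ a b, (a, b) ∈ X ∧ 2 * a = c.1 ∧ 2 * b + 1 = c.2 := by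
  obtain ⟨c1, c2⟩ := c
  simp only [nbe, rl, mem_image, Prod.mk.injEq, Prod.exists]

private theorem nbip_ev (X : Pt) (a : ℕ) (c2 : ℕ) : (2 * a, c2) ∈ nbe X ↔ ∃ b, (a, b) ∈ X ∧ 2 * b + 1 = c2 := by
  rw [nbip_mem]
  constructor
  · rintro ⟨a', b, h1, h2, h3⟩
    have h2' : 2 * a' = 2 * a := h2
    have : a' = a := by omega
    subst this
    exact ⟨b, h1, h3⟩
  · rintro ⟨b, h1, h2⟩
    exact ⟨a, b, h1, rfl, h2⟩

private theorem nbip_rl (σ τ σ' τ' : ℕ → ℕ) (X : Pt) :
    rl σ' τ' (rl σ τ X) = rl (fun i => σ' (σ i)) (fun j => τ' (τ j)) X := by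
  unfold rl
  rw [image_image]
  rfl

theorem bip {M : ℕ} {w : ℕ → ℕ} {D : ℝ} {g : Pt → Pt → ℝ} (h : JKer M w D g) :
    PKer (fun _ _ => False) D (bk g) := by
  refine ⟨fun X Y => h.symm _ _, fun X => h.diag _, fun ι _ X a => h.psd ι (fun i => nbe (X i)) a,
    fun σ τ hσ hτ X Y => ?_, fun X Y i hi => ?_, fun X Y j hj => ?_, fun X I J hF _ => hF.elim⟩
  · obtain ⟨ρ, hρ⟩ : ∃ ρ : ℕ → ℕ, ρ = fun v => if v % 2 = 0 then 2 * σ (v / 2) else 2 * τ (v / 2) + 1 :=
      ⟨_, rfl⟩
    have h0 : ∀ i, ρ (2 * i) = 2 * σ i := by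
      intro i
      rw [hρ]
      simp
    have h1 : ∀ j, ρ (2 * j + 1) = 2 * τ j + 1 := by
      intro j
      rw [hρ]
      simp only
      have e1 : (2 * j + 1) % 2 = 1 := by omega
      have e2 : (2 * j + 1) / 2 = j := by omega
      rw [e1, e2, if_neg one_ne_zero]
    have hinj : Function.Injective ρ := by
      intro a b hab
      rcases Nat.even_or_odd' a with ⟨a', ha | ha⟩ <;> rcases Nat.even_or_odd' b with ⟨b', hb | hb⟩
      · rw [ha, hb, h0, h0] at hab
        have := hσ (by omega : σ a' = σ b')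
        omega
      · rw [ha, hb, h0, h1] at hab
        omega
      · rw [ha, hb, h1, h0] at hab
        omega
      · rw [ha, hb, h1, h1] at hab
        have := hτ (by omega : τ a' = τ b')
        omega
    have h2 : ∀ X : Pt, rl (fun i => 2 * i) (fun j => 2 * j + 1) (rl σ τ X) =
        rl ρ ρ (rl (fun i => 2 * i) (fun j => 2 * j + 1) X) := by
      intro X
      rw [nbip_rl, nbip_rl]
      simp only [h0, h1]
    unfold bk
    rw [h2, h2]
    exact h.inv ρ hinj _ _
  · have h1 := h.rem (nbe X) (nbe Y) (2 * i) (fun c hc => by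
      rw [nbip_mem, nbip_mem]
      constructor
      · rintro ⟨a, b, h1, h2, h3⟩
        have : a = i := by omega
        subst this
        exact ⟨a, b, (hi b).1 h1, h2, h3⟩
      · rintro ⟨a, b, h1, h2, h3⟩
        have : a = i := by omega
        subst this
        exact ⟨a, b, (hi b).2 h1, h2, h3⟩)
    have h2 : ∀ X : Pt, (nbe X).filter (fun c => c.1 ≠ 2 * i ∧ c.2 ≠ 2 * i) =
        nbe (X.filter (fun c => c.1 ≠ i)) := by
      intro X
      ext c
      rw [mem_filter, nbip_mem, nbip_mem]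
      constructor
      · rintro ⟨⟨a, b, h1, h2, h3⟩, h4, h5⟩
        exact ⟨a, b, mem_filter.2 ⟨h1, fun h => h4 (by
          have h' : a = i := h
          omega)⟩, h2, h3⟩
      · rintro ⟨a, b, h1, h2, h3⟩
        rw [mem_filter] at h1
        have h4 : a ≠ i := h1.2
        exact ⟨⟨a, b, h1.1, h2, h3⟩, by omega, by omega⟩
    rw [h2, h2] at h1
    exact h1
  · have h1 := h.rem (nbe X) (nbe Y) (2 * j + 1) (fun c hc => by
      rw [nbip_mem, nbip_mem]
      constructor
      · rintro ⟨a, b, h1, h2, h3⟩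
        have : b = j := by omega
        subst this
        exact ⟨a, b, (hj a).1 h1, h2, h3⟩
      · rintro ⟨a, b, h1, h2, h3⟩
        have : b = j := by omega
        subst this
        exact ⟨a, b, (hj a).2 h1, h2, h3⟩)
    have h2 : ∀ X : Pt, (nbe X).filter (fun c => c.1 ≠ 2 * j + 1 ∧ c.2 ≠ 2 * j + 1) =
        nbe (X.filter (fun c => c.2 ≠ j)) := by
      intro X
      ext c
      rw [mem_filter, nbip_mem, nbip_mem]
      constructor
      · rintro ⟨⟨a, b, h1, h2, h3⟩, h4, h5⟩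
        exact ⟨a, b, mem_filter.2 ⟨h1, fun h => h5 (by
          have h' : b = j := h
          omega)⟩, h2, h3⟩
      · rintro ⟨a, b, h1, h2, h3⟩
        rw [mem_filter] at h1
        have h4 : b ≠ j := h1.2
        exact ⟨⟨a, b, h1.1, h2, h3⟩, by omega, by omega⟩
    rw [h2, h2] at h1
    exact h1

end Pool.Agent.Lib.MP_90b327_co.NS
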