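import Mathlib
import Pool.Agent.Lib.MP_90b327_co.NS.NDefs
import Pool.Agent.Lib.MP_90b327_co.RB.DiffOnly

/-!
MODULE NKer (25 minutes, old scale). Text sections 1, 2.

PROOFS. `ker_of`: `one` from `h.diag` (`D / D = 1`); `herm` from `h.symm` (real values); `psd`: for `ι, X, c`
with `c i = p i + q i I` the real part of the sum is `(∑∑ p i p j g + ∑∑ q i q j g) / D ≥ 0` by `h.psd`
(`D² (∑)² ≥ 0`); `rel`: first case `RB.pker_diff h`, second case `h.inv`.
`ker_tr` (compare `chr_tr` in RB/ToTwoA.lean, finished, whose proof can be copied): `tr` is an involution,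
injective, `tr (rl σ τ X) = rl τ σ (tr X)`, `tr (insert c X) = insert c.swap (tr X)`; `psd` with the patterns
`tr (X i)`.
`ker_12`: related by `R2` implies related by `R1` (`τ = id`).
-/

set_option autoImplicit false

namespace Pool.Agent.Lib.MP_90b327_co.NS

open Finset Pool.Agent.Lib.MP_90b327_co Pool.Agent.Lib.MP_90b327_co.RB

private theorem nker_re (p q p' q' r : ℝ) :
    ((starRingEnd ℂ) (⟨p, q⟩ : ℂ) * (⟨p', q'⟩ : ℂ) * ((r : ℝ) : ℂ)).re = (p * p' + q * q') * r := by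
  simp only [Complex.mul_re, Complex.mul_im, Complex.conj_re, Complex.conj_im, Complex.ofReal_re,
    Complex.ofReal_im]
  ring

theorem ker_of {D : ℝ} {g : Pt → Pt → ℝ} (h : PKer (fun _ _ => False) D g) (hD : 0 < D) :
    Ker R1 (fun X Y => ((g X Y / D : ℝ) : ℂ)) := by
  refine ⟨fun X => ?_, fun X Y => ?_, fun ι _ X c => ?_, fun X Y X' Y' hR => ?_⟩
  · rw [h.diag, div_self hD.ne', Complex.ofReal_one]
  · rw [Complex.conj_ofReal, h.symm]
  · rw [Complex.re_sum]
    have h1 : ∀ i, (∑ j, (starRingEnd ℂ) (c i) * c j * ((g (X i) (X j) / D : ℝ) : ℂ)).re =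
        ∑ j, ((c i).re * (c j).re + (c i).im * (c j).im) * (g (X i) (X j) / D) := by
      intro i
      rw [Complex.re_sum]
      refine Finset.sum_congr rfl fun j _ => ?_
      exact nker_re _ _ _ _ _
    rw [Finset.sum_congr rfl fun i _ => h1 i]
    have h2 : ∑ i, ∑ j, ((c i).re * (c j).re + (c i).im * (c j).im) * (g (X i) (X j) / D) =
        (∑ i, ∑ j, (c i).re * (c j).re * g (X i) (X j) +
          ∑ i, ∑ j, (c i).im * (c j).im * g (X i) (X j)) / D := by
      rw [← Finset.sum_add_distrib, Finset.sum_div]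
      refine Finset.sum_congr rfl fun i _ => ?_
      rw [← Finset.sum_add_distrib, Finset.sum_div]
      refine Finset.sum_congr rfl fun j _ => ?_
      ring
    rw [h2]
    have h3 := h.psd ι X (fun i => (c i).re)
    have h4 := h.psd ι X (fun i => (c i).im)
    have h5 : 0 ≤ D ^ 2 * (∑ i, (c i).re) ^ 2 := by positivity
    have h6 : 0 ≤ D ^ 2 * (∑ i, (c i).im) ^ 2 := by positivity
    exact div_nonneg (by linarith) hD.le
  · have h1 : g X' Y' = g X Y := by
      rcases hR with ⟨c, h1, h2, h3, h4⟩ | ⟨σ, τ, h1, h2, h3, h4⟩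
      · rw [h3, h4]
        exact pker_diff h X Y c h1 h2
      · rw [h3, h4]
        exact h.inv σ τ h1 h2 X Y
    rw [h1]

private theorem nker_mem (X : Pt) (a b : ℕ) : (a, b) ∈ tr X ↔ (b, a) ∈ X := by
  unfold tr
  rw [Finset.mem_image]
  constructor
  · rintro ⟨⟨c, d⟩, h, h'⟩
    obtain ⟨rfl, rfl⟩ := Prod.mk.inj h'
    exact h
  · intro h
    exact ⟨(b, a), h, rfl⟩

private theorem nker_rl (σ τ : ℕ → ℕ) (X : Pt) : tr (rl σ τ X) = rl τ σ (tr X) := by
  unfold tr rl
  rw [Finset.image_image, Finset.image_image]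
  rfl

private theorem nker_ins (c : ℕ × ℕ) (X : Pt) : tr (insert c X) = insert c.swap (tr X) :=
  Finset.image_insert _ _ _

theorem ker_tr {κ : Pt → Pt → ℂ} (h : Ker R1 κ) : Ker R1 (fun X Y => κ (tr X) (tr Y)) := by
  refine ⟨fun X => h.one _, fun X Y => h.herm _ _, ?_, ?_⟩
  · intro ι _ X c
    exact h.psd ι (fun i => tr (X i)) c
  · intro X Y X' Y' hR
    refine h.rel _ _ _ _ ?_
    rcases hR with ⟨c, hX, hY, rfl, rfl⟩ | ⟨σ, τ, hσ, hτ, rfl, rfl⟩
    · refine Or.inl ⟨c.swap, ?_, ?_, nker_ins c X, nker_ins c Y⟩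
      · obtain ⟨a, b⟩ := c
        exact fun h => hX ((nker_mem X b a).mp h)
      · obtain ⟨a, b⟩ := c
        exact fun h => hY ((nker_mem Y b a).mp h)
    · exact Or.inr ⟨τ, σ, hτ, hσ, nker_rl σ τ X, nker_rl σ τ Y⟩

theorem ker_12 {κ : Pt → Pt → ℂ} (h : Ker R1 κ) : Ker R2 κ := by
  refine ⟨h.one, h.herm, h.psd, fun X Y X' Y' hR => h.rel X Y X' Y' ?_⟩
  rcases hR with h1 | ⟨σ, h1, h2, h3⟩
  · exact Or.inl h1
  · exact Or.inr ⟨σ, id, h1, Function.injective_id, h2, h3⟩

end Pool.Agent.Lib.MP_90b327_co.NS
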