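import Mathlib
import Pool.Agent.Lib.MP_90b327_co.NS.NDefs
import Pool.Agent.Lib.MP_90b327_co.RB.RepC
import Pool.Agent.Lib.MP_90b327_co.RB.Mg
import Pool.Agent.Lib.MP_90b327_co.RB.Gram
import Pool.Agent.Lib.MP_90b327_co.RB.RowMul
import Pool.Agent.Lib.MP_90b327_co.RB.RowSpace

/-!
MODULE NRow (20 minutes, old scale). Text section 2: row space of a kernel.

PROOF = module RB/RowSpace.lean (helper75) with `Ker R2 κ` instead of a character; if RowSpace.lean is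
finished, copy it. `rep mrg2 κ h` gives `ρ : Repr m2 R2 κ`. Put `Ω = ρ.Ω`, `P = ρ.P`,
`z x y ω = ρ.th ω ({0} ×ˢ x) ({0} ×ˢ y)`. `meas`: `ρ.meas`. `herm`: `(ρ.ker ω).herm`. `norm_le`: `ker_norm_le`.
`gram`: `gram3` for `ρ.th ω` with `X = {0} ×ˢ (x ∪ u)`, `Y = {0} ×ˢ (y ∪ u)`, `Z = {0} ×ˢ (y ∪ v)`;
`diff_union2` with `C = {0} ×ˢ u` gives `th X Y = z x y ω` (`u` is disjoint from `x`, `y`), with
`C = {0} ×ˢ y` it gives `th Y Z = z u v ω`.
`IsRow`: `ρ.mean` and `row_prod (ρ.ker ω) (ρ.mul ω)`.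
-/

set_option autoImplicit false

namespace Pool.Agent.Lib.MP_90b327_co.NS

open Finset Pool.Agent.Lib.MP_90b327_co Pool.Agent.Lib.MP_90b327_co.RB

theorem exists_row_ker {κ : Pt → Pt → ℂ} (h : Ker R2 κ) : ∃ s : Sp, IsRow κ s := exists_row2 h

end Pool.Agent.Lib.MP_90b327_co.NS
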