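import Mathlib
import Pool.Agent.Lib.MP_90b327_co.NS.NDefs
import Pool.Agent.Lib.MP_90b327_co.NS.NKer
import Pool.Agent.Lib.MP_90b327_co.NS.NRow
import Pool.Agent.Lib.MP_90b327_co.NS.NBip
import Pool.Agent.Lib.MP_90b327_co.NS.Inj
import Pool.Agent.Lib.MP_90b327_co.RB.ToTwoB

/-!
MODULE NDat (40 minutes, old scale). Text section 2: the two one-sided spaces of the limit kernel.

PROOF. `κ X Y = ((bk g X Y / D : ℝ) : ℂ)`, `Ker R1 κ` by `ker_of (bip h) hD`. `s` = row space of `κ`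
(`exists_row_ker (ker_12 _)`), `s'` = row space of `fun X Y => κ (tr X) (tr Y)` (`ker_tr`).
`W = wv κ`, `r = s`, `c = s'`.
Two rows classes: `hs : IsRow κ s` with `n = 2`, `I = ![f, e]`, `x = ![x, y]`, `y = ![y, x]` (`e`, `f` disjoint sets
of rows) gives `∫ s.z x y ^ f.card * s.z y x ^ e.card = κ (neg e f x y) (pos e f x y)` (compare `row_four` in
RB/ToTwoB.lean, finished, which can be used with `g = h = ∅`).
`mom`: `f = range p`, `e = Ico p (p + q)`, then `w_inv1`.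
`mom'`: the same for `s'`: rows `f = range a`, `e = Ico a (a + b)`, columns `x`, `y`;
`κ (tr (neg e f x y)) (tr (pos e f x y)) = κ (neg x y e f) (pos x y e f) = wv κ y.card x.card a b` (`tr_neg`,
`tr_pos`, `w_inv1`).
`exch`: `IsRow` with `n = 6`: rows `I k` = pairwise disjoint sets of `p 0, q 0, p 1, q 1, p 2, q 2` elements,
columns `∅ → u k` for `p k`, `u k → ∅` for `q k`; `exists_inj 3 u v` gives `σ` with `(u k).image σ = v k`, and
`row_inv` compares the two values of `κ`.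
`Link`: `w_inv1` with `x = ∅`: `neg e f ∅ y = e ×ˢ y`, `pos e f ∅ y = f ×ˢ y`.
-/

set_option autoImplicit false

namespace Pool.Agent.Lib.MP_90b327_co.NS

open Finset Pool.Agent.Lib.MP_90b327_co Pool.Agent.Lib.MP_90b327_co.RB

private theorem NDat_two {θ : Pt → Pt → ℂ} {s : Sp} (hs : IsRow θ s) (e f x y : Finset ℕ)
    (hef : Disjoint e f) :
    ∫ ω, s.z x y ω ^ f.card * s.z y x ω ^ e.card ∂s.P = θ (neg e f x y) (pos e f x y) := by
  have h := row_four hs e f ∅ ∅ x y ∅ ∅ hef (Finset.disjoint_empty_left _)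
    (by rw [Finset.union_empty]; exact Finset.disjoint_empty_right _)
  have h1 : neg ∅ ∅ ∅ ∅ = (∅ : Pt) := rfl
  have h2 : pos ∅ ∅ ∅ ∅ = (∅ : Pt) := rfl
  rw [h1, h2, Finset.union_empty, Finset.union_empty] at h
  rw [← h]
  refine MeasureTheory.integral_congr_ae (Filter.Eventually.of_forall fun ω => ?_)
  simp only [Finset.card_empty, pow_zero, mul_one]

/-- pairwise disjoint sets of given sizes -/
private def NDat_I (m : Fin 6 → ℕ) (k : Fin 6) : Finset ℕ :=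
  (range (m k)).image (fun j => 6 * j + (k : ℕ))

private theorem NDat_card (m : Fin 6 → ℕ) (k : Fin 6) : (NDat_I m k).card = m k := by
  unfold NDat_I
  rw [Finset.card_image_of_injective, Finset.card_range]
  intro a b hab
  simp only at hab
  omega

private theorem NDat_disj (m : Fin 6 → ℕ) (k l : Fin 6) (hkl : k ≠ l) :
    Disjoint (NDat_I m k) (NDat_I m l) := by
  rw [Finset.disjoint_left]
  intro a ha hb
  unfold NDat_I at ha hb
  rw [Finset.mem_image] at ha hb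
  obtain ⟨i, -, hi⟩ := ha
  obtain ⟨j, -, hj⟩ := hb
  apply hkl
  apply Fin.ext
  have h1 := k.2
  have h2 := l.2
  omega

/-- values of the kernel at three classes of rows -/
private theorem NDat_three {θ : Pt → Pt → ℂ} {s : Sp} (hs : IsRow θ s) (u : Fin 3 → Finset ℕ)
    (p q : Fin 3 → ℕ) :
    ∫ ω, ∏ k, (s.z ∅ (u k) ω ^ p k * s.z (u k) ∅ ω ^ q k) ∂s.P =
      θ (stk (NDat_I ![p 0, q 0, p 1, q 1, p 2, q 2]) ![∅, u 0, ∅, u 1, ∅, u 2])
        (stk (NDat_I ![p 0, q 0, p 1, q 1, p 2, q 2]) ![u 0, ∅, u 1, ∅, u 2, ∅]) := by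
  rw [hs 6 _ _ _ (NDat_disj _)]
  refine MeasureTheory.integral_congr_ae (Filter.Eventually.of_forall fun ω => ?_)
  simp only [Fin.prod_univ_six, Fin.prod_univ_three, NDat_card]
  show (s.z ∅ (u 0) ω ^ p 0 * s.z (u 0) ∅ ω ^ q 0) * (s.z ∅ (u 1) ω ^ p 1 * s.z (u 1) ∅ ω ^ q 1) *
      (s.z ∅ (u 2) ω ^ p 2 * s.z (u 2) ∅ ω ^ q 2) =
    s.z ∅ (u 0) ω ^ p 0 * s.z (u 0) ∅ ω ^ q 0 * s.z ∅ (u 1) ω ^ p 1 * s.z (u 1) ∅ ω ^ q 1 *
      s.z ∅ (u 2) ω ^ p 2 * s.z (u 2) ∅ ω ^ q 2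
  ring

theorem exists_dat {M : ℕ} {w : ℕ → ℕ} {D : ℝ} {g : Pt → Pt → ℝ} (h : JKer M w D g)
    (hD : 0 < D) : ∃ T : Dat, Link g D T := by
  have hκ : Ker R1 (fun X Y => ((bk g X Y / D : ℝ) : ℂ)) := ker_of (bip h) hD
  obtain ⟨κ, hκd⟩ : ∃ κ : Pt → Pt → ℂ, κ = fun X Y => ((bk g X Y / D : ℝ) : ℂ) := ⟨_, rfl⟩
  rw [← hκd] at hκ
  obtain ⟨s, hs⟩ := exists_row_ker (ker_12 hκ)
  obtain ⟨s', hs'⟩ := exists_row_ker (ker_12 (ker_tr hκ))
  have hIco : ∀ a b : ℕ, (Ico a (a + b)).card = b := by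
    intro a b
    rw [Nat.card_Ico]
    omega
  have hdis : ∀ a b : ℕ, Disjoint (Ico a (a + b)) (range a) := by
    intro a b
    rw [Finset.disjoint_left]
    intro i hi hi'
    rw [Finset.mem_Ico] at hi
    rw [Finset.mem_range] at hi'
    omega
  refine ⟨⟨wv κ, s, s', ?_, ?_, ?_⟩, ?_⟩
  · intro x y hxy p q
    have h1 := NDat_two hs (Ico p (p + q)) (range p) x y (hdis p q)
    rw [w_inv1 hκ _ _ _ _ (hdis p q) hxy, hIco, Finset.card_range] at h1
    exact h1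
  · intro x y hxy a b
    have h1 := NDat_two hs' (Ico a (a + b)) (range a) x y (hdis a b)
    rw [tr_neg, tr_pos, w_inv1 hκ _ _ _ _ hxy (hdis a b), hIco, Finset.card_range] at h1
    exact h1
  · intro u v hu hv hc p q
    obtain ⟨σ, hσ, himg⟩ := exists_inj 3 u v hu hv hc
    rw [NDat_three hs u p q, NDat_three hs v p q, ← row_inv hκ 6 _ _ _ σ hσ]
    have hx : ∀ (u0 u1 u2 u3 u4 u5 : Finset ℕ),
        (fun k : Fin 6 => ((![u0, u1, u2, u3, u4, u5] : Fin 6 → Finset ℕ) k).image σ) =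
          ![u0.image σ, u1.image σ, u2.image σ, u3.image σ, u4.image σ, u5.image σ] := by
      intro u0 u1 u2 u3 u4 u5
      funext k
      fin_cases k <;> rfl
    rw [hx, hx, himg, himg, himg, Finset.image_empty]
  · intro e f y hef
    have h1 := w_inv1 hκ e f ∅ y hef (Finset.disjoint_empty_left _)
    have h2 : neg e f ∅ y = e ×ˢ y := by
      unfold neg
      rw [Finset.product_empty, Finset.empty_union]
    have h3 : pos e f ∅ y = f ×ˢ y := by
      unfold pos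
      rw [Finset.product_empty, Finset.union_empty]
    rw [h2, h3, Finset.card_empty] at h1
    show ((bk g (e ×ˢ y) (f ×ˢ y) / D : ℝ) : ℂ) = wv κ f.card e.card y.card 0
    rw [← h1, hκd]

end Pool.Agent.Lib.MP_90b327_co.NS
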