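import Mathlib
import Pool.Agent.Lib.MP_90b327_co.NS.NDefs
import Pool.Agent.Lib.MP_90b327_co.RB.GGa

/-!
MODULE NJoint (45 minutes, old scale). Text section 0: the limit kernel on finite patterns.

A finite pattern `X` with all coordinates `< n` is written on the `n` vertices `Fin n`:
`emj n X c = true` iff `(c 1, c 0) ∈ X` (the coordinates are EXCHANGED on purpose).

PROOF. For `X Y : Pt` let `n X Y` be larger than all coordinates of the cells of `X` and `Y` (for instance
`(X ∪ Y).sup (fun c => max c.1 c.2) + 1`) and `g X Y := L.G (n X Y) (emj _ X) (emj _ Y)`.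
(0) `g X Y = L.G n (emj n X) (emj n Y)` for EVERY `n` larger than all coordinates: `L.ext n n' (castLE)`
(outside the range both patterns are false); compare both with the maximum.
`symm`, `diag`: from `L.symm`, `L.diag`.
`psd`: one `n` for the whole family; `L.psd` with the patterns `emj n (X i)` (index set transported to
`Fin (card ι)`) and `a₀ = - D * ∑ a`: `0 ≤ D² (∑a)² - 2 D² (∑a)² + ∑∑`.
`inv`: `n` large for `X`, `Y`, `n'` larger than all `σ v`, `v < n`; `L.ext n n' (fun v => ⟨σ v, _⟩)`: a cell of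
`Fin n'` not in the range is false in both images (the cells of `rl σ σ X` are `(σ i, σ j)`, `i, j < n`), and
`emj n' (rl σ σ X) (ι ∘ c) = emj n X c` by injectivity of `σ`.
`rem`: `RB.g_rem` (module GGa, for `RLim`; apply it to the `RLim (fun _ _ => False) D` with the same fields as
`L`, its field `bad` is void) with `K = n`, the vertex `v` (if `v ≥ n` no cell of `X`, `Y` contains `v`, and
the filters do nothing). `c 0 = v ∨ c 1 = v` is symmetric, so the exchange of coordinates is harmless. The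
new patterns are `emj n (X.filter _)`, `emj n (Y.filter _)`.
`bad`: `L.bad n (emj n X) (emj n (X ∪ I ×ˢ J)) γ γ'` with `γ` = the vertices in `J` (first coordinate `c 0`), `γ'` = the
vertices in `I` (second coordinate `c 1`); `n` larger than all elements of `I`, `J` as well; `Near M w J I`
gives `Near M w γ γ'` (same cardinalities).
-/

set_option autoImplicit false

namespace Pool.Agent.Lib.MP_90b327_co.NS

open Finset Pool.Agent.Lib.MP_90b327_co Pool.Agent.Lib.MP_90b327_co.RB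

/-- the pattern `X` on `n` vertices, coordinates exchanged -/
def emj (n : ℕ) (X : Pt) : Pat 2 n := fun c => decide (((c 1 : ℕ), (c 0 : ℕ)) ∈ X)

private def njN (X : Pt) : ℕ := X.sup (fun c => max c.1 c.2) + 1

private theorem njN_lt (X : Pt) : ∀ c ∈ X, c.1 < njN X ∧ c.2 < njN X := by
  intro c hc
  have h : max c.1 c.2 ≤ X.sup (fun c => max c.1 c.2) := Finset.le_sup (f := fun c : ℕ × ℕ => max c.1 c.2) hc
  unfold njN
  have h1 := le_max_left c.1 c.2
  have h2 := le_max_right c.1 c.2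
  omega

private def njM (X Y : Pt) : ℕ := max (njN X) (njN Y)

private theorem njM_left (X Y : Pt) : ∀ c ∈ X, c.1 < njM X Y ∧ c.2 < njM X Y := by
  intro c hc
  have h := njN_lt X c hc
  have h1 : njN X ≤ njM X Y := le_max_left _ _
  omega

private theorem njM_right (X Y : Pt) : ∀ c ∈ Y, c.1 < njM X Y ∧ c.2 < njM X Y := by
  intro c hc
  have h := njN_lt Y c hc
  have h1 : njN Y ≤ njM X Y := le_max_right _ _
  omega

private noncomputable def nj {M : ℕ} {w : ℕ → ℕ} {D : ℝ} (L : NLim M w D) (X Y : Pt) : ℝ :=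
  L.G (njM X Y) (emj _ X) (emj _ Y)

private theorem nj_ext {M : ℕ} {w : ℕ → ℕ} {D : ℝ} (L : NLim M w D) (n n' : ℕ) (σ : ℕ → ℕ)
    (hσ : Function.Injective σ) (h : ∀ v, v < n → σ v < n') (X Y : Pt)
    (hX : ∀ c ∈ X, c.1 < n ∧ c.2 < n) (hY : ∀ c ∈ Y, c.1 < n ∧ c.2 < n) :
    L.G n' (emj n' (rl σ σ X)) (emj n' (rl σ σ Y)) = L.G n (emj n X) (emj n Y) := by
  classical
  obtain ⟨ι, hι⟩ : ∃ ι : Fin n → Fin n', ∀ v : Fin n, (ι v : ℕ) = σ v :=
    ⟨fun v => ⟨σ v, h v v.2⟩, fun v => rfl⟩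
  have hinj : Function.Injective ι := by
    intro a b hab
    have h1 := congrArg Fin.val hab
    rw [hι, hι] at h1
    exact Fin.ext (hσ h1)
  have hin : ∀ Z : Pt, (fun c => emj n' (rl σ σ Z) (ι ∘ c)) = emj n Z := by
    intro Z
    funext c
    unfold emj rl
    rw [decide_eq_decide, Finset.mem_image]
    simp only [Function.comp_apply, hι]
    constructor
    · rintro ⟨c', hc', hcc⟩
      rw [Prod.mk.injEq] at hcc
      have h1 := hσ hcc.1
      have h2 := hσ hcc.2
      rw [← h1, ← h2]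
      exact hc'
    · intro h1
      exact ⟨_, h1, rfl⟩
  have hout : ∀ Z : Pt, (∀ c ∈ Z, c.1 < n ∧ c.2 < n) → ∀ c : Fin 2 → Fin n',
      (¬ ∃ c' : Fin 2 → Fin n, c = ι ∘ c') → emj n' (rl σ σ Z) c = false := by
    intro Z hZ c hc
    unfold emj rl
    rw [decide_eq_false_iff_not, Finset.mem_image]
    rintro ⟨c', hc', hcc⟩
    rw [Prod.mk.injEq] at hcc
    obtain ⟨h4, h5⟩ := hZ _ hc'
    apply hc
    refine ⟨![⟨c'.2, h5⟩, ⟨c'.1, h4⟩], ?_⟩
    funext i
    fin_cases i
    · apply Fin.ext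
      exact hcc.2.symm.trans (hι ⟨c'.2, h5⟩).symm
    · apply Fin.ext
      exact hcc.1.symm.trans (hι ⟨c'.1, h4⟩).symm
  rw [L.ext n n' ι hinj (emj n' (rl σ σ X)) (emj n' (rl σ σ Y))
    (fun c hc => by rw [hout X hX c hc, hout Y hY c hc]), hin X, hin Y]

private theorem nj_mono {M : ℕ} {w : ℕ → ℕ} {D : ℝ} (L : NLim M w D) {n n' : ℕ} (h : n ≤ n') (X Y : Pt)
    (hX : ∀ c ∈ X, c.1 < n ∧ c.2 < n) (hY : ∀ c ∈ Y, c.1 < n ∧ c.2 < n) :
    L.G n' (emj n' X) (emj n' Y) = L.G n (emj n X) (emj n Y) := by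
  have hr : ∀ X : Pt, rl id id X = X := by
    intro X
    unfold rl
    have : (fun c : ℕ × ℕ => (id c.1, id c.2)) = id := by
      funext c
      rfl
    rw [this, Finset.image_id]
  have := nj_ext L n n' id Function.injective_id (fun v hv => lt_of_lt_of_le hv h) X Y hX hY
  rwa [hr, hr] at this

private theorem nj_eq {M : ℕ} {w : ℕ → ℕ} {D : ℝ} (L : NLim M w D) {n : ℕ} {X Y : Pt}
    (hX : ∀ c ∈ X, c.1 < n ∧ c.2 < n) (hY : ∀ c ∈ Y, c.1 < n ∧ c.2 < n) :
    nj L X Y = L.G n (emj n X) (emj n Y) := by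
  unfold nj
  rw [← nj_mono L (le_max_left (njM X Y) n) X Y (njM_left X Y) (njM_right X Y),
    nj_mono L (le_max_right (njM X Y) n) X Y hX hY]

private theorem nj_psd {M : ℕ} {w : ℕ → ℕ} {D : ℝ} (L : NLim M w D) (ι : Type) [Fintype ι] (X : ι → Pt)
    (a : ι → ℝ) : D ^ 2 * (∑ i, a i) ^ 2 ≤ ∑ i, ∑ j, a i * a j * nj L (X i) (X j) := by
  classical
  obtain ⟨n, hn⟩ : ∃ n : ℕ, ∀ i, ∀ c ∈ X i, c.1 < n ∧ c.2 < n := by
    refine ⟨njN (Finset.univ.biUnion X), fun i c hc => njN_lt _ c ?_⟩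
    exact Finset.mem_biUnion.mpr ⟨i, Finset.mem_univ _, hc⟩
  have e1 : ∀ i j, nj L (X i) (X j) = L.G n (emj n (X i)) (emj n (X j)) :=
    fun i j => nj_eq L (hn i) (hn j)
  simp only [e1]
  let e := Fintype.equivFin ι
  have h := L.psd n (Fintype.card ι) (fun k => emj n (X (e.symm k))) (fun k => a (e.symm k))
    (-D * ∑ i, a i)
  have e2 : ∑ k, a (e.symm k) = ∑ i, a i := Equiv.sum_comp e.symm a
  have e3 : ∑ i : Fin (Fintype.card ι), ∑ j : Fin (Fintype.card ι), a (e.symm i) * a (e.symm j) *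
      L.G n (emj n (X (e.symm i))) (emj n (X (e.symm j))) =
      ∑ i, ∑ j, a i * a j * L.G n (emj n (X i)) (emj n (X j)) := by
    rw [← Equiv.sum_comp e.symm]
    refine Finset.sum_congr rfl fun i _ => ?_
    exact Equiv.sum_comp e.symm (fun j => a (e.symm i) * a j * L.G n (emj n (X (e.symm i))) (emj n (X j)))
  rw [e2, e3] at h
  nlinarith [h]

private theorem nj_inv {M : ℕ} {w : ℕ → ℕ} {D : ℝ} (L : NLim M w D) (σ : ℕ → ℕ)
    (hσ : Function.Injective σ) (X Y : Pt) : nj L (rl σ σ X) (rl σ σ Y) = nj L X Y := by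
  set n := njM X Y with hn
  obtain ⟨n', hn'⟩ : ∃ n' : ℕ, ∀ v, v < n → σ v < n' := by
    refine ⟨(Finset.range n).sup σ + 1, fun v hv => ?_⟩
    have h : σ v ≤ (Finset.range n).sup σ := Finset.le_sup (f := σ) (Finset.mem_range.mpr hv)
    omega
  have hb : ∀ Z : Pt, (∀ c ∈ Z, c.1 < n ∧ c.2 < n) → ∀ c ∈ rl σ σ Z, c.1 < n' ∧ c.2 < n' := by
    intro Z hZ c hc
    unfold rl at hc
    rw [Finset.mem_image] at hc
    obtain ⟨c', hc', rfl⟩ := hc
    exact ⟨hn' _ (hZ c' hc').1, hn' _ (hZ c' hc').2⟩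
  rw [nj_eq L (hb X (njM_left X Y)) (hb Y (njM_right X Y)),
    nj_ext L n n' σ hσ hn' X Y (njM_left X Y) (njM_right X Y)]
  rfl

/-- the same data as an `RLim` without bad pairs -/
private def nj_rlim {M : ℕ} {w : ℕ → ℕ} {D : ℝ} (L : NLim M w D) : RLim (fun _ _ => False) D where
  G := L.G
  symm := L.symm
  nonneg := L.nonneg
  diag := L.diag
  ext := L.ext
  psd := L.psd
  bad := fun _ _ _ _ _ h => h.elim

private theorem nj_rem {M : ℕ} {w : ℕ → ℕ} {D : ℝ} (L : NLim M w D) (X Y : Pt) (v : ℕ)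
    (h : ∀ c : ℕ × ℕ, (c.1 = v ∨ c.2 = v) → (c ∈ X ↔ c ∈ Y)) :
    nj L X Y = nj L (X.filter (fun c => c.1 ≠ v ∧ c.2 ≠ v)) (Y.filter (fun c => c.1 ≠ v ∧ c.2 ≠ v)) := by
  set n := njM X Y with hn
  by_cases hi : v < n
  · have hX' : ∀ c ∈ X.filter (fun c => c.1 ≠ v ∧ c.2 ≠ v), c.1 < n ∧ c.2 < n :=
      fun c hc => njM_left X Y c (Finset.mem_filter.mp hc).1
    have hY' : ∀ c ∈ Y.filter (fun c => c.1 ≠ v ∧ c.2 ≠ v), c.1 < n ∧ c.2 < n :=
      fun c hc => njM_right X Y c (Finset.mem_filter.mp hc).1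
    rw [nj_eq L hX' hY', nj_eq L (njM_left X Y) (njM_right X Y), ← hn]
    obtain ⟨u, hu⟩ : ∃ u : Fin n, (u : ℕ) = v := ⟨⟨v, hi⟩, rfl⟩
    have e : ∀ Z : Pt, (fun c : Fin 2 → Fin n => if c 0 = u ∨ c 1 = u then false else emj n Z c) =
        emj n (Z.filter (fun c => c.1 ≠ v ∧ c.2 ≠ v)) := by
      intro Z
      funext c
      by_cases h0 : c 0 = u ∨ c 1 = u
      · rw [if_pos h0]
        symm
        unfold emj
        rw [decide_eq_false_iff_not, Finset.mem_filter]
        rintro ⟨_, h3, h4⟩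
        rcases h0 with h0 | h0
        · apply h4
          simp only [h0, hu]
        · apply h3
          simp only [h0, hu]
      · rw [if_neg h0]
        push Not at h0
        unfold emj
        have h1 : ((c 0 : Fin n) : ℕ) ≠ v := by
          intro hh
          exact h0.1 (Fin.ext (hh.trans hu.symm))
        have h2 : ((c 1 : Fin n) : ℕ) ≠ v := by
          intro hh
          exact h0.2 (Fin.ext (hh.trans hu.symm))
        rw [decide_eq_decide, Finset.mem_filter]
        exact ⟨fun h3 => ⟨h3, h2, h1⟩, fun h3 => h3.1⟩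
    have h1 := g_rem (nj_rlim L) n (emj n X) (emj n Y) u (by
      intro c hc
      unfold emj
      rw [decide_eq_decide]
      apply h
      rcases hc with hc | hc
      · right
        simp only [hc, hu]
      · left
        simp only [hc, hu])
    rw [e, e] at h1
    exact h1
  · have hf : ∀ Z : Pt, (∀ c ∈ Z, c.1 < n ∧ c.2 < n) →
        Z.filter (fun c => c.1 ≠ v ∧ c.2 ≠ v) = Z := by
      intro Z hZ
      rw [Finset.filter_true_of_mem]
      intro c hc
      have := hZ c hc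
      omega
    rw [hf X (njM_left X Y), hf Y (njM_right X Y)]

private theorem nj_bad {M : ℕ} {w : ℕ → ℕ} {D : ℝ} (L : NLim M w D) (X : Pt) (I J : Finset ℕ)
    (hS : Near M w J I) (hd : Disjoint X (I ×ˢ J)) : nj L X (X ∪ I ×ˢ J) = 0 := by
  set n := njM X (X ∪ I ×ˢ J) + I.sup id + J.sup id + 1 with hn
  have hX : ∀ c ∈ X, c.1 < n ∧ c.2 < n := by
    intro c hc
    have := njM_left X (X ∪ I ×ˢ J) c hc
    omega
  have hY : ∀ c ∈ X ∪ I ×ˢ J, c.1 < n ∧ c.2 < n := by
    intro c hc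
    have := njM_right X (X ∪ I ×ˢ J) c hc
    omega
  have hI : ∀ i ∈ I, i < n := by
    intro i hi
    have : i ≤ I.sup id := Finset.le_sup (f := id) hi
    omega
  have hJ : ∀ j ∈ J, j < n := by
    intro j hj
    have : j ≤ J.sup id := Finset.le_sup (f := id) hj
    omega
  rw [nj_eq L hX hY]
  have hcard : ∀ I : Finset ℕ, (∀ i ∈ I, i < n) →
      (Finset.univ.filter (fun w : Fin n => (w : ℕ) ∈ I)).card = I.card := by
    intro I hI
    have : (Finset.univ.filter (fun w : Fin n => (w : ℕ) ∈ I)).image (fun w : Fin n => (w : ℕ)) = I := by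
      ext i
      rw [Finset.mem_image]
      constructor
      · rintro ⟨w, hw, rfl⟩
        exact (Finset.mem_filter.mp hw).2
      · intro hi
        exact ⟨⟨i, hI i hi⟩, Finset.mem_filter.mpr ⟨Finset.mem_univ _, hi⟩, rfl⟩
    rw [← Finset.card_image_of_injective _ (Fin.val_injective (n := n)), this]
  have m1 : ∀ (I : Finset ℕ) (w : Fin n),
      w ∈ Finset.univ.filter (fun w : Fin n => (w : ℕ) ∈ I) ↔ (w : ℕ) ∈ I := by
    intro I w
    simp only [Finset.mem_filter, Finset.mem_univ, true_and]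
  apply L.bad n (emj n X) (emj n (X ∪ I ×ˢ J)) (Finset.univ.filter (fun w : Fin n => (w : ℕ) ∈ J))
    (Finset.univ.filter (fun w : Fin n => (w : ℕ) ∈ I))
  · refine ⟨fun w hw => (m1 I w).mpr (hS.1 ((m1 J w).mp hw)), ?_, ?_⟩
    · rw [hcard J hJ]
      exact hS.2.1
    · rw [hcard J hJ, hcard I hI]
      exact hS.2.2
  · intro c h0 h1
    rw [m1] at h0 h1
    unfold emj
    rw [decide_eq_false_iff_not]
    intro h3
    exact Finset.disjoint_left.mp hd h3 (Finset.mem_product.mpr ⟨h1, h0⟩)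
  · intro c h0 h1
    rw [m1] at h0 h1
    unfold emj
    rw [decide_eq_true_iff]
    exact Finset.mem_union_right _ (Finset.mem_product.mpr ⟨h1, h0⟩)
  · intro c hc
    rw [m1, m1] at hc
    unfold emj
    rw [decide_eq_decide, Finset.mem_union, Finset.mem_product]
    constructor
    · rintro (a3 | a3)
      · exact a3
      · exact absurd ⟨a3.2, a3.1⟩ hc
    · intro a3
      exact Or.inl a3

theorem exists_jker {M : ℕ} {w : ℕ → ℕ} {D : ℝ} (L : NLim M w D) :
    ∃ g : Pt → Pt → ℝ, JKer M w D g := by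
  refine ⟨nj L, ?_, ?_, ?_, ?_, ?_, ?_⟩
  · intro X Y
    rw [nj_eq L (njM_right Y X) (njM_left Y X)]
    unfold nj
    exact L.symm _ _ _
  · intro X
    unfold nj
    exact L.diag _ _
  · exact fun ι _ X a => nj_psd L ι X a
  · exact fun σ hσ X Y => nj_inv L σ hσ X Y
  · exact fun X Y v h => nj_rem L X Y v h
  · exact fun X I J hS hd => nj_bad L X I J hS hd

end Pool.Agent.Lib.MP_90b327_co.NS
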