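import Mathlib
import Pool.Agent.Lib.MP_90b327_co.NS.NDefs
import Pool.Agent.Lib.MP_90b327_co.NS.NDat
import Pool.Agent.Lib.MP_90b327_co.NS.TwoS
import Pool.Agent.Lib.MP_90b327_co.NS.Crit
import Pool.Agent.Lib.MP_90b327_co.NS.FarNear
import Pool.Agent.Lib.MP_90b327_co.NS.Chain
import Pool.Agent.Lib.MP_90b327_co.NS.Choice

/-!
MODULE NMain (50 minutes, old scale). Text section 6: contradiction for the limit kernel.

PROOF. `T` with `Link g D T` (`exists_dat h hD`). `t` with `2 / D ≤ t + 1`. `crit T ε k₀` with `4 (t + 1) ε = D²/32` and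
`1/k₀ ≤ D²/32` gives `k`, `i₀`. `Φ s` := a number `W ≥ M` with `s + k ≤ w m` for all `m ≥ W` (`hw`, `choose`). `choice` with
`mm a = tt T k 0 a` (`tt_nonneg`) gives `s`; `s` is monotone on `0..t`.
For `i < j ≤ t`: `al = range (s i)`, `gg = Ico (s i) (s j)`, `m = s j - s i ≥ s j - s (j-1) ≥ Φ (s (j-1))` (as `s i ≤ s (j-1)`), so
`M ≤ m` and `s i + k ≤ s (j-1) + k ≤ w m`; `hh = s t - s j`; `far_near` with `ε' = D²/8` gives `K₀ i j`; for
`H b = Ico (s j) (s t + (b + 1))`. Take `K ≥ 1` larger than all `K₀ i j` (finitely many pairs): for all pairs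
`∑_{b<K} qv ... ≤ K (D sqrt (D²/16) + D²/8) = K (3/8) D²`.
`chain h t (b + 1) s`, summed over `b < K` and divided by `K`: with `n = t + 1`,
`n² D² ≤ n D + 2 (n (n - 1)/2) (3/8) D² ≤ n² D²/2 + (3/8) n² D²` (`n D ≥ 2`, so `n D ≤ n² D²/2`), that is `n² D² ≤ (7/8) n² D²`,
a contradiction (`n D > 0`).
-/

set_option autoImplicit false

namespace Pool.Agent.Lib.MP_90b327_co.NS

open Finset Filter Pool.Agent.Lib.MP_90b327_co Pool.Agent.Lib.MP_90b327_co.RB

private theorem NMain_gauss (n : ℕ) : ∑ j ∈ range n, (j : ℝ) = (n : ℝ) * (n - 1) / 2 := by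
  induction n with
  | zero => simp
  | succ n ih =>
    rw [sum_range_succ, ih]
    push_cast
    ring

theorem no_jker {M : ℕ} {w : ℕ → ℕ} (hw : Tendsto w atTop atTop) {D : ℝ} (hD : 0 < D)
    {g : Pt → Pt → ℝ} (h : JKer M w D g) : False := by
  obtain ⟨T, hT⟩ := exists_dat h hD
  obtain ⟨t, ht⟩ := exists_nat_ge (2 / D)
  have ht1 : (0 : ℝ) < (t : ℝ) + 1 := by positivity
  set ε : ℝ := D ^ 2 / 32 / (4 * ((t : ℝ) + 1)) with hε
  have hε0 : 0 < ε := by positivity
  have hεe : 4 * ((t : ℝ) + 1) * ε = D ^ 2 / 32 := by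
    rw [hε]
    field_simp
  obtain ⟨k, hk0, hk1, i₀, hi⟩ := crit T ε hε0 ⌈32 / D ^ 2⌉₊
  have hkr : (0 : ℝ) < k := by exact_mod_cast hk1
  have hkinv : 1 / (k : ℝ) ≤ D ^ 2 / 32 := by
    have h1 : 32 / D ^ 2 ≤ (k : ℝ) := (Nat.le_ceil _).trans (by exact_mod_cast hk0)
    rw [div_le_iff₀ (by positivity)] at h1
    rw [div_le_div_iff₀ hkr (by norm_num)]
    linarith
  have HΦ : ∀ s : ℕ, ∃ W : ℕ, M ≤ W ∧ ∀ m, W ≤ m → s + k ≤ w m := by
    intro s
    obtain ⟨W, hW⟩ := eventually_atTop.1 (hw.eventually_ge_atTop (s + k))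
    exact ⟨max W M, le_max_right _ _, fun m hm => hW m ((le_max_left _ _).trans hm)⟩
  choose Φ hΦ using HΦ
  obtain ⟨s, hs0, hs1, hs2⟩ := choice (fun a => tt T k 0 a) (fun a => tt_nonneg T k 0 a) ε hε0 i₀
    hi t Φ
  have hmono : ∀ i j, i ≤ j → j ≤ t → s i ≤ s j := by
    intro i j hij
    induction j, hij using Nat.le_induction with
    | base => intro _; exact le_rfl
    | succ j hij ih =>
      intro hj
      exact (ih (by omega)).trans (hs1 j (by omega)).1.le
  -- the bound for one pair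
  have HK : ∀ i j : ℕ, ∃ K₀ : ℕ, i < j → j ≤ t → ∀ K, K₀ ≤ K →
      ∑ b ∈ range K, qv g (range (s i)) (Ico (s i) (s j)) (Ico (s j) (s t + (b + 1))) ≤
        K * (3 / 8 * D ^ 2) := by
    intro i j
    by_cases hc : i < j ∧ j ≤ t
    · obtain ⟨hij, hjt⟩ := hc
      obtain ⟨j', rfl⟩ : ∃ j', j = j' + 1 := ⟨j - 1, by omega⟩
      have hij' : s i ≤ s j' := hmono i j' (by omega) (by omega)
      obtain ⟨g1, g2⟩ := hs1 j' (by omega)
      have hst : s (j' + 1) ≤ s t := hmono _ _ hjt le_rfl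
      have hcard : (Ico (s i) (s (j' + 1))).card = s (j' + 1) - s i := Nat.card_Ico _ _
      have hΦm : Φ (s j') ≤ s (j' + 1) - s i := by omega
      have hdis : Disjoint (range (s i)) (Ico (s i) (s (j' + 1))) := by
        rw [disjoint_left]
        intro v hv hv'
        rw [mem_range] at hv
        rw [mem_Ico] at hv'
        omega
      obtain ⟨K₀, hK₀⟩ := far_near h hD T hT (range (s i)) (Ico (s i) (s (j' + 1))) hdis k
        (s t - s (j' + 1)) hk1 (by
          rw [hcard]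
          exact (hΦ (s j')).1.trans hΦm) (by
          rw [hcard, card_range]
          have := (hΦ (s j')).2 _ hΦm
          omega) (D ^ 2 / 8) (by positivity)
      refine ⟨K₀, fun _ _ K hK => ?_⟩
      refine (hK₀ K hK (fun b => Ico (s (j' + 1)) (s t + (b + 1))) ?_).trans ?_
      · intro b _
        refine ⟨?_, ?_⟩
        · rw [disjoint_left]
          intro v hv hv'
          rw [mem_union, mem_range, mem_Ico] at hv
          rw [mem_Ico] at hv'
          omega
        · rw [Nat.card_Ico]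
          omega
      · refine mul_le_mul_of_nonneg_left ?_ (Nat.cast_nonneg K)
        have h1 : tt T k 0 (s (j' + 1) - s i) ≤ D ^ 2 / 32 := by
          rw [← hεe]
          exact hs2 i (j' + 1) hij hjt
        have h2 : Real.sqrt (tt T k 0 (Ico (s i) (s (j' + 1))).card + 1 / k) ≤ D / 4 := by
          rw [hcard]
          refine Real.sqrt_le_iff.mpr ⟨by positivity, ?_⟩
          calc tt T k 0 (s (j' + 1) - s i) + 1 / k ≤ D ^ 2 / 32 + D ^ 2 / 32 := add_le_add h1 hkinv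
            _ = (D / 4) ^ 2 := by ring
        calc D * Real.sqrt (tt T k 0 (Ico (s i) (s (j' + 1))).card + 1 / k) + D ^ 2 / 8
            ≤ D * (D / 4) + D ^ 2 / 8 := by
              have := mul_le_mul_of_nonneg_left h2 hD.le
              linarith
          _ = 3 / 8 * D ^ 2 := by ring
    · exact ⟨0, fun h1 h2 => absurd ⟨h1, h2⟩ hc⟩
  choose K0 hK0 using HK
  set K : ℕ := 1 + (range (t + 1) ×ˢ range (t + 1)).sup (fun p => K0 p.1 p.2) with hK
  have hKle : ∀ i j, i < j → j ≤ t → K0 i j ≤ K := by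
    intro i j hij hj
    have h1 : (fun p : ℕ × ℕ => K0 p.1 p.2) (i, j) ≤
        (range (t + 1) ×ˢ range (t + 1)).sup (fun p => K0 p.1 p.2) :=
      Finset.le_sup (f := fun p : ℕ × ℕ => K0 p.1 p.2) (by
        rw [mem_product, mem_range, mem_range]
        exact ⟨by omega, by omega⟩)
    have h2 : K0 i j ≤ (range (t + 1) ×ˢ range (t + 1)).sup (fun p => K0 p.1 p.2) := h1
    omega
  have hKpos : (0 : ℝ) < K := by
    have : 0 < K := by omega
    exact_mod_cast this
  -- sum of the inequalities of the chain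
  have hsum : (K : ℝ) * (((t : ℝ) + 1) ^ 2 * D ^ 2) ≤ K * ((t + 1) * D) +
      2 * ∑ j ∈ range (t + 1), ∑ i ∈ range j, (K : ℝ) * (3 / 8 * D ^ 2) := by
    calc (K : ℝ) * (((t : ℝ) + 1) ^ 2 * D ^ 2) = ∑ _b ∈ range K, ((t : ℝ) + 1) ^ 2 * D ^ 2 := by
          rw [sum_const, card_range, nsmul_eq_mul]
      _ ≤ ∑ b ∈ range K, (((t : ℝ) + 1) * D + 2 * ∑ j ∈ range (t + 1), ∑ i ∈ range j,
            qv g (range (s i)) (Ico (s i) (s j)) (Ico (s j) (s t + (b + 1)))) :=
          sum_le_sum fun b _ => chain h t (b + 1) s hmono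
      _ = K * ((t + 1) * D) + 2 * ∑ j ∈ range (t + 1), ∑ i ∈ range j, ∑ b ∈ range K,
            qv g (range (s i)) (Ico (s i) (s j)) (Ico (s j) (s t + (b + 1))) := by
          rw [sum_add_distrib, sum_const, card_range, nsmul_eq_mul, ← mul_sum, sum_comm]
          congr 2
          refine sum_congr rfl fun j _ => ?_
          rw [sum_comm]
      _ ≤ _ := by
          have h1 : ∑ j ∈ range (t + 1), ∑ i ∈ range j, ∑ b ∈ range K,
              qv g (range (s i)) (Ico (s i) (s j)) (Ico (s j) (s t + (b + 1))) ≤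
              ∑ j ∈ range (t + 1), ∑ i ∈ range j, (K : ℝ) * (3 / 8 * D ^ 2) := by
            refine sum_le_sum fun j hj => sum_le_sum fun i hij => ?_
            rw [mem_range] at hj hij
            exact hK0 i j hij (by omega) K (hKle i j hij (by omega))
          linarith
  have hgauss : ∑ j ∈ range (t + 1), ∑ i ∈ range j, (K : ℝ) * (3 / 8 * D ^ 2) =
      ((t : ℝ) + 1) * t / 2 * (K * (3 / 8 * D ^ 2)) := by
    have h1 : ∀ j ∈ range (t + 1), ∑ _i ∈ range j, (K : ℝ) * (3 / 8 * D ^ 2) =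
        (j : ℝ) * (K * (3 / 8 * D ^ 2)) := by
      intro j _
      rw [sum_const, card_range, nsmul_eq_mul]
    rw [sum_congr rfl h1, ← sum_mul, NMain_gauss]
    push_cast
    ring
  rw [hgauss] at hsum
  have hfin : ((t : ℝ) + 1) ^ 2 * D ^ 2 ≤ (t + 1) * D + (t + 1) * t * (3 / 8 * D ^ 2) := by
    have h1 : (K : ℝ) * (((t : ℝ) + 1) ^ 2 * D ^ 2) ≤
        K * ((t + 1) * D + (t + 1) * t * (3 / 8 * D ^ 2)) := by
      refine hsum.trans (le_of_eq ?_)
      ring
    exact le_of_mul_le_mul_left h1 hKpos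
  have hn : 2 ≤ ((t : ℝ) + 1) * D := by
    rw [div_le_iff₀ hD] at ht
    nlinarith
  have hx0 : 0 < ((t : ℝ) + 1) * D := by positivity
  have h2 : ((t : ℝ) + 1) * t * (3 / 8 * D ^ 2) ≤ 3 / 8 * (((t : ℝ) + 1) * D) ^ 2 := by
    have h3 : (0 : ℝ) ≤ (t + 1) * D ^ 2 := by positivity
    nlinarith
  have h4 : (((t : ℝ) + 1) * D) ^ 2 ≤ (t + 1) * D + 3 / 8 * (((t : ℝ) + 1) * D) ^ 2 := by
    calc (((t : ℝ) + 1) * D) ^ 2 = ((t : ℝ) + 1) ^ 2 * D ^ 2 := by ring
      _ ≤ _ := hfin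
      _ ≤ _ := by linarith
  nlinarith

end Pool.Agent.Lib.MP_90b327_co.NS
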