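import Mathlib
import Pool.Agent.Lib.MP_90b327_co.NS.NDefs
import Pool.Agent.Lib.MP_90b327_co.NS.NLimit
import Pool.Agent.Lib.MP_90b327_co.NS.NFiber
import Pool.Agent.Lib.MP_90b327_co.NS.NJoint
import Pool.Agent.Lib.MP_90b327_co.NS.NMain

/-!
MODULE NFinal (20 minutes, old scale). The theorem.

PROOF. By contradiction: if no `N₀` works (with `max M 1` instead of `M`), then by `nfiber` for EVERY `N` there is a family
`S ⊆ P([N]^2)` with `|S| > δ 2^(N^2)` which is not `GoodN (max M 1) w N` (otherwise `N₀ = N` would work). `exists_nlim` gives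
`δ' ≥ δ > 0` and `L : NLim (max M 1) w δ'`, `exists_jker L` a kernel, `no_jker` the contradiction. `γ` is non-empty
because it has at least `max M 1 ≥ 1` elements.
-/

set_option autoImplicit false

namespace Pool.Agent.Lib.MP_90b327_co.NS

open Finset Filter Pool.Agent.Lib.MP_90b327_co Pool.Agent.Lib.MP_90b327_co.RB

theorem near_squares (δ : ℝ) (hδ : 0 < δ) (M : ℕ) (w : ℕ → ℕ) (hw : Tendsto w atTop atTop) :
    ∃ N₀ : ℕ, ∀ N, N₀ ≤ N → ∀ S : Finset (Finset (Fin 2 → Fin N)),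
      δ * 2 ^ (N ^ 2) < (S.card : ℝ) →
      ∃ A ∈ S, ∃ γ γ' : Finset (Fin N), γ.Nonempty ∧ γ ⊆ γ' ∧ M ≤ γ.card ∧
        γ'.card ≤ γ.card + w γ.card ∧ Disjoint A (bx γ γ') ∧ A ∪ bx γ γ' ∈ S := by
  by_contra hcon
  have hall : ∀ N : ℕ, ∃ S : Finset (Finset (Fin 2 → Fin N)), (S.card : ℝ) > δ * 2 ^ (N ^ 2) ∧
      ¬ GoodN (max M 1) w N S := by
    intro N₀
    by_contra hno
    push Not at hno
    apply hcon
    refine ⟨N₀, fun N hN S hS => ?_⟩
    obtain ⟨A, hA, γ, γ', ⟨hsub, hM, hcard⟩, hd, hU⟩ :=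
      nfiber (max M 1) w δ hδ N₀ (fun S hS => hno S hS) N hN S hS
    refine ⟨A, hA, γ, γ', ?_, hsub, (le_max_left _ _).trans hM, hcard, hd, hU⟩
    exact Finset.card_pos.mp (lt_of_lt_of_le Nat.zero_lt_one ((le_max_right _ _).trans hM))
  obtain ⟨δ', hδ', ⟨L⟩⟩ := exists_nlim (max M 1) w δ hall
  obtain ⟨g, hg⟩ := exists_jker L
  exact no_jker hw (hδ.trans_le hδ') hg

end Pool.Agent.Lib.MP_90b327_co.NS
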